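import Mathlib
import Pool.Agent.Lib.MP_c385f6_ag.PlaceSection

set_option autoImplicit false

/-!
Base change of sections: `L / k` algebraic inside `Ω`, `M = K L`. A section of
`Gal(K^ur / K) → Gal_k` restricts to a section of `Gal(M^ur / M) → Gal_L`.
-/

namespace Pool.Agent.Lib.MP_c385f6_ag

open Polynomial
open scoped Pointwise

/-- A homomorphism to a Galois group is continuous if the stabilizers of the elements are open. -/
theorem continuous_of_stab {G F A : Type*} [Group G] [TopologicalSpace G] [IsTopologicalGroup G]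
    [Field F] [Field A] [Algebra F A] (f : G →* (A ≃ₐ[F] A))
    (h : ∀ a : A, {g : G | f g a = a} ∈ nhds (1 : G)) : Continuous f := by
  apply continuous_of_continuousAt_one _ (continuousAt_def.mpr _)
  intro N hN
  rw [map_one, krullTopology_mem_nhds_one_iff] at hN
  obtain ⟨E, hE, hO⟩ := hN
  obtain ⟨b⟩ : Nonempty (Module.Basis (Module.Free.ChooseBasisIndex F E) F E) :=
    ⟨Module.Free.chooseBasis F E⟩
  have h1 : (⋂ i, {g : G | f g (b i : A) = (b i : A)}) ∈ nhds (1 : G) :=
    (Filter.iInter_mem).2 fun i => h _
  refine Filter.mem_of_superset h1 ?_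
  intro g hg
  apply hO
  simp only [SetLike.mem_coe, IntermediateField.mem_fixingSubgroup_iff]
  intro y hy
  have h2 : ((f g).toLinearMap.comp E.val.toLinearMap : E →ₗ[F] _) = E.val.toLinearMap := by
    apply b.ext
    intro i
    exact Set.mem_iInter.1 hg i
  exact LinearMap.congr_fun h2 ⟨y, hy⟩

/-- The stabilizer of an algebraic element is open. -/
theorem stab_nhds {F A : Type*} [Field F] [Field A] [Algebra F A] [Algebra.IsAlgebraic F A]
    (a : A) : {g : A ≃ₐ[F] A | g a = a} ∈ nhds (1 : A ≃ₐ[F] A) :=
  (stabilizer_isOpen_of_isIntegral (K := F) a).mem_nhds (one_mem _)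

section
variable {K Ω M : Type*} [Field K] [Field M] [Field Ω] [Algebra K Ω] [Algebra M Ω]

/-- Inertia groups only depend on the map. -/
theorem inertia_congr {B : ValuationSubring Ω} {σ : Ω ≃ₐ[K] Ω} {τ : Ω ≃ₐ[M] Ω}
    (h : ∀ z, σ z = τ z) (hσ : σ ∈ inertia K B) : τ ∈ inertia M B := by
  have hdec : σ • B = B := by
    obtain ⟨σ', -, rfl⟩ := hσ
    exact σ'.2
  refine mem_inertia_of ?_ fun y hy => ?_
  · rw [MulAction.mem_stabilizer_iff]
    ext z
    rw [ValuationSubring.mem_smul_pointwise_iff_exists]
    conv_rhs => rw [← hdec]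
    rw [ValuationSubring.mem_smul_pointwise_iff_exists]
    constructor
    · rintro ⟨s, hs, rfl⟩
      exact ⟨s, hs, h s⟩
    · rintro ⟨s, hs, rfl⟩
      exact ⟨s, hs, (h s).symm⟩
  · rw [← h]
    exact inertia_valuation hσ hy

end

section
variable {k L K M Ω : Type*} [Field k] [Field L] [Field K] [Field M] [Field Ω]
  [Algebra k L] [Algebra k K] [Algebra k Ω] [Algebra L Ω] [Algebra K Ω] [Algebra K M]
  [Algebra L M] [Algebra M Ω] [IsScalarTower k K Ω] [IsScalarTower k L Ω] [IsScalarTower K M Ω]
  [IsScalarTower L M Ω] [Algebra.IsAlgebraic k L]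

omit [Field K] [Field M] [Algebra k K] [Algebra K Ω] [Algebra K M] [Algebra L M] [Algebra M Ω]
  [IsScalarTower k K Ω] [IsScalarTower K M Ω] [IsScalarTower L M Ω] in
theorem mem_algClosure_iff_base (c : Ω) : c ∈ algebraicClosure L Ω ↔ c ∈ algebraicClosure k Ω := by
  rw [mem_algebraicClosure_iff, mem_algebraicClosure_iff]
  exact ⟨fun h => h.restrictScalars k, fun h => h.tower_top L⟩

omit [Field K] [Field M] [Algebra k K] [Algebra K Ω] [Algebra K M] [Algebra L M] [Algebra M Ω]
  [IsScalarTower k K Ω] [IsScalarTower K M Ω] [IsScalarTower L M Ω] in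
theorem algebraMap_mem_closure (c : L) : algebraMap L Ω c ∈ algebraicClosure k Ω :=
  (mem_algClosure_iff_base (L := L) _).1 ((algebraicClosure L Ω).algebraMap_mem c)

section
variable (hM : IntermediateField.adjoin K (Set.range (algebraMap L M)) = ⊤)
include hM

omit [Field k] [Algebra k L] [Algebra k K] [Algebra k Ω] [IsScalarTower k K Ω]
  [IsScalarTower k L Ω] [Algebra.IsAlgebraic k L] in
/-- A ring automorphism fixing `K` and `L` fixes `M`. -/
theorem fix_of_fix_base {R : Type*} [Semiring R] (f g : M →+* R)
    (hK : ∀ x : K, f (algebraMap K M x) = g (algebraMap K M x))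
    (hL : ∀ x : L, f (algebraMap L M x) = g (algebraMap L M x)) (m : M) : f m = g m := by
  have hm : m ∈ IntermediateField.adjoin K (Set.range (algebraMap L M)) := by
    rw [hM]; trivial
  induction hm using IntermediateField.adjoin_induction with
  | mem y hy =>
    obtain ⟨x, rfl⟩ := hy
    exact hL x
  | algebraMap c => exact hK c
  | add a b _ _ ha hb => rw [map_add, map_add, ha, hb]
  | inv a _ ha =>
    by_cases h0 : a = 0
    · rw [h0, inv_zero, map_zero, map_zero]
    · have h1 : f a * f a⁻¹ = 1 := by rw [← map_mul, mul_inv_cancel₀ h0, map_one]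
      have h2 : g a⁻¹ * g a = 1 := by rw [← map_mul, inv_mul_cancel₀ h0, map_one]
      calc f a⁻¹ = (g a⁻¹ * g a) * f a⁻¹ := by rw [h2, one_mul]
        _ = g a⁻¹ * (f a * f a⁻¹) := by rw [ha, mul_assoc]
        _ = g a⁻¹ := by rw [h1, mul_one]
  | mul a b _ _ ha hb => rw [map_mul, map_mul, ha, hb]

theorem mem_ur_iff_base (z : Ω) : z ∈ maxUnramified L M Ω ↔ z ∈ maxUnramified k K Ω := by
  constructor
  · intro hz
    refine mem_maxUnramified fun B hB σ hσ => ?_
    have hσL : ∀ c : L, σ (algebraMap L Ω c) = algebraMap L Ω c := fun c =>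
      inertia_const hB hσ (algebraMap_mem_closure c)
    have hσM : ∀ m : M, σ (algebraMap M Ω m) = algebraMap M Ω m := by
      intro m
      refine fix_of_fix_base hM ((σ : Ω →+* Ω).comp (algebraMap M Ω)) (algebraMap M Ω) ?_ ?_ m
      · intro x
        show σ (algebraMap M Ω (algebraMap K M x)) = _
        rw [← IsScalarTower.algebraMap_apply K M Ω]
        exact σ.commutes x
      · intro x
        show σ (algebraMap M Ω (algebraMap L M x)) = _
        rw [← IsScalarTower.algebraMap_apply L M Ω]
        exact hσL x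
    let τ : Ω ≃ₐ[M] Ω := AlgEquiv.ofRingEquiv (f := (σ : Ω ≃+* Ω)) hσM
    have hτ : ∀ z, σ z = τ z := fun z => rfl
    rw [hτ]
    refine inertia_ur (k := L) (fun c => ?_) (inertia_congr hτ hσ) hz
    exact mem_of_algebraic hB (algebraMap_mem_closure c)
  · intro hz
    refine mem_maxUnramified fun B hB τ hτ => ?_
    have hBk : ∀ c : k, algebraMap k Ω c ∈ B := by
      intro c
      rw [IsScalarTower.algebraMap_apply k L Ω]
      exact hB _
    have h1 : ∀ z, τ z = (τ.restrictScalars K) z := fun z => rfl
    rw [h1]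
    exact inertia_ur hBk (inertia_congr h1 hτ) hz

end

variable (k L Ω) in
/-- Restriction `Gal_L → Gal_k`. -/
noncomputable def resAbs : AbsGal L Ω →* AbsGal k Ω where
  toFun g := 
    { toFun := fun c => ⟨g ⟨c, (mem_algClosure_iff_base (L := L) _).2 c.2⟩,
        (mem_algClosure_iff_base (L := L) _).1 (g ⟨c, (mem_algClosure_iff_base (L := L) _).2 c.2⟩).2⟩
      invFun := fun c => ⟨g.symm ⟨c, (mem_algClosure_iff_base (L := L) _).2 c.2⟩,
        (mem_algClosure_iff_base (L := L) _).1
          (g.symm ⟨c, (mem_algClosure_iff_base (L := L) _).2 c.2⟩).2⟩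
      left_inv := by
        intro c
        apply Subtype.ext
        simp
      right_inv := by
        intro c
        apply Subtype.ext
        simp
      map_mul' := by
        intro a b
        apply Subtype.ext
        have h1 : (⟨((a * b : algebraicClosure k Ω) : Ω),
          (mem_algClosure_iff_base (L := L) _).2 (a * b).2⟩ : algebraicClosure L Ω) =
          ⟨a, (mem_algClosure_iff_base (L := L) _).2 a.2⟩ *
            ⟨b, (mem_algClosure_iff_base (L := L) _).2 b.2⟩ := rfl
        simp only [h1, map_mul]
        rfl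
      map_add' := by
        intro a b
        apply Subtype.ext
        have h1 : (⟨((a + b : algebraicClosure k Ω) : Ω),
          (mem_algClosure_iff_base (L := L) _).2 (a + b).2⟩ : algebraicClosure L Ω) =
          ⟨a, (mem_algClosure_iff_base (L := L) _).2 a.2⟩ +
            ⟨b, (mem_algClosure_iff_base (L := L) _).2 b.2⟩ := rfl
        simp only [h1, map_add]
        rfl
      commutes' := by
        intro c
        apply Subtype.ext
        have h1 : (⟨((algebraMap k (algebraicClosure k Ω) c : algebraicClosure k Ω) : Ω),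
          (mem_algClosure_iff_base (L := L) _).2 (algebraMap k (algebraicClosure k Ω) c).2⟩ :
            algebraicClosure L Ω) = algebraMap L _ (algebraMap k L c) :=
          Subtype.ext (IsScalarTower.algebraMap_apply k L Ω c)
        simp only [h1, AlgEquiv.commutes]
        exact (IsScalarTower.algebraMap_apply k L Ω c).symm }
  map_one' := by
    ext c
    rfl
  map_mul' g h := by
    ext c
    rfl

omit [Field K] [Field M] [Algebra k K] [Algebra K Ω] [Algebra K M] [Algebra L M] [Algebra M Ω]
  [IsScalarTower k K Ω] [IsScalarTower K M Ω] [IsScalarTower L M Ω] in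
theorem resAbs_apply (g : AbsGal L Ω) {c : algebraicClosure k Ω} {d : algebraicClosure L Ω}
    (h : (c : Ω) = d) : ((resAbs k L Ω g c : algebraicClosure k Ω) : Ω) = g d := by
  have h1 : (⟨c, (mem_algClosure_iff_base (L := L) _).2 c.2⟩ : algebraicClosure L Ω) = d :=
    Subtype.ext h
  rw [← h1]
  rfl

omit [Field K] [Field M] [Algebra k K] [Algebra K Ω] [Algebra K M] [Algebra L M] [Algebra M Ω]
  [IsScalarTower k K Ω] [IsScalarTower K M Ω] [IsScalarTower L M Ω] in
theorem resAbs_continuous : Continuous (resAbs k L Ω) := by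
  refine continuous_of_stab _ fun c => ?_
  let d : algebraicClosure L Ω := ⟨c, (mem_algClosure_iff_base (L := L) _).2 c.2⟩
  refine Filter.mem_of_superset (stab_nhds (F := L) d) ?_
  intro g hg
  have hg' : g d = d := hg
  show resAbs k L Ω g c = c
  apply Subtype.ext
  rw [resAbs_apply g (c := c) (d := d) rfl, hg']

variable (hM : IntermediateField.adjoin K (Set.range (algebraMap L M)) = ⊤)
include hM

variable (k L K M Ω) in
theorem exists_base_section [Algebra.IsAlgebraic K Ω] {s : AbsGal k Ω →* PiOne k K Ω}
    (hs : IsSection k K Ω s) :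
    ∃ s' : AbsGal L Ω →* PiOne L M Ω, IsSection L M Ω s' ∧
      ∀ (g : AbsGal L Ω) (z : maxUnramified L M Ω) (y : maxUnramified k K Ω), (z : Ω) = y →
        ((s' g z : maxUnramified L M Ω) : Ω) = s (resAbs k L Ω g) y := by
  classical
  have hmem := mem_ur_iff_base (k := k) (L := L) (K := K) (M := M) (Ω := Ω) hM
  -- the identification of the two fields
  let e : maxUnramified L M Ω ≃+* maxUnramified k K Ω :=
    { toFun := fun z => ⟨z, (hmem z).1 z.2⟩
      invFun := fun z => ⟨z, (hmem z).2 z.2⟩
      left_inv := fun z => rfl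
      right_inv := fun z => rfl
      map_mul' := fun a b => rfl
      map_add' := fun a b => rfl }
  have he : ∀ z, ((e z : maxUnramified k K Ω) : Ω) = z := fun z => rfl
  have he' : ∀ z, ((e.symm z : maxUnramified L M Ω) : Ω) = z := fun z => rfl
  let S : AbsGal L Ω → (maxUnramified L M Ω ≃+* maxUnramified L M Ω) := fun g =>
    (e.trans (s (resAbs k L Ω g) : maxUnramified k K Ω ≃+* maxUnramified k K Ω)).trans e.symm
  have hS : ∀ g z, S g z = e.symm (s (resAbs k L Ω g) (e z)) := fun g z => rfl
  have hSM : ∀ g (m : M), S g (algebraMap M _ m) = algebraMap M _ m := by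
    intro g m
    refine fix_of_fix_base hM ((S g : maxUnramified L M Ω →+* maxUnramified L M Ω).comp
      (algebraMap M _)) (algebraMap M _) ?_ ?_ m
    · intro x
      have h1 : e (algebraMap M _ (algebraMap K M x)) = algebraMap K _ x := by
        apply Subtype.ext
        exact (IsScalarTower.algebraMap_apply K M Ω x).symm
      show S g (algebraMap M _ (algebraMap K M x)) = _
      rw [hS, h1, AlgEquiv.commutes, ← h1]
      exact e.symm_apply_apply _
    · intro x
      have hx : algebraMap L Ω x ∈ algebraicClosure k Ω := algebraMap_mem_closure x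
      have h1 : ((e (algebraMap M _ (algebraMap L M x)) : maxUnramified k K Ω) : Ω) =
          ((⟨algebraMap L Ω x, hx⟩ : algebraicClosure k Ω) : Ω) :=
        (IsScalarTower.algebraMap_apply L M Ω x).symm
      show S g (algebraMap M _ (algebraMap L M x)) = _
      rw [hS]
      apply Subtype.ext
      rw [he', hs.restrict _ _ _ h1,
        resAbs_apply g (c := ⟨algebraMap L Ω x, hx⟩) (d := algebraMap L _ x) rfl, AlgEquiv.commutes]
      exact (IsScalarTower.algebraMap_apply L M Ω x)
  let s' : AbsGal L Ω →* PiOne L M Ω :=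
    { toFun := fun g => AlgEquiv.ofRingEquiv (f := S g) (hSM g)
      map_one' := by
        ext z
        show ((S 1 z : maxUnramified L M Ω) : Ω) = z
        rw [hS, map_one, map_one]
        rfl
      map_mul' := by
        intro g h
        ext z
        show ((S (g * h) z : maxUnramified L M Ω) : Ω) = (S g (S h z) : maxUnramified L M Ω)
        rw [hS, hS, hS, map_mul, map_mul, RingEquiv.apply_symm_apply]
        rfl }
  have hs' : ∀ g z, s' g z = e.symm (s (resAbs k L Ω g) (e z)) := fun g z => rfl
  refine ⟨s', ⟨?_, ?_⟩, ?_⟩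
  · refine continuous_of_stab _ fun z => ?_
    have : Algebra.IsAlgebraic K (maxUnramified k K Ω) := inferInstance
    have h1 : Continuous fun g : AbsGal L Ω => s (resAbs k L Ω g) :=
      hs.continuous.comp resAbs_continuous
    have h2 := h1.continuousAt (x := 1)
    have h3 : {ρ : PiOne k K Ω | ρ (e z) = e z} ∈ nhds (s (resAbs k L Ω 1)) := by
      rw [map_one, map_one]
      exact stab_nhds (F := K) (e z)
    refine Filter.mem_of_superset (h2 h3) ?_
    intro g hg
    have hg' : s (resAbs k L Ω g) (e z) = e z := hg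
    show s' g z = z
    rw [hs', hg', e.symm_apply_apply]
  · intro g c z hz
    let c' : algebraicClosure k Ω := ⟨c, (mem_algClosure_iff_base (L := L) _).1 c.2⟩
    rw [hs', he', hs.restrict _ c' (e z) hz, resAbs_apply g (c := c') (d := c) rfl]
  · intro g z y hzy
    have h1 : e z = y := Subtype.ext hzy
    rw [hs', he', h1]

end

end Pool.Agent.Lib.MP_c385f6_ag
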