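import Mathlib
import Pool.Agent.Lib.MP_c385f6_ag.AllP.BaseChange
import Pool.Agent.Lib.MP_c385f6_ag.Cyclic

set_option autoImplicit false

/-!
Equivariant choice of the twists for branch points in a Galois extension `L / k` that are permuted
freely by `Gal(L / k)`.
-/

namespace Pool.Agent.Lib.MP_c385f6_ag

open MulAction

section
variable {k L Ω : Type*} [Field k] [Field L] [Field Ω] [Algebra k L] [Algebra k Ω] [Algebra L Ω]
  [IsScalarTower k L Ω] [Algebra.IsAlgebraic k L]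

variable (k L Ω) in
/-- The embedding of `L` in the constants. -/
noncomputable def embL : L →ₐ[k] algebraicClosure k Ω where
  toFun c := ⟨algebraMap L Ω c, algebraMap_mem_closure c⟩
  map_one' := Subtype.ext (map_one _)
  map_mul' a b := Subtype.ext (map_mul _ a b)
  map_zero' := Subtype.ext (map_zero _)
  map_add' a b := Subtype.ext (map_add _ a b)
  commutes' c := Subtype.ext (IsScalarTower.algebraMap_apply k L Ω c).symm

theorem coe_embL (c : L) : ((embL k L Ω c : algebraicClosure k Ω) : Ω) = algebraMap L Ω c := rfl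

/-- An automorphism that fixes `L` comes from `Gal_L`. -/
theorem exists_resAbs {h : AbsGal k Ω} (hh : ∀ x, h (embL k L Ω x) = embL k L Ω x) :
    ∃ γ : AbsGal L Ω, resAbs k L Ω γ = h := by
  have hm := mem_algClosure_iff_base (k := k) (L := L) (Ω := Ω)
  let e : algebraicClosure L Ω ≃+* algebraicClosure k Ω :=
    { toFun := fun z => ⟨z, (hm z).1 z.2⟩
      invFun := fun z => ⟨z, (hm z).2 z.2⟩
      left_inv := fun z => rfl
      right_inv := fun z => rfl
      map_mul' := fun a b => rfl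
      map_add' := fun a b => rfl }
  let f : algebraicClosure L Ω ≃+* algebraicClosure L Ω :=
    (e.trans (h : algebraicClosure k Ω ≃+* algebraicClosure k Ω)).trans e.symm
  have hf : ∀ x : L, f (algebraMap L _ x) = algebraMap L _ x := by
    intro x
    show e.symm (h (embL k L Ω x)) = _
    rw [hh]
    rfl
  refine ⟨AlgEquiv.ofRingEquiv (f := f) hf, ?_⟩
  ext c
  rfl

end

section
variable {k L K Ω : Type*} [Field k] [Field L] [Field K] [Field Ω]
  [Algebra k L] [Algebra k K] [Algebra k Ω] [Algebra L Ω] [Algebra K Ω] [IsScalarTower k K Ω]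
  [IsScalarTower k L Ω] [Algebra.IsAlgebraic k L]
  {s : AbsGal k Ω →* PiOne k K Ω}

omit [IsScalarTower k K Ω] [Algebra k K] in
theorem section_congr {h h' : AbsGal k Ω} {g : L ≃ₐ[k] L}
    (hh : ∀ x, h (embL k L Ω x) = embL k L Ω (g x))
    (hh' : ∀ x, h' (embL k L Ω x) = embL k L Ω (g x)) {Y : maxUnramified k K Ω}
    (hY : ∀ γ : AbsGal L Ω, s (resAbs k L Ω γ) Y = Y) : s h Y = s h' Y := by
  obtain ⟨γ, hγ⟩ := exists_resAbs (L := L) (h := h'⁻¹ * h) (by
    intro x
    rw [AlgEquiv.mul_apply, hh, ← hh']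
    show (h'⁻¹ * h') (embL k L Ω x) = _
    rw [inv_mul_cancel]
    rfl)
  have h1 : h = h' * resAbs k L Ω γ := by rw [hγ, mul_inv_cancel_left]
  rw [h1, map_mul, AlgEquiv.mul_apply, hY]

omit [IsScalarTower k K Ω] [Algebra k K] in
theorem section_conj {h : AbsGal k Ω} {g : L ≃ₐ[k] L}
    (hh : ∀ x, h (embL k L Ω x) = embL k L Ω (g x)) {Y : maxUnramified k K Ω}
    (hY : ∀ γ : AbsGal L Ω, s (resAbs k L Ω γ) Y = Y) (γ : AbsGal L Ω) :
    s (resAbs k L Ω γ) (s h Y) = s h Y := by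
  rw [← AlgEquiv.mul_apply, ← map_mul]
  refine section_congr (g := g) ?_ hh hY
  intro x
  rw [AlgEquiv.mul_apply, hh]
  apply Subtype.ext
  rw [resAbs_apply γ (c := embL k L Ω (g x)) (d := algebraMap L _ (g x)) rfl, AlgEquiv.commutes]
  rfl

/-- **Equivariant choice.** -/
theorem spread [CharZero k] [IsAlgClosure K Ω] [FiniteDimensional k L] [IsGalois k L]
    {T : Finset L} (hT : ∀ g : L ≃ₐ[k] L, ∀ t ∈ T, g t ∈ T)
    (hfree : ∀ t ∈ T, ∀ g : L ≃ₐ[k] L, g t = t → g = 1)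
    (hs : IsSection k K Ω s) {w : K} {p : ℕ} (D0 : L → L) (Y0 : L → maxUnramified k K Ω)
    (hfix : ∀ t ∈ T, ∀ γ : AbsGal L Ω, s (resAbs k L Ω γ) (Y0 t) = Y0 t)
    (hY0 : ∀ t ∈ T, algebraMap L Ω (D0 t) * (Y0 t : Ω) ^ p =
      algebraMap K Ω w - algebraMap L Ω t) :
    ∃ (D : L → L) (Y : L → maxUnramified k K Ω),
      (∀ t ∈ T, ∀ γ : AbsGal L Ω, s (resAbs k L Ω γ) (Y t) = Y t) ∧
      (∀ t ∈ T, algebraMap L Ω (D t) * (Y t : Ω) ^ p =
        algebraMap K Ω w - algebraMap L Ω t) ∧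
      (∀ t ∈ T, ∀ g : L ≃ₐ[k] L, D (g t) = g (D t)) ∧
      (∀ t ∈ T, ∀ (g : L ≃ₐ[k] L) (h : AbsGal k Ω),
        (∀ x, h (embL k L Ω x) = embL k L Ω (g x)) → s h (Y t) = Y (g t)) ∧
      ∀ t ∈ T, ∃ (g : L ≃ₐ[k] L) (r : L), r ∈ T ∧ g r = t ∧ D t = g (D0 r) := by
  classical
  have hac : IsAlgClosed Ω := IsAlgClosure.isAlgClosed K
  have hacF : IsAlgClosed (algebraicClosure k Ω) := IsAlgClosure.isAlgClosed k
  have hcl : IsAlgClosure k (algebraicClosure k Ω) := inferInstance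
  have hn : Normal k (algebraicClosure k Ω) := IsAlgClosure.normal k _
  have hg : IsGalois k (algebraicClosure k Ω) := {}
  have hlift : ∀ g : L ≃ₐ[k] L, ∃ h : AbsGal k Ω, ∀ x, h (embL k L Ω x) = embL k L Ω (g x) :=
    fun g => exists_lift (embL k L Ω) g
  choose H hH using hlift
  -- representatives
  let r : L → L := fun t => Quotient.out (Quotient.mk (orbitRel (L ≃ₐ[k] L) L) t)
  have hr : ∀ t, ∃ g : L ≃ₐ[k] L, g (r t) = t := by
    intro t
    have h1 : (orbitRel (L ≃ₐ[k] L) L).r t (r t) :=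
      (orbitRel (L ≃ₐ[k] L) L).symm (Quotient.mk_out t)
    obtain ⟨g, hg⟩ := h1
    exact ⟨g, hg⟩
  have hrg : ∀ (g : L ≃ₐ[k] L) t, r (g t) = r t := by
    intro g t
    show Quotient.out _ = Quotient.out _
    congr 1
    apply Quotient.sound
    exact ⟨g, rfl⟩
  choose G hG using hr
  have hrT : ∀ t ∈ T, r t ∈ T := by
    intro t ht
    have h1 : (G t)⁻¹ t = r t := by
      have h2 : (G t)⁻¹ (G t (r t)) = r t := by
        show ((G t)⁻¹ * G t) (r t) = r t
        rw [inv_mul_cancel]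
        rfl
      rw [hG] at h2
      exact h2
    rw [← h1]
    exact hT _ t ht
  have huniq : ∀ t ∈ T, ∀ g g' : L ≃ₐ[k] L, g t = g' t → g = g' := by
    intro t ht g g' h
    have h1 : (g'⁻¹ * g) t = t := by
      rw [AlgEquiv.mul_apply, h]
      show (g'⁻¹ * g') t = t
      rw [inv_mul_cancel]
      rfl
    have h2 := hfree t ht _ h1
    rw [inv_mul_eq_one] at h2
    exact h2.symm
  have hGg : ∀ t ∈ T, ∀ g : L ≃ₐ[k] L, G (g t) = g * G t := by
    intro t ht g
    apply huniq (r t) (hrT t ht)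
    rw [AlgEquiv.mul_apply, hG t, ← hrg g t, hG]
  have hsH : ∀ (g : L ≃ₐ[k] L) (x : L) (z : maxUnramified k K Ω), (z : Ω) = algebraMap L Ω x →
      ((s (H g) z : maxUnramified k K Ω) : Ω) = algebraMap L Ω (g x) := by
    intro g x z hz
    rw [hs.restrict (H g) (embL k L Ω x) z hz, hH]
    rfl
  refine ⟨fun t => G t (D0 (r t)), fun t => s (H (G t)) (Y0 (r t)), ?_, ?_, ?_, ?_, ?_⟩
  · intro t ht γ
    exact section_conj (hH (G t)) (hfix _ (hrT t ht)) γ
  · intro t ht
    have h1 := hY0 (r t) (hrT t ht)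
    let cD : maxUnramified k K Ω := constHom k K Ω (embL k L Ω (D0 (r t)))
    let cr : maxUnramified k K Ω := constHom k K Ω (embL k L Ω (r t))
    have h2 : cD * Y0 (r t) ^ p = algebraMap K _ w - cr := Subtype.ext h1
    have h3 := congrArg (s (H (G t))) h2
    rw [map_mul, map_pow, map_sub, AlgEquiv.commutes] at h3
    have h4 := congrArg (fun z : maxUnramified k K Ω => (z : Ω)) h3
    have h5 := hsH (G t) (D0 (r t)) cD rfl
    have h6 := hsH (G t) (r t) cr rfl
    rw [hG] at h6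
    show algebraMap L Ω (G t (D0 (r t))) * ((s (H (G t)) (Y0 (r t)) : maxUnramified k K Ω) : Ω) ^ p
      = _
    rw [← h5, ← h6]
    exact h4
  · intro t ht g
    show G (g t) (D0 (r (g t))) = g (G t (D0 (r t)))
    rw [hGg t ht, hrg]
    rfl
  · intro t ht g h hh
    show s h (s (H (G t)) (Y0 (r t))) = s (H (G (g t))) (Y0 (r (g t)))
    rw [← AlgEquiv.mul_apply, ← map_mul, hrg, hGg t ht]
    refine section_congr (g := g * G t) ?_ (hH _) (hfix _ (hrT t ht))
    intro x
    rw [AlgEquiv.mul_apply, hH, hh]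
    rfl
  · intro t ht
    exact ⟨G t, r t, hrT t ht, hG t, rfl⟩

end

end Pool.Agent.Lib.MP_c385f6_ag
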