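import Mathlib
import Pool.Agent.Lib.MP_c385f6_ag.KummerForms
import Pool.Agent.Lib.MP_c385f6_ag.FormsConics

set_option autoImplicit false

/-!
Covers of the line by adjoining `p`-th roots of products of the `w - b j`, with ramification over
all the `b j`.
-/

namespace Pool.Agent.Lib.MP_c385f6_ag

open Finset

section
variable {k K ι κ : Type*} [Field k] [Field K] [Algebra k K] [Fintype κ]

omit [Fintype κ] in
theorem form_one (b : κ → k) (w : K) (j : κ) :
    form (fun _ => 1) (fun j => -b j) w j = w - algebraMap k K (b j) := by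
  simp [form, sub_eq_add_neg]

/-- The ramification over the branch points is divisible by `p`. -/
theorem pair_ram {p : ℕ} (hp : p.Prime) {b : κ → k} (hb : Function.Injective b) {w : K}
    (hw : ∀ j, w ≠ algebraMap k K (b j)) {c : ι → k} (hc : ∀ i, c i ≠ 0)
    {a : ι → κ → ℕ} {z : ι → K}
    (hz : ∀ i, z i ^ p = algebraMap k K (c i) * ∏ j, (w - algebraMap k K (b j)) ^ a i j)
    (hcov : ∀ j, ∃ i, ¬ p ∣ a i j)
    (A : ValuationSubring K) (hA : ∀ c : k, algebraMap k K c ∈ A) (j : κ) :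
    ∃ h : K, h ≠ 0 ∧
      ((w ∈ A ∧ A.valuation (form (fun _ => 1) (fun j => -b j) w j) = A.valuation (h ^ p)) ∨
        (w ∉ A ∧ A.valuation (form (fun _ => 1) (fun j => -b j) w j) =
          A.valuation (w * h ^ p))) := by
  classical
  rw [form_one]
  have hcv : ∀ c : k, A.valuation (algebraMap k K c) ≤ 1 := fun c =>
    (A.valuation_le_one_iff _).2 (hA c)
  have hcv1 : ∀ c : k, c ≠ 0 → A.valuation (algebraMap k K c) = 1 := by
    intro c hc
    refine le_antisymm (hcv c) ?_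
    have h1 := hcv c⁻¹
    rw [map_inv₀, map_inv₀] at h1
    have h2 : A.valuation (algebraMap k K c) ≠ 0 :=
      (Valuation.ne_zero_iff _).2 ((map_ne_zero _).2 hc)
    exact (inv_le_one₀ (zero_lt_iff.2 h2)).1 h1
  have hz0 : ∀ i, z i ≠ 0 := by
    intro i h
    have h1 := hz i
    rw [h, zero_pow hp.ne_zero] at h1
    refine mul_ne_zero ((map_ne_zero _).2 (hc i)) ?_ h1.symm
    exact Finset.prod_ne_zero_iff.2 fun j _ => pow_ne_zero _ (sub_ne_zero.2 (hw j))
  -- roots of values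
  have hroot : ∀ (y z : K) (m : ℕ), y ≠ 0 → z ≠ 0 → ¬ p ∣ m →
      A.valuation (z ^ p) = A.valuation y ^ m → ∃ h : K, h ≠ 0 ∧
        A.valuation y = A.valuation (h ^ p) := by
    intro y z m hy hz hm h1
    have h2 : IsCoprime (m : ℤ) (p : ℤ) :=
      Nat.isCoprime_iff_coprime.2 ((Nat.Prime.coprime_iff_not_dvd hp).2 hm).symm
    obtain ⟨u, v, huv⟩ := h2
    refine ⟨z ^ u * y ^ v, mul_ne_zero (zpow_ne_zero _ hz) (zpow_ne_zero _ hy), ?_⟩
    have hvy : A.valuation y ≠ 0 := (Valuation.ne_zero_iff _).2 hy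
    have h3 : A.valuation ((z ^ u * y ^ v) ^ p) =
        (A.valuation (z ^ p)) ^ u * (A.valuation y) ^ (v * (p : ℤ)) := by
      rw [mul_pow, map_mul, map_pow, map_pow, map_zpow₀, map_zpow₀, map_pow, zpow_mul,
        ← zpow_natCast, ← zpow_natCast (A.valuation z), ← zpow_natCast (A.valuation y ^ v),
        ← zpow_mul, ← zpow_mul (A.valuation z), mul_comm u]
    rw [h3, h1, ← zpow_natCast, ← zpow_mul, ← zpow_add₀ hvy]
    have h4 : (m : ℤ) * u + v * (p : ℤ) = 1 := by linarith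
    rw [h4, zpow_one]
  by_cases hwA : w ∈ A
  · have hle : ∀ j, A.valuation (w - algebraMap k K (b j)) ≤ 1 := fun j =>
      (A.valuation_le_one_iff _).2 (sub_mem hwA (hA _))
    rcases (hle j).lt_or_eq with h1 | h1
    · -- the other factors are units
      have h2 : ∀ i, i ≠ j → A.valuation (w - algebraMap k K (b i)) = 1 := by
        intro i hij
        have h3 : w - algebraMap k K (b i) =
            (w - algebraMap k K (b j)) + algebraMap k K (b j - b i) := by
          rw [map_sub]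
          ring
        have h4 := hcv1 (b j - b i) (sub_ne_zero.2 fun h => hij (hb h).symm)
        rw [h3, Valuation.map_add_eq_of_lt_right _ (by rw [h4]; exact h1), h4]
      obtain ⟨i, hi⟩ := hcov j
      obtain ⟨h, hh, hv⟩ := hroot (w - algebraMap k K (b j)) (z i) (a i j)
        (sub_ne_zero.2 (hw j)) (hz0 i) hi (by
          rw [hz i, map_mul, hcv1 _ (hc i), one_mul, map_prod,
            Finset.prod_eq_single_of_mem j (mem_univ j) fun l _ hl => by
              rw [map_pow, h2 l hl, one_pow], map_pow])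
      exact ⟨h, hh, Or.inl ⟨hwA, hv⟩⟩
    · exact ⟨1, one_ne_zero, Or.inl ⟨hwA, by simp [h1]⟩⟩
  · have hw1 : 1 < A.valuation w := by
      rw [← not_le, A.valuation_le_one_iff]
      exact hwA
    refine ⟨1, one_ne_zero, Or.inr ⟨hwA, ?_⟩⟩
    rw [one_pow, mul_one, sub_eq_add_neg, ← map_neg (algebraMap k K)]
    exact Valuation.map_add_eq_of_lt_left _ ((hcv _).trans_lt hw1)

end

section
variable {k K Ω ι κ : Type*} [Field k] [CharZero k] [Field K] [Algebra k K] [Field Ω]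
  [Algebra k Ω] [Algebra K Ω] [IsScalarTower k K Ω] [IsAlgClosure K Ω] [Fintype κ]

/-- The twists of a section: `D j * Y j ^ p = (w - b j) / (w - b j₀)`. -/
theorem pair_twists {p : ℕ} (hp : p.Prime) {b : κ → k} (hb : Function.Injective b) {w : K}
    (hw : ∀ j, w ≠ algebraMap k K (b j)) {c : ι → k} (hc : ∀ i, c i ≠ 0)
    {a : ι → κ → ℕ} {z : ι → K}
    (hz : ∀ i, z i ^ p = algebraMap k K (c i) * ∏ j, (w - algebraMap k K (b j)) ^ a i j)
    (hcov : ∀ j, ∃ i, ¬ p ∣ a i j) (j₀ : κ)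
    {s : AbsGal k Ω →* PiOne k K Ω} (hs : IsSection k K Ω s) :
    ∃ (D : κ → k) (Y : κ → maxUnramified k K Ω), (∀ j, D j ≠ 0) ∧ (∀ j g, s g (Y j) = Y j) ∧
      ∀ j, algebraMap k Ω (D j) * (Y j : Ω) ^ p =
        algebraMap K Ω ((w - algebraMap k K (b j)) / (w - algebraMap k K (b j₀))) := by
  classical
  obtain ⟨d, Y, hd, hYs, hY⟩ := exists_twists_pow hp.ne_zero
    (pair_ram hp hb hw hc hz hcov) hs j₀
  refine ⟨fun j => (d j)⁻¹, fun j => Y j, fun j => inv_ne_zero (hd _),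
    fun j g => hYs _ g, fun j => ?_⟩
  have h1 := hY j
  rw [form_one, form_one] at h1
  have h2 : algebraMap k Ω (d j) ≠ 0 := (map_ne_zero _).2 (hd _)
  rw [h1, map_inv₀]
  field_simp

omit [Fintype κ] in
/-- The Steinberg relations. -/
theorem pair_relation {p : ℕ} (hp : p.Prime) (hp2 : p ≠ 2) {ζ : k} (hζ : IsPrimitiveRoot ζ p)
    {s : AbsGal k Ω →* PiOne k K Ω} (hs : IsSection k K Ω s) {α β : k}
    {X Y : maxUnramified k K Ω} (hX0 : X ≠ 0) (hY0 : Y ≠ 0) (hX : ∀ g, s g X = X)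
    (hY : ∀ g, s g Y = Y)
    (h : algebraMap k Ω α * (X : Ω) ^ p + algebraMap k Ω β * (Y : Ω) ^ p = 1) :
    ¬ SymbolNonzero p 1 α β := by
  intro hsym
  have hodd : Even (1 * (p - 1)) := by
    rw [one_mul]
    have h1 := hp.eq_two_or_odd'.resolve_left hp2
    exact Nat.Odd.sub_odd h1 odd_one
  refine kummer_fixed hs hζ hodd hsym (x := 1) (fun g => map_one _) hX hY hX0 hY0 ?_
  have h1 : ((1 : maxUnramified k K Ω) : Ω) = 1 := rfl
  rw [h1, one_pow]
  linear_combination -h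

/-- The relations for `p = 2`, if three of the twists agree up to squares. -/
theorem pair_relation_two {b : κ → k} (hb : Function.Injective b) {w : K}
    (hw : ∀ j, w ≠ algebraMap k K (b j)) {c : ι → k} (hc : ∀ i, c i ≠ 0)
    {a : ι → κ → ℕ} {z : ι → K}
    (hz : ∀ i, z i ^ 2 = algebraMap k K (c i) * ∏ j, (w - algebraMap k K (b j)) ^ a i j)
    (hcov : ∀ j, ∃ i, ¬ 2 ∣ a i j) {j₀ : κ}
    {s : AbsGal k Ω →* PiOne k K Ω} (hs : IsSection k K Ω s) {D : κ → k}
    {Y : κ → maxUnramified k K Ω} (hD : ∀ j, D j ≠ 0) (hYs : ∀ j g, s g (Y j) = Y j)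
    (hY : ∀ j, algebraMap k Ω (D j) * (Y j : Ω) ^ 2 =
        algebraMap K Ω ((w - algebraMap k K (b j)) / (w - algebraMap k K (b j₀))))
    {r t u : κ} (hrt : r ≠ t) (htu : t ≠ u) (hru : r ≠ u) {x y : k} (hx0 : x ≠ 0) (hy0 : y ≠ 0)
    (hx : D r = D u * x ^ 2) (hy : D t = D u * y ^ 2) {i j l : κ} (hij : i ≠ j) (hjl : j ≠ l)
    (hil : i ≠ l) :
    ¬ SymbolNonzero 2 1 (D i / D l * ((b j - b l) / (b j - b i)))
      (D j / D l * ((b i - b l) / (b i - b j))) := by
  have hram := pair_ram Nat.prime_two hb hw hc hz hcov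
  have hne : ∀ i j : κ, i ≠ j → (fun _ : κ => (1 : k)) i * (fun j => -b j) j ≠
      (fun _ : κ => (1 : k)) j * (fun j => -b j) i := by
    intro i j hij h
    simp only [one_mul, neg_inj] at h
    exact hij (hb h).symm
  have hsubb : ∀ i j : κ, i ≠ j → b i - b j ≠ 0 := fun i j hij => sub_ne_zero.2 fun h => hij (hb h)
  have hY' : ∀ j, (Y j : Ω) ^ 2 = algebraMap k Ω ((D j)⁻¹) *
      algebraMap K Ω (form (fun _ => 1) (fun j => -b j) w j /
        form (fun _ => 1) (fun j => -b j) w j₀) := by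
    intro j
    have h2 : algebraMap k Ω (D j) ≠ 0 := (map_ne_zero _).2 (hD _)
    rw [form_one, form_one, ← hY j, map_inv₀, inv_mul_cancel_left₀ h2]
  have hpt : ConicPoint (fun _ : κ => (1 : k)) (fun j => -b j) (fun j => (D j)⁻¹) r t u := by
    refine ⟨x⁻¹, y⁻¹, ?_⟩
    have h3 := hD u
    show (1 * -b u - 1 * -b t) * (D t)⁻¹ * (D u)⁻¹ * x⁻¹ ^ 2 +
      (1 * -b r - 1 * -b u) * (D u)⁻¹ * (D r)⁻¹ * y⁻¹ ^ 2 +
      (1 * -b t - 1 * -b r) * (D r)⁻¹ * (D t)⁻¹ = 0
    rw [hx, hy]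
    field_simp
    ring
  obtain ⟨X, Z, hXZ⟩ := forms_conics hne hram hs (d := fun j => (D j)⁻¹)
    (fun j => inv_ne_zero (hD j)) hYs hY' hrt htu hru hpt hij hjl hil
  intro hsym
  have hζ : IsPrimitiveRoot (-1 : k) 2 := IsPrimitiveRoot.neg_one 0 (by norm_num)
  refine symbol_point hζ hsym (x := 1) (y := X) (z := Z) (Or.inl one_ne_zero) ?_
  have h1 := hD i
  have h2 := hD j
  have h3 := hD l
  have h4 := hsubb j i hij.symm
  have h5 : b i - b j = -(b j - b i) := by ring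
  change (1 * -b l - 1 * -b j) * (D j)⁻¹ * (D l)⁻¹ * X ^ 2 +
      (1 * -b i - 1 * -b l) * (D l)⁻¹ * (D i)⁻¹ * Z ^ 2 +
      (1 * -b j - 1 * -b i) * (D i)⁻¹ * (D j)⁻¹ = 0 at hXZ
  rw [h5]
  field_simp at hXZ ⊢
  linear_combination -hXZ

end

end Pool.Agent.Lib.MP_c385f6_ag
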