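import Mathlib
import Pool.Agent.Lib.MP_c385f6_ag.AllP.Twists
import Pool.Agent.Lib.MP_c385f6_ag.AllP.Spread

set_option autoImplicit false

/-!
The data attached to a section of `π₁(X) → Gal_k`, where `X` becomes over a Galois extension
`L / k` a cover of the line by `p`-th roots of products of the `w - t`, `t ∈ T`.
-/

namespace Pool.Agent.Lib.MP_c385f6_ag

open Finset

section
variable {k L K M Ω ι : Type*} [Field k] [CharZero k] [Field L] [Field K] [Field M] [Field Ω]
  [Algebra k L] [Algebra k K] [Algebra k Ω] [Algebra L Ω] [Algebra K Ω] [Algebra K M]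
  [Algebra L M] [Algebra M Ω] [IsScalarTower k K Ω] [IsScalarTower k L Ω] [IsScalarTower K M Ω]
  [IsScalarTower L M Ω] [IsAlgClosure K Ω] [FiniteDimensional k L] [IsGalois k L]

omit [CharZero k] [Field M] [Algebra K M] [Algebra L M] [Algebra M Ω] [IsScalarTower K M Ω]
  [IsScalarTower L M Ω] [IsAlgClosure K Ω] [IsGalois k L] in
/-- `w` is different from all constants. -/
theorem sub_const_ne_zero {w : K} (hw : Transcendental k w) (t : L) :
    algebraMap K Ω w - algebraMap L Ω t ≠ 0 := by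
  intro h
  rw [sub_eq_zero] at h
  apply hw
  have h1 : IsAlgebraic k (algebraMap L Ω t) :=
    (Algebra.IsAlgebraic.isAlgebraic t).algebraMap
  rw [← h] at h1
  exact (isAlgebraic_algebraMap_iff (algebraMap K Ω).injective).1 h1

/-- The data attached to a section. -/
theorem exists_data {p : ℕ} (hp : p.Prime) {ζ : L} (hζ : IsPrimitiveRoot ζ p)
    (hM : IntermediateField.adjoin K (Set.range (algebraMap L M)) = ⊤)
    {T : Finset L} (hT : ∀ g : L ≃ₐ[k] L, ∀ t ∈ T, g t ∈ T)
    (hbig : p = 2 → ∀ D : L → L, (∀ t ∈ T, D t ≠ 0) → ∃ r ∈ T, ∃ t ∈ T, ∃ u ∈ T, r ≠ t ∧ t ≠ u ∧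
      r ≠ u ∧ (∃ x, x ≠ 0 ∧ D r = D u * x ^ 2) ∧ ∃ x, x ≠ 0 ∧ D t = D u * x ^ 2)
    {w : K} (hw : Transcendental k w)
    {c : ι → L} (hc : ∀ i, c i ≠ 0) {a : ι → L → ℕ} {z : ι → M}
    (hz : ∀ i, z i ^ p = algebraMap L M (c i) *
      ∏ t ∈ T, (algebraMap K M w - algebraMap L M t) ^ a i t)
    (hcov : ∀ t ∈ T, ∃ i, ¬ p ∣ a i t) {t₀ : L} (ht₀ : t₀ ∈ T)
    {s : AbsGal k Ω →* PiOne k K Ω} (hs : IsSection k K Ω s) :
    ∃ (D : L → L) (Y : L → maxUnramified k K Ω),
      (∀ t ∈ T, D t ≠ 0) ∧ (∀ t ∈ T, Y t ≠ 0) ∧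
      (∀ t ∈ T, ∀ γ : AbsGal L Ω, s (resAbs k L Ω γ) (Y t) = Y t) ∧
      (∀ t ∈ T, algebraMap L Ω (D t) * (Y t : Ω) ^ p =
        (algebraMap K Ω w - algebraMap L Ω t) / (algebraMap K Ω w - algebraMap L Ω t₀)) ∧
      (∀ r ∈ T, ∀ t ∈ T, ∀ u ∈ T, r ≠ t → t ≠ u → r ≠ u →
        ¬ SymbolNonzero p 1 (D r / D u * ((t - u) / (t - r))) (D t / D u * ((r - u) / (r - t)))) ∧
      ∀ g : L ≃ₐ[k] L, ∀ r ∈ T, ∀ t ∈ T, ∃ e : L, e ≠ 0 ∧
        D (g r) / D (g t) = g (D r / D t) * e ^ p := by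
  classical
  have hacO : IsAlgClosed Ω := IsAlgClosure.isAlgClosed K
  have halgO : Algebra.IsAlgebraic K Ω := IsAlgClosure.isAlgebraic
  have halgM : Algebra.IsAlgebraic M Ω := Algebra.IsAlgebraic.tower_top (K := K) M
  have hclM : IsAlgClosure M Ω := ⟨hacO, halgM⟩
  have hcL : CharZero L := charZero_of_injective_algebraMap (algebraMap k L).injective
  have hacF : IsAlgClosed (algebraicClosure k Ω) := IsAlgClosure.isAlgClosed k
  have hcl : IsAlgClosure k (algebraicClosure k Ω) := inferInstance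
  have hn : Normal k (algebraicClosure k Ω) := IsAlgClosure.normal k _
  have hg : IsGalois k (algebraicClosure k Ω) := {}
  obtain ⟨s', hs', hcomp⟩ := exists_base_section k L K M Ω hM hs
  have hmem := mem_ur_iff_base (k := k) (L := L) (K := K) (M := M) (Ω := Ω) hM
  have hKM : ∀ x : K, algebraMap M Ω (algebraMap K M x) = algebraMap K Ω x := fun x =>
    (IsScalarTower.algebraMap_apply K M Ω x).symm
  have hLM : ∀ x : L, algebraMap M Ω (algebraMap L M x) = algebraMap L Ω x := fun x =>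
    (IsScalarTower.algebraMap_apply L M Ω x).symm
  have hsub : ∀ t : L, algebraMap K Ω w - algebraMap L Ω t ≠ 0 := fun t =>
    sub_const_ne_zero (k := k) hw t
  have hwM : ∀ t : L, algebraMap K M w ≠ algebraMap L M t := by
    intro t h
    apply hsub t
    rw [← hKM, ← hLM, h, sub_self]
  obtain ⟨D₁, Y₁, hD₁, hY₁s, hY₁⟩ := pair_twists (k := L) (K := M) (Ω := Ω) hp
    (b := fun j : T => (j : L)) Subtype.val_injective (w := algebraMap K M w)
    (fun j => hwM j) hc (a := fun i (j : T) => a i j) (z := z)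
    (fun i => by
      rw [hz i]
      congr 1
      exact (Finset.prod_coe_sort T fun t => (algebraMap K M w - algebraMap L M t) ^ a i t).symm)
    (fun j => hcov j j.2) ⟨t₀, ht₀⟩ hs'
  let D : L → L := fun t => if h : t ∈ T then D₁ ⟨t, h⟩ else 1
  let Y : L → maxUnramified k K Ω := fun t => if h : t ∈ T then ⟨Y₁ ⟨t, h⟩, (hmem _).1 (Y₁ ⟨t, h⟩).2⟩
    else 1
  have hD : ∀ (t) (h : t ∈ T), D t = D₁ ⟨t, h⟩ := fun t h => dif_pos h
  have hYv : ∀ (t) (h : t ∈ T), ((Y t : maxUnramified k K Ω) : Ω) = Y₁ ⟨t, h⟩ := by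
    intro t h
    show ((if h : t ∈ T then ⟨Y₁ ⟨t, h⟩, (hmem _).1 (Y₁ ⟨t, h⟩).2⟩
      else 1 : maxUnramified k K Ω) : Ω) = _
    rw [dif_pos h]
  have hDn : ∀ t ∈ T, D t ≠ 0 := fun t ht => by rw [hD t ht]; exact hD₁ _
  have hYeq : ∀ t ∈ T, algebraMap L Ω (D t) * (Y t : Ω) ^ p =
      (algebraMap K Ω w - algebraMap L Ω t) / (algebraMap K Ω w - algebraMap L Ω t₀) := by
    intro t ht
    rw [hD t ht, hYv t ht, hY₁ ⟨t, ht⟩, map_div₀, map_sub, map_sub, hKM, hLM, hLM]
  have hYn : ∀ t ∈ T, Y t ≠ 0 := by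
    intro t ht h
    have h1 := hYeq t ht
    rw [h] at h1
    have h2 : ((0 : maxUnramified k K Ω) : Ω) = 0 := rfl
    rw [h2, zero_pow hp.ne_zero, mul_zero] at h1
    exact div_ne_zero (hsub _) (hsub _) h1.symm
  have hYfix : ∀ t ∈ T, ∀ γ : AbsGal L Ω, s (resAbs k L Ω γ) (Y t) = Y t := by
    intro t ht γ
    apply Subtype.ext
    rw [← hcomp γ (Y₁ ⟨t, ht⟩) (Y t) (hYv t ht).symm, hY₁s, hYv t ht]
  refine ⟨D, Y, hDn, hYn, hYfix, hYeq, ?_, ?_⟩
  · intro r hr t ht u hu hrt htu hru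
    by_cases hp2 : p = 2
    · subst hp2
      obtain ⟨r', hr', t', ht', u', hu', h1, h2, h3, ⟨x, hx0, hx⟩, ⟨y, hy0, hy⟩⟩ := hbig rfl D hDn
      rw [hD r' hr', hD u' hu'] at hx
      rw [hD t' ht', hD u' hu'] at hy
      have h4 := pair_relation_two (k := L) (K := M) (Ω := Ω)
        (b := fun j : T => (j : L)) Subtype.val_injective (w := algebraMap K M w)
        (fun j => hwM j) hc (a := fun i (j : T) => a i j) (z := z)
        (fun i => by
          rw [hz i]
          congr 1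
          exact (Finset.prod_coe_sort T
            fun t => (algebraMap K M w - algebraMap L M t) ^ a i t).symm)
        (fun j => hcov j j.2) (j₀ := ⟨t₀, ht₀⟩) hs' hD₁ hY₁s hY₁
        (r := ⟨r', hr'⟩) (t := ⟨t', ht'⟩) (u := ⟨u', hu'⟩) (fun h => h1 (congrArg Subtype.val h))
        (fun h => h2 (congrArg Subtype.val h)) (fun h => h3 (congrArg Subtype.val h)) hx0 hy0 hx hy
        (i := ⟨r, hr⟩) (j := ⟨t, ht⟩) (l := ⟨u, hu⟩) (fun h => hrt (congrArg Subtype.val h))
        (fun h => htu (congrArg Subtype.val h)) (fun h => hru (congrArg Subtype.val h))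
      rw [hD r hr, hD t ht, hD u hu]
      exact h4
    have hY₁n : ∀ (t) (ht : t ∈ T), Y₁ ⟨t, ht⟩ ≠ 0 := by
      intro t ht h
      apply hYn t ht
      apply Subtype.ext
      rw [hYv t ht, h]
      rfl
    refine pair_relation (k := L) (K := M) (Ω := Ω) hp hp2 hζ hs'
      (X := Y₁ ⟨r, hr⟩ / Y₁ ⟨u, hu⟩) (Y := Y₁ ⟨t, ht⟩ / Y₁ ⟨u, hu⟩)
      (div_ne_zero (hY₁n _ _) (hY₁n _ _)) (div_ne_zero (hY₁n _ _) (hY₁n _ _))
      (fun g => by rw [map_div₀, hY₁s, hY₁s]) (fun g => by rw [map_div₀, hY₁s, hY₁s]) ?_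
    have e1 : ((Y₁ ⟨r, hr⟩ / Y₁ ⟨u, hu⟩ : maxUnramified L M Ω) : Ω) = (Y r : Ω) / (Y u : Ω) := by
      rw [hYv r hr, hYv u hu]
      rfl
    have e2 : ((Y₁ ⟨t, ht⟩ / Y₁ ⟨u, hu⟩ : maxUnramified L M Ω) : Ω) = (Y t : Ω) / (Y u : Ω) := by
      rw [hYv t ht, hYv u hu]
      rfl
    rw [e1, e2]
    have hDu : algebraMap L Ω (D u) ≠ 0 := (map_ne_zero _).2 (hDn u hu)
    have hYu : (Y u : Ω) ≠ 0 := fun h => hYn u hu (Subtype.ext h)
    have hr' := hYeq r hr
    have ht' := hYeq t ht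
    have hu' := hYeq u hu
    have n0 := hsub t₀
    have nu := hsub u
    have q1 : algebraMap L Ω (D r) * (Y r : Ω) ^ p / (algebraMap L Ω (D u) * (Y u : Ω) ^ p) =
        (algebraMap K Ω w - algebraMap L Ω r) / (algebraMap K Ω w - algebraMap L Ω u) := by
      rw [hr', hu']
      field_simp
    have q2 : algebraMap L Ω (D t) * (Y t : Ω) ^ p / (algebraMap L Ω (D u) * (Y u : Ω) ^ p) =
        (algebraMap K Ω w - algebraMap L Ω t) / (algebraMap K Ω w - algebraMap L Ω u) := by
      rw [ht', hu']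
      field_simp
    have htr : algebraMap L Ω t - algebraMap L Ω r ≠ 0 := by
      rw [← map_sub]
      exact (map_ne_zero _).2 (sub_ne_zero.2 hrt.symm)
    have hrt' : algebraMap L Ω r - algebraMap L Ω t ≠ 0 := by
      rw [← map_sub]
      exact (map_ne_zero _).2 (sub_ne_zero.2 hrt)
    have f1 : algebraMap L Ω (D r / D u * ((t - u) / (t - r))) * ((Y r : Ω) / (Y u : Ω)) ^ p =
        (algebraMap K Ω w - algebraMap L Ω r) / (algebraMap K Ω w - algebraMap L Ω u) *
          ((algebraMap L Ω t - algebraMap L Ω u) / (algebraMap L Ω t - algebraMap L Ω r)) := by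
      rw [← q1, map_mul, map_div₀, map_div₀, map_sub, map_sub, div_pow]
      field_simp
    have f2 : algebraMap L Ω (D t / D u * ((r - u) / (r - t))) * ((Y t : Ω) / (Y u : Ω)) ^ p =
        (algebraMap K Ω w - algebraMap L Ω t) / (algebraMap K Ω w - algebraMap L Ω u) *
          ((algebraMap L Ω r - algebraMap L Ω u) / (algebraMap L Ω r - algebraMap L Ω t)) := by
      rw [← q2, map_mul, map_div₀, map_div₀, map_sub, map_sub, div_pow]
      field_simp
    rw [f1, f2]
    have hneg : algebraMap L Ω r - algebraMap L Ω t = -(algebraMap L Ω t - algebraMap L Ω r) := by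
      ring
    rw [hneg]
    field_simp
    ring
  · intro g r hr t ht
    obtain ⟨h, hh⟩ := exists_lift (embL k L Ω) g
    -- the quotient of two roots
    have hgr := hT g r hr
    have hgt := hT g t ht
    let E : maxUnramified k K Ω := s h (Y r / Y t) / (Y (g r) / Y (g t))
    have hEfix : ∀ γ : AbsGal L Ω, s (resAbs k L Ω γ) E = E := by
      intro γ
      have h1 := section_conj (s := s) hh (Y := Y r / Y t)
        (fun γ => by rw [map_div₀, hYfix r hr, hYfix t ht]) γ
      have h2 : s (resAbs k L Ω γ) (Y (g r) / Y (g t)) = Y (g r) / Y (g t) := by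
        rw [map_div₀, hYfix _ hgr, hYfix _ hgt]
      exact (map_div₀ (s (resAbs k L Ω γ)) _ _).trans (congrArg₂ (· / ·) h1 h2)
    have hcst : ∀ (x : L) (z : maxUnramified k K Ω), (z : Ω) = algebraMap L Ω x →
        ((s h z : maxUnramified k K Ω) : Ω) = algebraMap L Ω (g x) := by
      intro x z hz
      rw [hs.restrict h (embL k L Ω x) z hz, hh]
      rfl
    -- powers
    have hq : ∀ r ∈ T, ∀ t ∈ T, algebraMap L Ω (D r / D t) * ((Y r / Y t : maxUnramified k K Ω) : Ω) ^ p =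
        (algebraMap K Ω w - algebraMap L Ω r) / (algebraMap K Ω w - algebraMap L Ω t) := by
      intro r hr t ht
      have e1 : ((Y r / Y t : maxUnramified k K Ω) : Ω) = (Y r : Ω) / (Y t : Ω) := rfl
      have n0 := hsub t₀
      have nt := hsub t
      have hDt : algebraMap L Ω (D t) ≠ 0 := (map_ne_zero _).2 (hDn t ht)
      have hYt : (Y t : Ω) ≠ 0 := fun h => hYn t ht (Subtype.ext h)
      have h1 : algebraMap L Ω (D r) * (Y r : Ω) ^ p / (algebraMap L Ω (D t) * (Y t : Ω) ^ p) =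
          (algebraMap K Ω w - algebraMap L Ω r) / (algebraMap K Ω w - algebraMap L Ω t) := by
        rw [hYeq r hr, hYeq t ht]
        field_simp
      rw [e1, ← h1, map_div₀, div_pow]
      field_simp
    have hsh : algebraMap L Ω (g (D r / D t)) * ((s h (Y r / Y t) : maxUnramified k K Ω) : Ω) ^ p =
        (algebraMap K Ω w - algebraMap L Ω (g r)) / (algebraMap K Ω w - algebraMap L Ω (g t)) := by
      let cD : maxUnramified k K Ω := constHom k K Ω (embL k L Ω (D r / D t))
      let cr : maxUnramified k K Ω := constHom k K Ω (embL k L Ω r)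
      let ct : maxUnramified k K Ω := constHom k K Ω (embL k L Ω t)
      have h2 : cD * (Y r / Y t) ^ p = (algebraMap K _ w - cr) / (algebraMap K _ w - ct) :=
        Subtype.ext (hq r hr t ht)
      have h3 : s h cD * (s h (Y r / Y t)) ^ p =
          (algebraMap K _ w - s h cr) / (algebraMap K _ w - s h ct) := by
        have e1 := congrArg (s h) h2
        rw [map_mul, map_pow, map_div₀ (s h) (algebraMap K _ w - cr), map_sub, map_sub,
          AlgEquiv.commutes] at e1
        exact e1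
      have h4 := congrArg (fun z : maxUnramified k K Ω => (z : Ω)) h3
      have h5 := hcst (D r / D t) cD rfl
      have h6 := hcst r cr rfl
      have h7 := hcst t ct rfl
      rw [← h5, ← h6, ← h7]
      exact h4
    have hgq := hq (g r) hgr (g t) hgt
    have hRn : ((Y (g r) / Y (g t) : maxUnramified k K Ω) : Ω) ≠ 0 := by
      intro h0
      exact div_ne_zero (hYn _ hgr) (hYn _ hgt) (Subtype.ext h0)
    have hSn : ((s h (Y r / Y t) : maxUnramified k K Ω) : Ω) ≠ 0 := by
      intro h0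
      have h1 : s h (Y r / Y t) = 0 := Subtype.ext h0
      rw [map_eq_zero_iff _ (s h).injective] at h1
      exact div_ne_zero (hYn _ hr) (hYn _ ht) h1
    have hE : algebraMap L Ω (D (g r) / D (g t)) = algebraMap L Ω (g (D r / D t)) * (E : Ω) ^ p := by
      have e1 : (E : Ω) = ((s h (Y r / Y t) : maxUnramified k K Ω) : Ω) /
          ((Y (g r) / Y (g t) : maxUnramified k K Ω) : Ω) := rfl
      rw [e1, div_pow, ← mul_div_assoc, hsh, ← hgq]
      field_simp
    -- `E` is a constant of `L`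
    have hE0 : (E : Ω) ≠ 0 := div_ne_zero hSn hRn
    have hDDn : D (g r) / D (g t) ≠ 0 := div_ne_zero (hDn _ hgr) (hDn _ hgt)
    have hgDn : g (D r / D t) ≠ 0 := by
      rw [map_ne_zero_iff _ g.injective]
      exact div_ne_zero (hDn _ hr) (hDn _ ht)
    have halg : (E : Ω) ∈ algebraicClosure L Ω := by
      rw [mem_algebraicClosure_iff]
      refine ⟨Polynomial.X ^ p - Polynomial.C ((D (g r) / D (g t)) / g (D r / D t)),
        (Polynomial.monic_X_pow_sub_C _ hp.ne_zero).ne_zero, ?_⟩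
      rw [map_sub, map_pow, Polynomial.aeval_X, Polynomial.aeval_C, map_div₀, hE]
      have : algebraMap L Ω (g (D r / D t)) ≠ 0 := (map_ne_zero _).2 hgDn
      field_simp
      ring
    obtain ⟨e, he⟩ := fixed_const (k := L) (K := M) hs' (z := ⟨(E : Ω), (hmem _).2 E.2⟩) (by
      intro γ
      apply Subtype.ext
      rw [hcomp γ _ E rfl, hEfix]) halg
    have he' : (E : Ω) = algebraMap L Ω e := he
    refine ⟨e, ?_, ?_⟩
    · rintro rfl
      rw [map_zero] at he'
      exact hE0 he'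
    · apply (algebraMap L Ω).injective
      rw [hE, he', map_mul, map_pow]

end

end Pool.Agent.Lib.MP_c385f6_ag
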