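import Mathlib
import Pool.Agent.Lib.MP_c385f6_ag.AllP.Data

set_option autoImplicit false

/-!
Normalised equivariant roots of `((w - t) / (y - t)) / ((w - t₀) / (y - t₀))`.
-/

namespace Pool.Agent.Lib.MP_c385f6_ag

open Finset

section
variable {k L K Ω : Type*} [Field k] [Field L] [Field K] [Field Ω]
  [Algebra k L] [Algebra k K] [Algebra k Ω] [Algebra L Ω] [Algebra K Ω] [IsScalarTower k K Ω]
  [IsScalarTower k L Ω] [Algebra.IsAlgebraic k L]

variable (k K Ω) in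
/-- `(w - t) / (y - t)`. -/
noncomputable def normU (w : K) (y t : L) : maxUnramified k K Ω :=
  (algebraMap K _ w - constHom k K Ω (embL k L Ω t)) / constHom k K Ω (embL k L Ω (y - t))

theorem coe_normU (w : K) (y t : L) : ((normU k K Ω w y t : maxUnramified k K Ω) : Ω) =
    (algebraMap K Ω w - algebraMap L Ω t) / algebraMap L Ω (y - t) := rfl

theorem section_normU {s : AbsGal k Ω →* PiOne k K Ω} (hs : IsSection k K Ω s) {h : AbsGal k Ω}
    {g : L ≃ₐ[k] L} (hh : ∀ x, h (embL k L Ω x) = embL k L Ω (g x)) (w : K) {y : L}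
    (hy : g y = y) (t : L) : s h (normU k K Ω w y t) = normU k K Ω w y (g t) := by
  have hc : ∀ x : L, s h (constHom k K Ω (embL k L Ω x)) =
      constHom k K Ω (embL k L Ω (g x)) := by
    intro x
    apply Subtype.ext
    rw [hs.restrict h (embL k L Ω x) _ rfl, hh]
    rfl
  rw [normU, normU, map_div₀, map_sub, AlgEquiv.commutes, hc, hc, map_sub, hy]

end

section
variable {k L K Ω : Type*} [Field k] [CharZero k] [Field L] [Field K] [Field Ω]
  [Algebra k L] [Algebra k K] [Algebra k Ω] [Algebra L Ω] [Algebra K Ω] [IsScalarTower k K Ω]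
  [IsScalarTower k L Ω] [IsAlgClosure K Ω] [FiniteDimensional k L] [IsGalois k L]

/-- Normalised equivariant roots. -/
theorem exists_roots {p : ℕ} (hp : p.Prime) (hpG : ¬ p ∣ Module.finrank k L)
    {T : Finset L} (hT : ∀ g : L ≃ₐ[k] L, ∀ t ∈ T, g t ∈ T) {w : K} (hw : Transcendental k w)
    {t₀ : L} (ht₀ : t₀ ∈ T) {s : AbsGal k Ω →* PiOne k K Ω} (hs : IsSection k K Ω s) {D : L → L}
    {Y : L → maxUnramified k K Ω} (hY0 : ∀ t ∈ T, Y t ≠ 0)
    (hYfix : ∀ t ∈ T, ∀ γ : AbsGal L Ω, s (resAbs k L Ω γ) (Y t) = Y t)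
    (hYeq : ∀ t ∈ T, algebraMap L Ω (D t) * (Y t : Ω) ^ p =
        (algebraMap K Ω w - algebraMap L Ω t) / (algebraMap K Ω w - algebraMap L Ω t₀))
    {y : L} (hy : y ∉ T) (hyG : ∀ g : L ≃ₐ[k] L, g y = y)
    (hval : ∀ t ∈ T, ∃ e : L, e ≠ 0 ∧ D t / D t₀ = (y - t) / (y - t₀) * e ^ p) :
    ∃ W : L → maxUnramified k K Ω, W t₀ = 1 ∧ (∀ t ∈ T, W t ≠ 0) ∧
      (∀ t ∈ T, W t ^ p = normU k K Ω w y t / normU k K Ω w y t₀) ∧
      ∀ (g : L ≃ₐ[k] L) (h : AbsGal k Ω), (∀ x, h (embL k L Ω x) = embL k L Ω (g x)) →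
        ∀ t ∈ T, s h (W t) = W (g t) / W (g t₀) := by
  classical
  have hacF : IsAlgClosed (algebraicClosure k Ω) := by
    have : IsAlgClosed Ω := IsAlgClosure.isAlgClosed K
    exact IsAlgClosure.isAlgClosed k
  have hcl : IsAlgClosure k (algebraicClosure k Ω) := by
    have : IsAlgClosed Ω := IsAlgClosure.isAlgClosed K
    infer_instance
  have hn : Normal k (algebraicClosure k Ω) := IsAlgClosure.normal k _
  have hg : IsGalois k (algebraicClosure k Ω) := {}
  have hsub : ∀ t : L, algebraMap K Ω w - algebraMap L Ω t ≠ 0 := fun t =>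
    sub_const_ne_zero (k := k) hw t
  have hys : ∀ t ∈ T, algebraMap L Ω (y - t) ≠ 0 := by
    intro t ht h
    have h1 := (map_eq_zero _).1 h
    rw [sub_eq_zero] at h1
    rw [h1] at hy
    exact hy ht
  let U : L → maxUnramified k K Ω := normU k K Ω w y
  have hUv : ∀ t, ((U t : maxUnramified k K Ω) : Ω) =
    (algebraMap K Ω w - algebraMap L Ω t) / algebraMap L Ω (y - t) := fun t => rfl
  have hU0 : ∀ t ∈ T, U t ≠ 0 := by
    intro t ht h
    have h1 := congrArg (fun z : maxUnramified k K Ω => (z : Ω)) h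
    exact div_ne_zero (hsub t) (hys t ht) h1
  have hlift : ∀ g : L ≃ₐ[k] L, ∃ h : AbsGal k Ω, ∀ x, h (embL k L Ω x) = embL k L Ω (g x) :=
    fun g => exists_lift (embL k L Ω) g
  choose H hH using hlift
  -- the first choice
  choose! e he0 he using hval
  let Z : L → maxUnramified k K Ω := fun t =>
    constHom k K Ω (embL k L Ω (e t)) * (Y t / Y t₀)
  have hZ0 : ∀ t ∈ T, Z t ≠ 0 := by
    intro t ht
    refine mul_ne_zero ?_ (div_ne_zero (hY0 t ht) (hY0 t₀ ht₀))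
    exact (_root_.map_ne_zero (constHom k K Ω)).2 ((_root_.map_ne_zero (embL k L Ω)).2 (he0 t ht))
  have hZfix : ∀ t ∈ T, ∀ γ : AbsGal L Ω, s (resAbs k L Ω γ) (Z t) = Z t := by
    intro t ht γ
    have h1 : s (resAbs k L Ω γ) (constHom k K Ω (embL k L Ω (e t))) =
        constHom k K Ω (embL k L Ω (e t)) := by
      apply Subtype.ext
      rw [hs.restrict _ (embL k L Ω (e t)) _ rfl,
        resAbs_apply γ (c := embL k L Ω (e t)) (d := algebraMap L _ (e t)) rfl, AlgEquiv.commutes]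
      rfl
    show s (resAbs k L Ω γ) (constHom k K Ω (embL k L Ω (e t)) * (Y t / Y t₀)) = _
    rw [map_mul, map_div₀, h1, hYfix t ht, hYfix t₀ ht₀]
  have hZp : ∀ t ∈ T, Z t ^ p = U t / U t₀ := by
    intro t ht
    apply Subtype.ext
    have e1 : ((Z t ^ p : maxUnramified k K Ω) : Ω) =
        (algebraMap L Ω (e t) * ((Y t : Ω) / (Y t₀ : Ω))) ^ p := rfl
    have e2 : ((U t / U t₀ : maxUnramified k K Ω) : Ω) =
        ((algebraMap K Ω w - algebraMap L Ω t) / algebraMap L Ω (y - t)) /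
        ((algebraMap K Ω w - algebraMap L Ω t₀) / algebraMap L Ω (y - t₀)) := rfl
    rw [e1, e2]
    have hYt : (Y t : Ω) ≠ 0 := fun h => hY0 t ht (Subtype.ext h)
    have hYt₀ : (Y t₀ : Ω) ≠ 0 := fun h => hY0 t₀ ht₀ (Subtype.ext h)
    have q1 := hYeq t ht
    have q0 := hYeq t₀ ht₀
    rw [div_self (hsub t₀)] at q0
    have hD0 : algebraMap L Ω (D t₀) ≠ 0 := by
      intro h
      rw [h, zero_mul] at q0
      exact zero_ne_one q0
    have hDt : algebraMap L Ω (D t) ≠ 0 := by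
      intro h
      rw [h, zero_mul] at q1
      exact div_ne_zero (hsub t) (hsub t₀) q1.symm
    have q2 := congrArg (algebraMap L Ω) (he t ht)
    rw [map_div₀, map_mul, map_div₀, map_pow] at q2
    have hy1 := hys t ht
    have hy0 := hys t₀ ht₀
    have hw0 := hsub t₀
    have r1 : (Y t : Ω) ^ p = (algebraMap K Ω w - algebraMap L Ω t) /
        (algebraMap K Ω w - algebraMap L Ω t₀) / algebraMap L Ω (D t) := by
      rw [← q1]
      field_simp
    have r0 : (Y t₀ : Ω) ^ p = 1 / algebraMap L Ω (D t₀) := by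
      rw [← q0]
      field_simp
    have r2 : algebraMap L Ω (e t) ^ p = algebraMap L Ω (D t) / algebraMap L Ω (D t₀) *
        (algebraMap L Ω (y - t₀) / algebraMap L Ω (y - t)) := by
      rw [q2]
      field_simp
    rw [mul_pow, div_pow, r1, r0, r2]
    field_simp
  -- averaging
  let G := L ≃ₐ[k] L
  let n := Fintype.card G
  have hnG : n = Module.finrank k L := by
    rw [← IsGalois.card_aut_eq_finrank k L, Nat.card_eq_fintype_card]
  obtain ⟨m, l, hml⟩ : ∃ m l : ℕ, n * m = 1 + p * l := by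
    have hcop : Nat.Coprime n p := by
      rw [hnG]
      exact ((Nat.Prime.coprime_iff_not_dvd hp).2 hpG).symm
    obtain ⟨m, hm'⟩ := Nat.exists_mul_mod_eq_one_of_coprime hcop hp.one_lt
    refine ⟨m, n * m / p, ?_⟩
    have := Nat.div_add_mod (n * m) p
    omega
  have hgT : ∀ (g : G), ∀ t ∈ T, g⁻¹ t ∈ T := fun g t ht => hT _ t ht
  let Q : G → L → maxUnramified k K Ω := fun g t => s (H g) (Z (g⁻¹ t) / Z (g⁻¹ t₀))
  have hQ0 : ∀ g, ∀ t ∈ T, Q g t ≠ 0 := by
    intro g t ht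
    show s (H g) (Z (g⁻¹ t) / Z (g⁻¹ t₀)) ≠ 0
    rw [map_ne_zero_iff _ (s (H g)).injective]
    exact div_ne_zero (hZ0 _ (hgT g t ht)) (hZ0 _ (hgT g t₀ ht₀))
  have hgg : ∀ (g : G) (t : L), g (g⁻¹ t) = t := by
    intro g t
    show (g * g⁻¹) t = t
    rw [mul_inv_cancel]
    rfl
  have hUs : ∀ (g : G) (t : L), s (H g) (U t) = U (g t) := fun g t =>
    section_normU hs (hH g) w (hyG g) t
  have hQp : ∀ g, ∀ t ∈ T, Q g t ^ p = U t / U t₀ := by
    intro g t ht
    have h1 : (Z (g⁻¹ t) / Z (g⁻¹ t₀)) ^ p = U (g⁻¹ t) / U (g⁻¹ t₀) := by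
      rw [div_pow, hZp _ (hgT g t ht), hZp _ (hgT g t₀ ht₀)]
      have := hU0 t₀ ht₀
      have := hU0 _ (hgT g t₀ ht₀)
      field_simp
    show (s (H g) (Z (g⁻¹ t) / Z (g⁻¹ t₀))) ^ p = _
    rw [← map_pow, h1, map_div₀, hUs, hUs, hgg, hgg]
  let P : L → maxUnramified k K Ω := fun t => ∏ g : G, Q g t
  have hP0 : ∀ t ∈ T, P t ≠ 0 := fun t ht => Finset.prod_ne_zero_iff.2 fun g _ => hQ0 g t ht
  have hPp : ∀ t ∈ T, P t ^ p = (U t / U t₀) ^ n := by
    intro t ht
    show (∏ g : G, Q g t) ^ p = _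
    rw [← Finset.prod_pow, Finset.prod_congr rfl fun g _ => hQp g t ht, Finset.prod_const,
      Finset.card_univ]
  have hUU0 : ∀ t ∈ T, U t / U t₀ ≠ 0 := fun t ht => div_ne_zero (hU0 t ht) (hU0 t₀ ht₀)
  have hPt₀ : P t₀ = 1 := by
    refine Finset.prod_eq_one fun g _ => ?_
    show s (H g) (Z (g⁻¹ t₀) / Z (g⁻¹ t₀)) = 1
    rw [div_self (hZ0 _ (hgT g t₀ ht₀)), map_one]
  refine ⟨fun t => P t ^ m / (U t / U t₀) ^ l, ?_, ?_, ?_, ?_⟩
  · show P t₀ ^ m / (U t₀ / U t₀) ^ l = 1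
    rw [hPt₀, div_self (hU0 t₀ ht₀), one_pow, one_pow, div_one]
  · intro t ht
    exact div_ne_zero (pow_ne_zero _ (hP0 t ht)) (pow_ne_zero _ (hUU0 t ht))
  · intro t ht
    show (P t ^ m / (U t / U t₀) ^ l) ^ p = U t / U t₀
    rw [div_pow, ← pow_mul, mul_comm m p, pow_mul, hPp t ht, ← pow_mul, hml, ← pow_mul,
      mul_comm l p, pow_add, pow_one, mul_div_assoc, div_self (pow_ne_zero _ (hUU0 t ht)), mul_one]
  · intro g' h hh t ht
    have hg't := hT g' t ht
    have hg't₀ := hT g' t₀ ht₀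
    -- the product
    have hPs : s h (P t) = P (g' t) / P (g' t₀) := by
      have h1 : s h (P t) = ∏ g : G, s (H (g' * g)) (Z (g⁻¹ t) / Z (g⁻¹ t₀)) := by
        show s h (∏ g : G, s (H g) (Z (g⁻¹ t) / Z (g⁻¹ t₀))) = _
        rw [map_prod]
        refine Finset.prod_congr rfl fun g _ => ?_
        rw [← AlgEquiv.mul_apply, ← map_mul]
        refine section_congr (g := g' * g) ?_ (hH _) ?_
        · intro x
          rw [AlgEquiv.mul_apply, hH, hh]
          rfl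
        · intro γ
          rw [map_div₀, hZfix _ (hgT g t ht), hZfix _ (hgT g t₀ ht₀)]
      have h2 : ∏ g : G, s (H (g' * g)) (Z (g⁻¹ t) / Z (g⁻¹ t₀)) =
          ∏ g : G, s (H g) (Z (g⁻¹ (g' t)) / Z (g⁻¹ (g' t₀))) := by
        refine Fintype.prod_equiv (Equiv.mulLeft g') _ _ fun g => ?_
        show _ = s (H (g' * g)) (Z ((g' * g)⁻¹ (g' t)) / Z ((g' * g)⁻¹ (g' t₀)))
        have h3 : ∀ u : L, (g' * g)⁻¹ (g' u) = g⁻¹ u := by
          intro u
          show ((g' * g)⁻¹ * g') u = g⁻¹ u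
          rw [mul_inv_rev, inv_mul_cancel_right]
        rw [h3, h3]
      rw [h1, h2]
      show _ = (∏ g : G, s (H g) (Z (g⁻¹ (g' t)) / Z (g⁻¹ t₀))) /
        ∏ g : G, s (H g) (Z (g⁻¹ (g' t₀)) / Z (g⁻¹ t₀))
      rw [← Finset.prod_div_distrib]
      refine Finset.prod_congr rfl fun g _ => ?_
      rw [← map_div₀]
      congr 1
      have := hZ0 _ (hgT g _ hg't₀)
      have := hZ0 _ (hgT g _ ht₀)
      field_simp
    have hUs' : ∀ t : L, s h (U t) = U (g' t) := fun t => section_normU hs hh w (hyG g') t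
    show s h (P t ^ m / (U t / U t₀) ^ l) = (P (g' t) ^ m / (U (g' t) / U t₀) ^ l) /
      (P (g' t₀) ^ m / (U (g' t₀) / U t₀) ^ l)
    rw [map_div₀, map_pow, map_pow, map_div₀, hPs, hUs', hUs', div_pow, div_pow, div_pow, div_pow]
    have a1 := hP0 _ hg't₀
    have a2 := hU0 _ hg't
    have a3 := hU0 _ hg't₀
    have a4 := hU0 _ ht₀
    field_simp

end

end Pool.Agent.Lib.MP_c385f6_ag
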