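import Mathlib
import Pool.Agent.Lib.MP_c385f6_ag.SeriesPlace

set_option autoImplicit false

/-!
Homomorphisms to fields of Laurent series with prescribed values on the Kummer generators
`Y t ^ p = (w - t) / (y - t)`.
-/

namespace Pool.Agent.Lib.MP_c385f6_ag

open IntermediateField

/-- Power series inside the algebraic closure of the field of Laurent series. -/
noncomputable def ser (F : Type*) [Field F] : PowerSeries F →+* AlgebraicClosure (LaurentSeries F) :=
  (algebraMap (LaurentSeries F) (AlgebraicClosure (LaurentSeries F))).comp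
    (algebraMap (PowerSeries F) (LaurentSeries F))

theorem ser_injective (F : Type*) [Field F] : Function.Injective (ser F) :=
  (algebraMap (LaurentSeries F) (AlgebraicClosure (LaurentSeries F))).injective.comp
    (IsFractionRing.injective (PowerSeries F) (LaurentSeries F))

/-- A homomorphism with prescribed transcendental value. -/
theorem exists_hom_aux {L F' Ω M : Type*} [Field L] [Field F'] [Algebra L F'] [Field Ω]
    [Algebra L Ω] {w : Ω} (hw : Transcendental L w) [Algebra.IsAlgebraic L⟮w⟯ Ω] {t : F'}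
    (ht : Transcendental L t) [Field M] [IsAlgClosed M] [Algebra F' M] :
    ∃ φ : Ω →+* M, (∀ c : L, φ (algebraMap L Ω c) = algebraMap F' M (algebraMap L F' c)) ∧
      φ w = algebraMap F' M t := by
  let f : L⟮w⟯ →ₐ[L] F' := (L⟮t⟯.val.comp (RatFunc.algEquivOfTranscendental t ht).toAlgHom).comp
    (RatFunc.algEquivOfTranscendental w hw).symm.toAlgHom
  have hfw : f (AdjoinSimple.gen L w) = t := by
    show ((RatFunc.algEquivOfTranscendental t ht ((RatFunc.algEquivOfTranscendental w hw).symm
      (AdjoinSimple.gen L w)) : L⟮t⟯) : F') = t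
    rw [RatFunc.algEquivOfTranscendental_symm_gen, RatFunc.algEquivOfTranscendental_X]
  let _ : Algebra L⟮w⟯ M := ((algebraMap F' M).comp f.toRingHom).toAlgebra
  have hwM : ∀ y : L⟮w⟯, algebraMap L⟮w⟯ M y = algebraMap F' M (f y) := fun y => rfl
  let φ : Ω →ₐ[L⟮w⟯] M := IsAlgClosed.lift
  refine ⟨φ.toRingHom, ?_, ?_⟩
  · intro c
    have h1 := φ.commutes (algebraMap L L⟮w⟯ c)
    rw [hwM, f.commutes] at h1
    exact h1
  · have h1 := φ.commutes (AdjoinSimple.gen L w)
    rw [hwM, hfw] at h1
    exact h1

/-- A homomorphism with `w ↦ x + T`. -/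
theorem exists_hom {L F Ω : Type*} [Field L] [Field F] [Algebra L F] [Field Ω] [Algebra L Ω]
    {w : Ω} (hw : Transcendental L w) [Algebra.IsAlgebraic L⟮w⟯ Ω] (x : F) :
    ∃ φ : Ω →+* AlgebraicClosure (LaurentSeries F),
      (∀ c : L, φ (algebraMap L Ω c) = ser F (PowerSeries.C (algebraMap L F c))) ∧
      φ w = ser F (PowerSeries.C x + PowerSeries.X) := by
  have hqk : ∀ c : F, algebraMap (PowerSeries F) (LaurentSeries F) (PowerSeries.C c) =
      algebraMap F (LaurentSeries F) c := series_const
  let alg : Algebra L (LaurentSeries F) :=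
    ((algebraMap F (LaurentSeries F)).comp (algebraMap L F)).toAlgebra
  have ht : @Transcendental L (LaurentSeries F) _ _ alg
      (algebraMap (PowerSeries F) (LaurentSeries F) (PowerSeries.C x + PowerSeries.X)) := by
    rintro ⟨P, hP, h⟩
    apply transcendental_T (k := F)
    refine ⟨(P.map (algebraMap L F)).comp (Polynomial.X + Polynomial.C x), ?_, ?_⟩
    · intro h0
      have h1 : P.map (algebraMap L F) = 0 := by
        rw [Polynomial.comp_eq_zero_iff] at h0
        rcases h0 with h0 | ⟨_, h0⟩
        · exact h0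
        · exfalso
          have h2 := congrArg (Polynomial.coeff · 1) h0
          simp at h2
      exact hP ((Polynomial.map_eq_zero _).1 h1)
    · rw [Polynomial.aeval_comp, map_add, Polynomial.aeval_X, Polynomial.aeval_C, ← hqk, ← map_add,
        add_comm, Polynomial.aeval_def, Polynomial.eval₂_map]
      exact h
  obtain ⟨φ, h1, h2⟩ := @exists_hom_aux L (LaurentSeries F) Ω
    (AlgebraicClosure (LaurentSeries F)) _ _ alg _ _ w hw _ _ ht _ _ _
  refine ⟨φ, fun c => ?_, h2⟩
  rw [h1]
  show algebraMap _ _ (algebraMap F (LaurentSeries F) (algebraMap L F c)) = _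
  rw [← hqk]
  rfl

/-- `T / c` is not a `p`-th power of a Laurent series. -/
theorem T_not_pow {F : Type*} [Field F] {p : ℕ} (hp : 2 ≤ p) {c : F} (hc : c ≠ 0)
    (f : LaurentSeries F)
    (hf : algebraMap (PowerSeries F) (LaurentSeries F) (PowerSeries.C c) * f ^ p =
      algebraMap (PowerSeries F) (LaurentSeries F) PowerSeries.X) : False := by
  have hinj := IsFractionRing.injective (PowerSeries F) (LaurentSeries F)
  have hX : Prime (PowerSeries.X : PowerSeries F) := PowerSeries.X_prime
  have hcu : IsUnit (PowerSeries.C c : PowerSeries F) := (isUnit_iff_ne_zero.2 hc).map _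
  rcases ValuationRing.isInteger_or_isInteger (PowerSeries F) f with ⟨g, hg⟩ | ⟨g, hg⟩
  · rw [← hg, ← map_pow, ← map_mul] at hf
    have h1 := hinj hf
    have h2 : (PowerSeries.X : PowerSeries F) ∣ g ^ p := by
      have : (PowerSeries.X : PowerSeries F) ∣ PowerSeries.C c * g ^ p := by rw [h1]
      exact (hcu.dvd_mul_left).1 this
    have h3 := hX.dvd_of_dvd_pow h2
    obtain ⟨g', rfl⟩ := h3
    obtain ⟨m, rfl⟩ := Nat.exists_eq_add_of_le hp
    have h4 : PowerSeries.X * (PowerSeries.X * (PowerSeries.C c * PowerSeries.X ^ m *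
        g' ^ (2 + m))) = PowerSeries.X * (1 : PowerSeries F) := by
      rw [mul_one]
      conv_rhs => rw [← h1]
      ring
    have h5 := mul_left_cancel₀ PowerSeries.X_ne_zero h4
    exact hX.not_isUnit (IsUnit.of_mul_eq_one _ h5)
  · have hf0 : f ≠ 0 := by
      rintro rfl
      rw [zero_pow (by omega), mul_zero] at hf
      exact PowerSeries.X_ne_zero (hinj (by rw [map_zero]; exact hf.symm))
    have h1 : algebraMap (PowerSeries F) (LaurentSeries F) (PowerSeries.X * g ^ p) =
        algebraMap (PowerSeries F) (LaurentSeries F) (PowerSeries.C c) := by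
      rw [map_mul, map_pow, hg, ← hf, inv_pow]
      field_simp
    have h2 := hinj h1
    have h3 : IsUnit (PowerSeries.X : PowerSeries F) := by
      rw [← h2] at hcu
      exact isUnit_of_mul_isUnit_left hcu
    exact hX.not_isUnit h3

section
variable {F : Type*} [Field F] [CharZero F]

variable (F) in
/-- The series of `(1 + T / a) ^ (1 / p)`. -/
noncomputable def rootSer (p : ℕ) (a : F) : PowerSeries F :=
  PowerSeries.rescale a⁻¹ (PowerSeries.binomialSeries F (1 / (p : ℚ)))

theorem binomialSeries_pow (r : ℚ) (n : ℕ) :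
    (PowerSeries.binomialSeries F r) ^ n = PowerSeries.binomialSeries F (n * r) := by
  induction n with
  | zero => simp
  | succ n ih =>
    rw [pow_succ, ih, ← PowerSeries.binomialSeries_add]
    congr 1
    push_cast
    ring

theorem rootSer_pow {p : ℕ} (hp : p ≠ 0) {a : F} (ha : a ≠ 0) :
    PowerSeries.C a * rootSer F p a ^ p = PowerSeries.C a + PowerSeries.X := by
  have h1 : (PowerSeries.binomialSeries F (1 / (p : ℚ))) ^ p = 1 + PowerSeries.X := by
    rw [binomialSeries_pow, mul_one_div_cancel (Nat.cast_ne_zero.2 hp)]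
    have h2 := PowerSeries.binomialSeries_nat (R := ℚ) (A := F) 1
    rw [Nat.cast_one, pow_one] at h2
    exact h2
  rw [rootSer, ← map_pow, h1, map_add, map_one, PowerSeries.rescale_X, mul_add, mul_one,
    ← mul_assoc, ← map_mul, mul_inv_cancel₀ ha, map_one, one_mul]

theorem rootSer_map {F' : Type*} [Field F'] [CharZero F'] (φ : F →+* F') (p : ℕ) (a : F) :
    (rootSer F p a).map φ = rootSer F' p (φ a) := by
  rw [rootSer, ← PowerSeries.rescale_map, map_inv₀, rootSer]
  congr 1
  ext n
  rw [PowerSeries.coeff_map, PowerSeries.binomialSeries_coeff, PowerSeries.binomialSeries_coeff,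
    map_rat_smul, map_one]

theorem rootSer_ne_zero {p : ℕ} (hp : p ≠ 0) {a : F} (ha : a ≠ 0) : rootSer F p a ≠ 0 := by
  intro h
  have h1 := rootSer_pow (F := F) hp ha
  rw [h, zero_pow hp, mul_zero] at h1
  have h2 := congrArg (PowerSeries.coeff 1) h1
  simp at h2

omit [CharZero F] in
/-- Roots of powers differ by roots of unity. -/
theorem root_of_pow_eq {p : ℕ} [NeZero p] {ζ : F} (hζ : IsPrimitiveRoot ζ p)
    {v f : AlgebraicClosure (LaurentSeries F)} (h : v ^ p = f ^ p) (hf : f ≠ 0) :
    ∃ i, v = (ser F (PowerSeries.C ζ)) ^ i * f := by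
  have hζ' : IsPrimitiveRoot (ser F (PowerSeries.C ζ)) p :=
    (hζ.map_of_injective (f := (PowerSeries.C : F →+* PowerSeries F))
      PowerSeries.C_injective).map_of_injective (f := ser F) (ser_injective F)
  have h1 : (v / f) ^ p = 1 := by
    rw [div_pow, h, div_self (pow_ne_zero _ hf)]
  obtain ⟨i, _, hi⟩ := hζ'.eq_pow_of_pow_eq_one h1
  refine ⟨i, ?_⟩
  rw [hi]
  field_simp

end

end Pool.Agent.Lib.MP_c385f6_ag
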