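import Mathlib
import Pool.Agent.Lib.MP_c385f6_ag.AllP.SeriesHom

set_option autoImplicit false

/-!
Independence of the Kummer generators `((w - t) / (y - t)) / ((w - t₀) / (y - t₀))` and a
homomorphism to Laurent series with prescribed values of their roots.
-/

namespace Pool.Agent.Lib.MP_c385f6_ag

open IntermediateField

theorem indep_aux {M : Type*} [Field M] {p : ℕ} {a b c d : M} (ha : a ≠ 0) (hc : c ≠ 0)
    (hd : d ≠ 0) : a * (b / a / (c ^ p / d ^ p) * (c / d) ^ p) = b := by
  rw [div_pow]
  field_simp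

section
variable {L Ω : Type*} [Field L] [CharZero L] [Field Ω] [Algebra L Ω] {w : Ω}
  (hw : Transcendental L w) [Algebra.IsAlgebraic L⟮w⟯ Ω] {p : ℕ} (hp : p.Prime)
  {T : Finset L} {t₀ : L} (ht₀ : t₀ ∈ T) {y : L} (hy : y ∉ T) {W : L → Ω}
  (hW : ∀ t ∈ T, W t ^ p = ((w - algebraMap L Ω t) / algebraMap L Ω (y - t)) /
    ((w - algebraMap L Ω t₀) / algebraMap L Ω (y - t₀)))

omit [CharZero L] [Algebra.IsAlgebraic L⟮w⟯ Ω] in
/-- The elements with values in Laurent series. -/
theorem mem_laurent {M F : Type*} [Field M] [Field F] [Algebra (LaurentSeries F) M] (φ : Ω →+* M)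
    {S : Set Ω} (hL : ∀ c : L, ∃ f, φ (algebraMap L Ω c) = algebraMap (LaurentSeries F) M f)
    (hwφ : ∃ f, φ w = algebraMap (LaurentSeries F) M f)
    (hS : ∀ v ∈ S, ∃ f, φ v = algebraMap (LaurentSeries F) M f) {v : Ω}
    (hv : v ∈ adjoin L⟮w⟯ S) : ∃ f, φ v = algebraMap (LaurentSeries F) M f := by
  have hadd : ∀ a b, (∃ f, φ a = algebraMap (LaurentSeries F) M f) →
      (∃ f, φ b = algebraMap (LaurentSeries F) M f) →
      ∃ f, φ (a + b) = algebraMap (LaurentSeries F) M f := by
    rintro a b ⟨g, hg⟩ ⟨h, hh⟩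
    exact ⟨g + h, by rw [map_add, map_add, hg, hh]⟩
  have hmul : ∀ a b, (∃ f, φ a = algebraMap (LaurentSeries F) M f) →
      (∃ f, φ b = algebraMap (LaurentSeries F) M f) →
      ∃ f, φ (a * b) = algebraMap (LaurentSeries F) M f := by
    rintro a b ⟨g, hg⟩ ⟨h, hh⟩
    exact ⟨g * h, by rw [map_mul, map_mul, hg, hh]⟩
  have hinv : ∀ a, (∃ f, φ a = algebraMap (LaurentSeries F) M f) →
      ∃ f, φ a⁻¹ = algebraMap (LaurentSeries F) M f := by
    rintro a ⟨g, hg⟩
    exact ⟨g⁻¹, by rw [map_inv₀, map_inv₀, hg]⟩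
  have hbase : ∀ c ∈ adjoin L {w}, ∃ f, φ c = algebraMap (LaurentSeries F) M f := by
    intro c hc
    induction hc using adjoin_induction with
    | mem y hy => rw [Set.mem_singleton_iff.1 hy]; exact hwφ
    | algebraMap c => exact hL c
    | add a b _ _ ha hb => exact hadd a b ha hb
    | inv a _ ha => exact hinv a ha
    | mul a b _ _ ha hb => exact hmul a b ha hb
  induction hv using adjoin_induction with
  | mem y hy => exact hS y hy
  | algebraMap c => exact hbase c c.2
  | add a b _ _ ha hb => exact hadd a b ha hb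
  | inv a _ ha => exact hinv a ha
  | mul a b _ _ ha hb => exact hmul a b ha hb

include hw hp ht₀ hy hW

/-- Independence. -/
theorem not_mem_adjoin {t : L} (ht : t ∈ T) (htt : t ≠ t₀) :
    W t ∉ adjoin L⟮w⟯ (W '' {s | s ∈ T ∧ s ≠ t}) := by
  classical
  intro hmem
  let F := AlgebraicClosure L
  let q : PowerSeries F →+* LaurentSeries F := algebraMap (PowerSeries F) (LaurentSeries F)
  let M := AlgebraicClosure (LaurentSeries F)
  have hser : ∀ g, ser F g = algebraMap (LaurentSeries F) M (q g) := fun g => rfl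
  have hne : NeZero p := ⟨hp.ne_zero⟩
  have hpF : NeZero (p : F) := ⟨Nat.cast_ne_zero.2 hp.ne_zero⟩
  obtain ⟨ζ, hζ⟩ := HasEnoughRootsOfUnity.exists_primitiveRoot F p
  obtain ⟨φ, hφL, hφw⟩ := exists_hom (F := F) hw (algebraMap L F t)
  have hys : ∀ s ∈ T, y - s ≠ 0 := by
    intro s hs h
    rw [sub_eq_zero] at h
    rw [h] at hy
    exact hy hs
  -- the value of `w - s`
  have hval : ∀ s : L, φ (w - algebraMap L Ω s) =
      ser F (PowerSeries.C (algebraMap L F (t - s)) + PowerSeries.X) := by
    intro s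
    rw [map_sub, hφw, hφL, ← map_sub]
    congr 1
    rw [map_sub (algebraMap L F), map_sub]
    ring
  -- it is a `p`-th power for `s ≠ t`
  have hroot : ∀ s : L, s ≠ t → ∃ g : PowerSeries F, g ≠ 0 ∧
      PowerSeries.C (algebraMap L F (t - s)) + PowerSeries.X = g ^ p := by
    intro s hst
    have h0 : algebraMap L F (t - s) ≠ 0 := (_root_.map_ne_zero _).2 (sub_ne_zero.2 hst.symm)
    obtain ⟨r, hr⟩ := IsAlgClosed.exists_pow_nat_eq (algebraMap L F (t - s)) hp.pos
    have hr0 : r ≠ 0 := by
      rintro rfl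
      rw [zero_pow hp.ne_zero] at hr
      exact h0 hr.symm
    refine ⟨PowerSeries.C r * rootSer F p (algebraMap L F (t - s)), mul_ne_zero ?_
      (rootSer_ne_zero hp.ne_zero h0), ?_⟩
    · intro h
      apply hr0
      apply PowerSeries.C_injective
      rw [h, map_zero]
    · rw [mul_pow, ← map_pow, hr, rootSer_pow hp.ne_zero h0]
  have hconst : ∀ s ∈ T, ∃ r : F, r ≠ 0 ∧ algebraMap L F (y - s) = r ^ p := by
    intro s hs
    have h0 : algebraMap L F (y - s) ≠ 0 := (_root_.map_ne_zero _).2 (hys s hs)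
    obtain ⟨r, hr⟩ := IsAlgClosed.exists_pow_nat_eq (algebraMap L F (y - s)) hp.pos
    refine ⟨r, ?_, hr.symm⟩
    rintro rfl
    rw [zero_pow hp.ne_zero] at hr
    exact h0 hr.symm
  have hsn : ∀ g : PowerSeries F, g ≠ 0 → ser F g ≠ 0 := fun g hg =>
    (map_ne_zero_iff _ (ser_injective F)).2 hg
  have hCn : ∀ r : F, r ≠ 0 → (PowerSeries.C r : PowerSeries F) ≠ 0 := by
    intro r hr h
    apply hr
    apply PowerSeries.C_injective
    rw [h, map_zero]
  obtain ⟨g₀, hg₀, hg₀'⟩ := hroot t₀ htt.symm
  obtain ⟨r₀, hr₀, hr₀'⟩ := hconst t₀ ht₀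
  have hgen : ∀ v ∈ W '' {s | s ∈ T ∧ s ≠ t}, ∃ f, φ v = algebraMap (LaurentSeries F) M f := by
    rintro _ ⟨s, ⟨hs, hst⟩, rfl⟩
    obtain ⟨g, hg, hg'⟩ := hroot s hst
    obtain ⟨r, hr, hr'⟩ := hconst s hs
    have h1 : φ (W s) ^ p = ((ser F g / ser F (PowerSeries.C r)) /
        (ser F g₀ / ser F (PowerSeries.C r₀))) ^ p := by
      rw [← map_pow, hW s hs, map_div₀, map_div₀, map_div₀, hval, hval, hφL, hφL, hr', hr₀', hg',
        hg₀', map_pow, map_pow, map_pow, map_pow, map_pow, map_pow, div_pow, div_pow, div_pow]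
    obtain ⟨i, hi⟩ := root_of_pow_eq hζ h1 (div_ne_zero (div_ne_zero (hsn _ hg) (hsn _ (hCn r hr)))
      (div_ne_zero (hsn _ hg₀) (hsn _ (hCn _ hr₀))))
    refine ⟨q (PowerSeries.C ζ) ^ i * ((q g / q (PowerSeries.C r)) /
      (q g₀ / q (PowerSeries.C r₀))), ?_⟩
    rw [hi, map_mul, map_pow, map_div₀, map_div₀, map_div₀]
    rfl
  obtain ⟨f, hf⟩ := mem_laurent φ (fun c => ⟨_, hφL c⟩) ⟨_, hφw⟩ hgen hmem
  -- the contradiction
  have hyt : algebraMap L F (y - t) ≠ 0 := (_root_.map_ne_zero _).2 (hys t ht)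
  have h2 : φ (W t) ^ p = (ser F PowerSeries.X / ser F (PowerSeries.C (algebraMap L F (y - t)))) /
      (ser F g₀ ^ p / ser F (PowerSeries.C r₀) ^ p) := by
    rw [← map_pow, hW t ht, map_div₀, map_div₀, map_div₀, hval, hval, hφL, hφL, hr₀',
      hg₀', map_pow, map_pow, map_pow, sub_self, map_zero, map_zero, zero_add]
  have h3 := hsn _ (hCn _ hyt)
  have h4 := hsn _ hg₀
  have h5 := hsn _ (hCn _ hr₀)
  refine T_not_pow hp.two_le hyt (f * (q g₀ / q (PowerSeries.C r₀))) ?_
  apply (algebraMap (LaurentSeries F) M).injective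
  show algebraMap (LaurentSeries F) M (q (PowerSeries.C (algebraMap L F (y - t))) *
    (f * (q g₀ / q (PowerSeries.C r₀))) ^ p) = ser F PowerSeries.X
  rw [map_mul, map_pow, map_mul, map_div₀, ← hser, ← hser, ← hser, ← hf, mul_pow, h2]
  exact indep_aux h3 h4 h5

/-- A homomorphism with prescribed values of the roots. -/
theorem exists_root_hom [IsAlgClosed Ω] {ζ : L} (hζ : IsPrimitiveRoot ζ p) (hW₀ : W t₀ = 1) :
    ∃ ψ : Ω →+* AlgebraicClosure (LaurentSeries L),
      (∀ c : L, ψ (algebraMap L Ω c) = ser L (PowerSeries.C c)) ∧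
      ψ w = ser L (PowerSeries.C y + PowerSeries.X) ∧
      ∀ t ∈ T, ψ (W t) = ser L (rootSer L p (y - t)) / ser L (rootSer L p (y - t₀)) := by
  classical
  have hne : NeZero p := ⟨hp.ne_zero⟩
  have hys : ∀ s ∈ T, y - s ≠ 0 := by
    intro s hs h
    rw [sub_eq_zero] at h
    rw [h] at hy
    exact hy hs
  have hR0 : ∀ s ∈ T, ser L (rootSer L p (y - s)) ≠ 0 := fun s hs =>
    (map_ne_zero_iff _ (ser_injective L)).2 (rootSer_ne_zero hp.ne_zero (hys s hs))
  have hΩ : CharZero Ω := charZero_of_injective_algebraMap (algebraMap L Ω).injective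
  -- induction
  have key : ∀ S : Finset L, S ⊆ T → ∃ ψ : Ω →+* AlgebraicClosure (LaurentSeries L),
      (∀ c : L, ψ (algebraMap L Ω c) = ser L (PowerSeries.C c)) ∧
      ψ w = ser L (PowerSeries.C y + PowerSeries.X) ∧
      ∀ t ∈ S, ψ (W t) = ser L (rootSer L p (y - t)) / ser L (rootSer L p (y - t₀)) := by
    intro S
    induction S using Finset.induction_on with
    | empty =>
      intro _
      obtain ⟨φ, h1, h2⟩ := exists_hom (F := L) hw y
      exact ⟨φ, h1, h2, by simp⟩
    | insert t S htS ih =>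
      intro hST
      obtain ⟨ψ, h1, h2, h3⟩ := ih (fun s hs => hST (Finset.mem_insert_of_mem hs))
      have ht : t ∈ T := hST (Finset.mem_insert_self t S)
      by_cases htt : t = t₀
      · refine ⟨ψ, h1, h2, fun s hs => ?_⟩
        rcases Finset.mem_insert.1 hs with rfl | hs
        · rw [htt, hW₀, map_one, div_self (hR0 t₀ ht₀)]
        · exact h3 s hs
      · have hnot := not_mem_adjoin hw hp ht₀ hy hW ht htt
        set E := adjoin L⟮w⟯ (W '' {s | s ∈ T ∧ s ≠ t}) with hE
        have halgE : Algebra.IsAlgebraic E Ω := Algebra.IsAlgebraic.tower_top (K := L⟮w⟯) E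
        have hclE : IsAlgClosure E Ω := ⟨inferInstance, halgE⟩
        have hcE : CharZero E := charZero_of_injective_algebraMap (algebraMap L⟮w⟯ E).injective
        have hgal : IsGalois E Ω := {
          to_isSeparable := inferInstance
          to_normal := IsAlgClosure.normal E Ω }
        have hex : ∃ σ : Ω ≃ₐ[E] Ω, σ (W t) ≠ W t := by
          by_contra hcon
          push Not at hcon
          obtain ⟨x, hx⟩ := (InfiniteGalois.mem_range_algebraMap_iff_fixed (k := E) (W t)).2 hcon
          rw [← hx] at hnot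
          exact hnot x.2
        obtain ⟨σ, hσ⟩ := hex
        have hσE : ∀ v ∈ E, σ v = v := fun v hv => σ.commutes ⟨v, hv⟩
        have hσw : σ w = w := by
          apply hσE
          exact IntermediateField.algebraMap_mem E (AdjoinSimple.gen L w)
        have hσL : ∀ c : L, σ (algebraMap L Ω c) = algebraMap L Ω c := by
          intro c
          apply hσE
          exact IntermediateField.algebraMap_mem E (algebraMap L L⟮w⟯ c)
        have hσs : ∀ s ∈ T, s ≠ t → σ (W s) = W s := fun s hs hst =>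
          hσE _ (subset_adjoin _ _ ⟨s, ⟨hs, hst⟩, rfl⟩)
        have hζΩ : IsPrimitiveRoot (algebraMap L Ω ζ) p := hζ.map_of_injective
          (algebraMap L Ω).injective
        have hWp : σ (W t) ^ p = W t ^ p := by
          rw [← map_pow, hW t ht]
          simp only [map_div₀, map_sub, hσw, hσL]
        have hWt0 : W t ≠ 0 := by
          intro h0
          apply hσ
          rw [h0, map_zero]
        obtain ⟨j, hj, hj'⟩ := hζΩ.eq_pow_of_pow_eq_one (ξ := σ (W t) / W t) (by
          rw [div_pow, hWp, div_self (pow_ne_zero _ hWt0)])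
        have hj0 : j ≠ 0 := by
          rintro rfl
          rw [pow_zero, eq_div_iff hWt0, one_mul] at hj'
          exact hσ hj'.symm
        have hη : IsPrimitiveRoot (ζ ^ j) p := by
          apply hζ.pow_of_coprime
          exact (Nat.coprime_of_lt_prime hj0 hj hp).symm
        have hσW : σ (W t) = algebraMap L Ω (ζ ^ j) * W t := by
          rw [map_pow, hj']
          field_simp
        have hσm : ∀ m : ℕ, (σ ^ m) (W t) = algebraMap L Ω (ζ ^ j) ^ m * W t := by
          intro m
          induction m with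
          | zero => simp
          | succ m ih =>
            rw [pow_succ', AlgEquiv.mul_apply, ih, map_mul, map_pow, hσL, hσW]
            ring
        have hσmf : ∀ (m : ℕ) (v : Ω), σ v = v → (σ ^ m) v = v := by
          intro m v hv
          induction m with
          | zero => simp
          | succ m ih => rw [pow_succ', AlgEquiv.mul_apply, ih, hv]
        -- compare the values
        have hval : ∀ s : L, ψ (w - algebraMap L Ω s) =
            ser L (PowerSeries.C (y - s) + PowerSeries.X) := by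
          intro s
          rw [map_sub, h2, h1, ← map_sub]
          congr 1
          rw [map_sub]
          ring
        have hU : ∀ s ∈ T, ψ ((w - algebraMap L Ω s) / algebraMap L Ω (y - s)) =
            ser L (rootSer L p (y - s)) ^ p := by
          intro s hs
          rw [map_div₀, hval, h1, ← rootSer_pow hp.ne_zero (hys s hs), map_mul, map_pow]
          have : ser L (PowerSeries.C (y - s)) ≠ 0 := by
            rw [map_ne_zero_iff _ (ser_injective L)]
            intro h
            apply hys s hs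
            apply PowerSeries.C_injective
            rw [h, map_zero]
          field_simp
        have h4 : ψ (W t) ^ p = (ser L (rootSer L p (y - t)) / ser L (rootSer L p (y - t₀))) ^ p := by
          rw [← map_pow, hW t ht, map_div₀ ψ (_ / _), hU t ht, hU t₀ ht₀, div_pow]
        obtain ⟨i, hi⟩ := root_of_pow_eq hη h4 (div_ne_zero (hR0 t ht) (hR0 t₀ ht₀))
        -- adjust
        obtain ⟨m, hm⟩ : ∃ m : ℕ, (ζ ^ j) ^ m * (ζ ^ j) ^ i = 1 := by
          refine ⟨(p - 1) * i, ?_⟩
          rw [← pow_add]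
          have h5 : (p - 1) * i + i = p * i := by
            obtain ⟨p', rfl⟩ := Nat.exists_eq_succ_of_ne_zero hp.ne_zero
            simp only [Nat.succ_eq_add_one, Nat.add_sub_cancel]
            ring
          rw [h5, pow_mul, hη.pow_eq_one, one_pow]
        refine ⟨ψ.comp ((σ ^ m : Ω ≃ₐ[E] Ω) : Ω →+* Ω), ?_, ?_, ?_⟩
        · intro c
          show ψ ((σ ^ m) (algebraMap L Ω c)) = _
          rw [hσmf m _ (hσL c), h1]
        · show ψ ((σ ^ m) w) = _
          rw [hσmf m _ hσw, h2]
        · intro s hs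
          show ψ ((σ ^ m) (W s)) = _
          rcases Finset.mem_insert.1 hs with rfl | hs'
          · rw [hσm, map_mul, map_pow, h1, hi, ← mul_assoc, ← map_pow (ser L), ← map_pow (ser L),
              ← map_mul (ser L), ← map_pow PowerSeries.C, ← map_pow PowerSeries.C, ← map_mul, hm,
              map_one, map_one, one_mul]
          · have hst : s ≠ t := by
              rintro rfl
              exact htS hs'
            rw [hσmf m _ (hσs s (hST hs) hst), h3 s hs']
  exact key T subset_rfl

end

end Pool.Agent.Lib.MP_c385f6_ag
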