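import Mathlib
import Pool.Agent.Lib.MP_c385f6_ag.AllP.Indep
import Pool.Agent.Lib.MP_c385f6_ag.AllP.Data

set_option autoImplicit false

/-!
From the values of the twists of a section at a point `y ∈ k` of the line to a rational place.
-/

namespace Pool.Agent.Lib.MP_c385f6_ag

open Finset

/-- An embedding in Laurent series over `L` whose constant terms are in `k` gives a rational
place. -/
theorem exists_place_of_series_base {k L K : Type*} [Field k] [Field L] [Field K] [Algebra k L]
    [Algebra k K] (φ : K →+* AlgebraicClosure (LaurentSeries L))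
    (hc : ∀ c : k, φ (algebraMap k K c) = ser L (PowerSeries.C (algebraMap k L c)))
    (hφ : ∀ y : K, ∃ f : LaurentSeries L, φ y = algebraMap (LaurentSeries L) _ f)
    (hres : ∀ (y : K) (g : PowerSeries L), φ y = ser L g →
      ∃ c : k, PowerSeries.constantCoeff g = algebraMap k L c) {u : K}
    (hu : φ u = ser L PowerSeries.X) :
    ∃ A : ValuationSubring K, IsRationalPlace k K A ∧ A.valuation u < 1 := by
  classical
  let F := LaurentSeries L
  have hq : Function.Injective (ser L) := ser_injective L
  have hser : ∀ g, ser L g = algebraMap F (AlgebraicClosure F)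
    (algebraMap (PowerSeries L) F g) := fun g => rfl
  let A : ValuationSubring K :=
    { carrier := {y | ∃ g, φ y = ser L g}
      mul_mem' := by
        rintro a b ⟨g, hg⟩ ⟨h, hh⟩
        exact ⟨g * h, by rw [map_mul, map_mul, hg, hh]⟩
      one_mem' := ⟨1, by rw [map_one, map_one]⟩
      add_mem' := by
        rintro a b ⟨g, hg⟩ ⟨h, hh⟩
        exact ⟨g + h, by rw [map_add, map_add, hg, hh]⟩
      zero_mem' := ⟨0, by rw [map_zero, map_zero]⟩
      neg_mem' := by
        rintro a ⟨g, hg⟩
        exact ⟨-g, by rw [map_neg, map_neg, hg]⟩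
      mem_or_inv_mem' := by
        intro y
        obtain ⟨f, hf⟩ := hφ y
        rcases ValuationRing.isInteger_or_isInteger (PowerSeries L) f with ⟨g, hg⟩ | ⟨g, hg⟩
        · left
          exact ⟨g, by rw [hf, ← hg]; rfl⟩
        · right
          exact ⟨g, by rw [map_inv₀, hf, ← map_inv₀, ← hg]; rfl⟩ }
  have hA : ∀ y, y ∈ A ↔ ∃ g, φ y = ser L g := fun y => Iff.rfl
  have hlt : ∀ y g, φ y = ser L g → PowerSeries.constantCoeff g = 0 → A.valuation y < 1 := by
    intro y g hg hg0
    rw [← not_le]
    intro h1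
    have hy0 : y ≠ 0 := by
      rintro rfl
      rw [map_zero] at h1
      exact absurd h1 (not_le.2 zero_lt_one)
    have h2 : y⁻¹ ∈ A := by
      rw [← A.valuation_le_one_iff, map_inv₀]
      exact inv_le_one_of_one_le₀ h1
    obtain ⟨g', hg'⟩ := (hA _).1 h2
    have h3 : ser L (g * g') = ser L 1 := by
      rw [map_mul, ← hg, ← hg', ← map_mul, mul_inv_cancel₀ hy0, map_one, map_one]
    have h4 := congrArg PowerSeries.constantCoeff (hq h3)
    rw [map_mul, hg0, zero_mul, map_one] at h4
    exact zero_ne_one h4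
  have hu1 : A.valuation u < 1 := hlt u PowerSeries.X hu (by simp)
  have hu0 : u ≠ 0 := by
    rintro rfl
    rw [map_zero] at hu
    have h1 : ser L 0 = ser L PowerSeries.X := by rw [map_zero]; exact hu
    exact PowerSeries.X_ne_zero (hq h1).symm
  refine ⟨A, ⟨?_, ?_, ?_⟩, hu1⟩
  · intro h
    have h1 : u⁻¹ ∈ A := by rw [h]; exact ValuationSubring.mem_top _
    rw [← A.valuation_le_one_iff, map_inv₀] at h1
    have h2 : A.valuation u ≠ 0 := (Valuation.ne_zero_iff _).2 hu0
    have h3 : 1 < (A.valuation u)⁻¹ := (one_lt_inv₀ (zero_lt_iff.2 h2)).2 hu1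
    exact absurd h1 (not_le.2 h3)
  · intro c
    exact ⟨PowerSeries.C (algebraMap k L c), hc c⟩
  · rintro y ⟨g, hg⟩
    obtain ⟨c, hc'⟩ := hres y g hg
    refine ⟨c, hlt _ (g - PowerSeries.C (algebraMap k L c)) ?_ (by simp [hc'])⟩
    rw [map_sub, map_sub, hg, hc]

section
variable {k L K M Ω ι : Type*} [Field k] [CharZero k] [Field L] [Field K] [Field M] [Field Ω]
  [Algebra k L] [Algebra k K] [Algebra k Ω] [Algebra L Ω] [Algebra K Ω] [Algebra K M]
  [Algebra L M] [Algebra M Ω] [IsScalarTower k K Ω] [IsScalarTower k L Ω] [IsScalarTower K M Ω]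
  [IsScalarTower L M Ω] [IsAlgClosure K Ω] [FiniteDimensional k L] [IsGalois k L]

omit [CharZero k] [Field M] [Algebra K M] [Algebra L M] [Algebra M Ω] [IsScalarTower K M Ω]
  [IsScalarTower L M Ω] [IsAlgClosure K Ω] [IsGalois k L] in
theorem transcendental_base {w : K} (hw : Transcendental k w) :
    Transcendental L (algebraMap K Ω w) := by
  intro h
  have h1 : IsAlgebraic k (algebraMap K Ω w) := h.restrictScalars k
  exact hw ((isAlgebraic_algebraMap_iff (algebraMap K Ω).injective).1 h1)

omit [CharZero k] [Field k] [Algebra k L] [Algebra k K] [Algebra k Ω] [IsScalarTower k K Ω]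
  [IsScalarTower k L Ω] [FiniteDimensional k L] [IsGalois k L] in
/-- `Ω` is algebraic over `L(w)`. -/
theorem algebraic_base {p : ℕ} (hp : p ≠ 0) {T : Finset L} {w : K} {c : ι → L} {a : ι → L → ℕ}
    {z : ι → M} (hz : ∀ i, z i ^ p = algebraMap L M (c i) *
      ∏ t ∈ T, (algebraMap K M w - algebraMap L M t) ^ a i t)
    (hgen : IntermediateField.adjoin L (insert (algebraMap K M w) (Set.range z)) = ⊤) :
    Algebra.IsAlgebraic (IntermediateField.adjoin L {algebraMap K Ω w}) Ω := by
  let E := IntermediateField.adjoin L {algebraMap K Ω w}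
  have hKM : ∀ x : K, algebraMap M Ω (algebraMap K M x) = algebraMap K Ω x := fun x =>
    (IsScalarTower.algebraMap_apply K M Ω x).symm
  have hLM : ∀ x : L, algebraMap M Ω (algebraMap L M x) = algebraMap L Ω x := fun x =>
    (IsScalarTower.algebraMap_apply L M Ω x).symm
  let S₀ := algebraicClosure E Ω
  have hwE : algebraMap K Ω w ∈ S₀ :=
    S₀.algebraMap_mem (⟨_, IntermediateField.mem_adjoin_simple_self L _⟩ : E)
  have hLE : ∀ x : L, algebraMap L Ω x ∈ S₀ := fun x => S₀.algebraMap_mem (algebraMap L E x)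
  have hmem : ∀ m : M, algebraMap M Ω m ∈ S₀ := by
    intro m
    have hm : m ∈ IntermediateField.adjoin L (insert (algebraMap K M w) (Set.range z)) := by
      rw [hgen]; trivial
    induction hm using IntermediateField.adjoin_induction with
    | mem y hy =>
      rcases hy with rfl | ⟨i, rfl⟩
      · rw [hKM]; exact hwE
      · have h1 : algebraMap M Ω (z i) ^ p ∈ S₀ := by
          rw [← map_pow, hz i, map_mul, map_prod, hLM]
          refine mul_mem (hLE _) (prod_mem fun t _ => ?_)
          rw [map_pow, map_sub, hKM, hLM]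
          exact pow_mem (sub_mem hwE (hLE _)) _
        rw [mem_algebraicClosure_iff] at h1 ⊢
        exact h1.of_pow (Nat.pos_of_ne_zero hp)
    | algebraMap c => rw [hLM]; exact hLE c
    | add a b _ _ ha hb => rw [map_add]; exact add_mem ha hb
    | inv a _ ha => rw [map_inv₀]; exact inv_mem ha
    | mul a b _ _ ha hb => rw [map_mul]; exact mul_mem ha hb
  have halgO : Algebra.IsAlgebraic K Ω := IsAlgClosure.isAlgebraic
  have halgM : Algebra.IsAlgebraic M Ω := Algebra.IsAlgebraic.tower_top (K := K) M
  let j : M →+* S₀ := (algebraMap M Ω).codRestrict S₀ hmem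
  let _ : Algebra M S₀ := j.toAlgebra
  have _ : IsScalarTower M S₀ Ω := IsScalarTower.of_algebraMap_eq fun _ => rfl
  refine ⟨fun v => ?_⟩
  have h1 : IsAlgebraic S₀ v := (halgM.isAlgebraic v).tower_top S₀
  exact h1.restrictScalars E

end

end Pool.Agent.Lib.MP_c385f6_ag
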