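import Mathlib
import Pool.Agent.Lib.MP_c385f6_ag.AllP.Place
import Pool.Agent.Lib.MP_c385f6_ag.AllP.Average

set_option autoImplicit false

/-!
From the values of the twists of a section at a point `y ∈ k` of the line to a rational place.
-/

namespace Pool.Agent.Lib.MP_c385f6_ag

open Finset

section
variable {k L K M Ω ι : Type*} [Field k] [CharZero k] [Field L] [Field K] [Field M] [Field Ω]
  [Algebra k L] [Algebra k K] [Algebra k Ω] [Algebra L Ω] [Algebra K Ω] [Algebra K M]
  [Algebra L M] [Algebra M Ω] [IsScalarTower k K Ω] [IsScalarTower k L Ω] [IsScalarTower K M Ω]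
  [IsScalarTower L M Ω] [IsAlgClosure K Ω] [FiniteDimensional k L] [IsGalois k L]

/-- **A rational place from the values of the twists.** -/
theorem place_of_values {p : ℕ} (hp : p.Prime) {ζ : L} (hζ : IsPrimitiveRoot ζ p)
    (hpG : ¬ p ∣ Module.finrank k L)
    (hM : IntermediateField.adjoin K (Set.range (algebraMap L M)) = ⊤)
    {T : Finset L} (hT : ∀ g : L ≃ₐ[k] L, ∀ t ∈ T, g t ∈ T) {w : K} (hw : Transcendental k w)
    {c : ι → L} {a : ι → L → ℕ} {z : ι → M}
    (hz : ∀ i, z i ^ p = algebraMap L M (c i) *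
      ∏ t ∈ T, (algebraMap K M w - algebraMap L M t) ^ a i t)
    (hsum : ∀ i, p ∣ ∑ t ∈ T, a i t)
    (hgen : IntermediateField.adjoin L (insert (algebraMap K M w) (Set.range z)) = ⊤)
    {t₀ : L} (ht₀ : t₀ ∈ T) {s : AbsGal k Ω →* PiOne k K Ω} (hs : IsSection k K Ω s) {D : L → L}
    {Y : L → maxUnramified k K Ω} (hY0 : ∀ t ∈ T, Y t ≠ 0)
    (hYfix : ∀ t ∈ T, ∀ γ : AbsGal L Ω, s (resAbs k L Ω γ) (Y t) = Y t)
    (hYeq : ∀ t ∈ T, algebraMap L Ω (D t) * (Y t : Ω) ^ p =
        (algebraMap K Ω w - algebraMap L Ω t) / (algebraMap K Ω w - algebraMap L Ω t₀))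
    {y : k} (hy : algebraMap k L y ∉ T)
    (hval : ∀ t ∈ T, ∃ e : L, e ≠ 0 ∧
      D t / D t₀ = (algebraMap k L y - t) / (algebraMap k L y - t₀) * e ^ p) :
    ∃ A : ValuationSubring K, IsRationalPlace k K A ∧ A.valuation (w - algebraMap k K y) < 1 := by
  classical
  have hacO : IsAlgClosed Ω := IsAlgClosure.isAlgClosed K
  have halgO : Algebra.IsAlgebraic K Ω := IsAlgClosure.isAlgebraic
  have halgM : Algebra.IsAlgebraic M Ω := Algebra.IsAlgebraic.tower_top (K := K) M
  have hclM : IsAlgClosure M Ω := ⟨hacO, halgM⟩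
  have hcL : CharZero L := charZero_of_injective_algebraMap (algebraMap k L).injective
  have hacF : IsAlgClosed (algebraicClosure k Ω) := IsAlgClosure.isAlgClosed k
  have hcl : IsAlgClosure k (algebraicClosure k Ω) := inferInstance
  have hn : Normal k (algebraicClosure k Ω) := IsAlgClosure.normal k _
  have hg : IsGalois k (algebraicClosure k Ω) := {}
  have hmem := mem_ur_iff_base (k := k) (L := L) (K := K) (M := M) (Ω := Ω) hM
  have hKM : ∀ x : K, algebraMap M Ω (algebraMap K M x) = algebraMap K Ω x := fun x =>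
    (IsScalarTower.algebraMap_apply K M Ω x).symm
  have hLM : ∀ x : L, algebraMap M Ω (algebraMap L M x) = algebraMap L Ω x := fun x =>
    (IsScalarTower.algebraMap_apply L M Ω x).symm
  have hwL : Transcendental L (algebraMap K Ω w) := transcendental_base hw
  have halgw : Algebra.IsAlgebraic (IntermediateField.adjoin L {algebraMap K Ω w}) Ω :=
    algebraic_base hp.ne_zero hz hgen
  have hsub : ∀ t : L, algebraMap K Ω w - algebraMap L Ω t ≠ 0 := fun t =>
    sub_const_ne_zero (k := k) hw t
  have hys : ∀ t ∈ T, algebraMap L Ω (algebraMap k L y - t) ≠ 0 := by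
    intro t ht h
    have h1 := (map_eq_zero _).1 h
    rw [sub_eq_zero] at h1
    rw [h1] at hy
    exact hy ht
  obtain ⟨W, hW₀, hWn, hWp, hWs⟩ := exists_roots hp hpG hT hw ht₀ hs hY0 hYfix hYeq hy
    (fun g => g.commutes y) hval
  set U : L → maxUnramified k K Ω := normU k K Ω w (algebraMap k L y) with hUdef
  have hUv : ∀ t, ((U t : maxUnramified k K Ω) : Ω) =
    (algebraMap K Ω w - algebraMap L Ω t) / algebraMap L Ω (algebraMap k L y - t) := fun t => rfl
  have hU0 : ∀ t ∈ T, U t ≠ 0 := by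
    intro t ht h
    have h1 := congrArg (fun z : maxUnramified k K Ω => (z : Ω)) h
    exact div_ne_zero (hsub t) (hys t ht) h1
  obtain ⟨ψ, hψL, hψw, hψW⟩ := exists_root_hom (Ω := Ω) (w := algebraMap K Ω w) hwL hp ht₀ hy
    (W := fun t => ((W t : maxUnramified k K Ω) : Ω)) (fun t ht => congrArg Subtype.val (hWp t ht))
    hζ (congrArg Subtype.val hW₀)
  -- the good elements
  let Good : maxUnramified k K Ω → Prop := fun v => ∃ a b : PowerSeries L, b ≠ 0 ∧
    ψ (v : Ω) = ser L a / ser L b ∧ ∀ (g : L ≃ₐ[k] L) (h : AbsGal k Ω),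
      (∀ x, h (embL k L Ω x) = embL k L Ω (g x)) →
      ψ ((s h v : maxUnramified k K Ω) : Ω) =
        ser L (a.map (g : L →+* L)) / ser L (b.map (g : L →+* L))
  have hmap0 : ∀ (g : L ≃ₐ[k] L) (b : PowerSeries L), b ≠ 0 → b.map (g : L →+* L) ≠ 0 := by
    intro g b hb
    rw [map_ne_zero_iff _ (PowerSeries.map_injective _ (RingHom.injective _))]
    exact hb
  have hser0 : ∀ b : PowerSeries L, b ≠ 0 → ser L b ≠ 0 := fun b hb =>
    (map_ne_zero_iff _ (ser_injective L)).2 hb
  have hadd : ∀ u v, Good u → Good v → Good (u + v) := by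
    rintro u v ⟨a, b, hb, h1, h2⟩ ⟨a', b', hb', h1', h2'⟩
    refine ⟨a * b' + b * a', b * b', mul_ne_zero hb hb', ?_, ?_⟩
    · have e1 : ((u + v : maxUnramified k K Ω) : Ω) = (u : Ω) + (v : Ω) := rfl
      rw [e1, map_add, h1, h1', div_add_div _ _ (hser0 _ hb) (hser0 _ hb'), map_add, map_mul,
        map_mul, map_mul]
    · intro g h hh
      have e1 : ((s h (u + v) : maxUnramified k K Ω) : Ω) = ((s h u : maxUnramified k K Ω) : Ω) +
        ((s h v : maxUnramified k K Ω) : Ω) := by rw [map_add]; rfl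
      rw [e1, map_add, h2 g h hh, h2' g h hh, div_add_div _ _ (hser0 _ (hmap0 _ _ hb))
        (hser0 _ (hmap0 _ _ hb')), map_add, map_mul, map_mul, map_mul, map_add, map_mul, map_mul,
        map_mul]
  have hmul : ∀ u v, Good u → Good v → Good (u * v) := by
    rintro u v ⟨a, b, hb, h1, h2⟩ ⟨a', b', hb', h1', h2'⟩
    refine ⟨a * a', b * b', mul_ne_zero hb hb', ?_, ?_⟩
    · have e1 : ((u * v : maxUnramified k K Ω) : Ω) = (u : Ω) * (v : Ω) := rfl
      rw [e1, map_mul, h1, h1', div_mul_div_comm, map_mul, map_mul]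
    · intro g h hh
      have e1 : ((s h (u * v) : maxUnramified k K Ω) : Ω) = ((s h u : maxUnramified k K Ω) : Ω) *
        ((s h v : maxUnramified k K Ω) : Ω) := by rw [map_mul]; rfl
      rw [e1, map_mul, h2 g h hh, h2' g h hh, div_mul_div_comm, map_mul, map_mul, map_mul, map_mul]
  have hinv : ∀ u, Good u → Good u⁻¹ := by
    rintro u ⟨a, b, hb, h1, h2⟩
    by_cases ha : a = 0
    · have hu : u = 0 := by
        rw [ha, map_zero, zero_div] at h1
        exact Subtype.ext ((map_eq_zero _).1 h1)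
      rw [hu, inv_zero]
      refine ⟨0, 1, one_ne_zero, ?_, ?_⟩
      · rw [map_zero, zero_div]
        exact map_zero ψ
      · intro g h hh
        rw [map_zero, map_zero, map_zero, zero_div]
        exact map_zero ψ
    · refine ⟨b, a, ha, ?_, ?_⟩
      · have e1 : ((u⁻¹ : maxUnramified k K Ω) : Ω) = (u : Ω)⁻¹ := rfl
        rw [e1, map_inv₀, h1, inv_div]
      · intro g h hh
        have e1 : ((s h u⁻¹ : maxUnramified k K Ω) : Ω) =
          ((s h u : maxUnramified k K Ω) : Ω)⁻¹ := by rw [map_inv₀]; rfl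
        rw [e1, map_inv₀, h2 g h hh, inv_div]
  have hone : Good 1 := by
    refine ⟨1, 1, one_ne_zero, ?_, ?_⟩
    · rw [div_self (hser0 _ one_ne_zero)]
      exact map_one ψ
    · intro g h hh
      rw [map_one (s h), map_one (PowerSeries.map _), div_self (hser0 _ one_ne_zero)]
      exact map_one ψ
  have hpow : ∀ u (n : ℕ), Good u → Good (u ^ n) := by
    intro u n hu
    induction n with
    | zero => rw [pow_zero]; exact hone
    | succ n ih => rw [pow_succ]; exact hmul _ _ ih hu
  have hGc : ∀ x : L, Good (constHom k K Ω (embL k L Ω x)) := by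
    intro x
    refine ⟨PowerSeries.C x, 1, one_ne_zero, ?_, ?_⟩
    · rw [map_one, div_one]
      exact hψL x
    · intro g h hh
      have e1 : ((s h (constHom k K Ω (embL k L Ω x)) : maxUnramified k K Ω) : Ω) =
          algebraMap L Ω (g x) := by
        rw [hs.restrict h (embL k L Ω x) _ rfl, hh]
        rfl
      rw [e1, hψL, map_one, map_one, div_one, PowerSeries.map_C]
      rfl
  have hGw : Good (algebraMap K _ w) := by
    refine ⟨PowerSeries.C (algebraMap k L y) + PowerSeries.X, 1, one_ne_zero, ?_, ?_⟩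
    · rw [map_one, div_one]
      exact hψw
    · intro g h hh
      rw [AlgEquiv.commutes, map_one, map_one, div_one, map_add, PowerSeries.map_C,
        PowerSeries.map_X]
      have e1 : (g : L →+* L) (algebraMap k L y) = algebraMap k L y := g.commutes y
      rw [e1]
      exact hψw
  have hGW : ∀ t ∈ T, Good (W t) := by
    intro t ht
    have hR0 : ∀ u ∈ T, rootSer L p (algebraMap k L y - u) ≠ 0 := by
      intro u hu
      refine rootSer_ne_zero hp.ne_zero ?_
      intro h
      apply hys u hu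
      rw [h, map_zero]
    refine ⟨rootSer L p (algebraMap k L y - t), rootSer L p (algebraMap k L y - t₀),
      hR0 t₀ ht₀, hψW t ht, ?_⟩
    intro g h hh
    have e1 : ((s h (W t) : maxUnramified k K Ω) : Ω) = ((W (g t) : maxUnramified k K Ω) : Ω) /
        ((W (g t₀) : maxUnramified k K Ω) : Ω) := by
      rw [hWs g h hh t ht]
      rfl
    have e2 : (g : L →+* L) (algebraMap k L y) = algebraMap k L y := g.commutes y
    have e3 : ∀ u : L, (g : L →+* L) u = g u := fun u => rfl
    rw [e1, map_div₀, hψW _ (hT g t ht), hψW _ (hT g t₀ ht₀), rootSer_map, rootSer_map, map_sub,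
      map_sub, e2, e3, e3, div_div_div_cancel_right₀ (hser0 _ (hR0 t₀ ht₀))]
  have hGU : ∀ t ∈ T, Good (U t) := by
    intro t ht
    show Good ((algebraMap K _ w - constHom k K Ω (embL k L Ω t)) /
      constHom k K Ω (embL k L Ω (algebraMap k L y - t)))
    rw [div_eq_mul_inv, sub_eq_add_neg]
    refine hmul _ _ (hadd _ _ hGw ?_) (hinv _ (hGc _))
    rw [← map_neg, ← map_neg]
    exact hGc _
  -- the generators of `M`
  have hMur : ∀ m : M, algebraMap M Ω m ∈ maxUnramified k K Ω := fun m =>
    (hmem _).1 ((maxUnramified L M Ω).algebraMap_mem m)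
  let μ : M →+* maxUnramified k K Ω := (algebraMap M Ω).codRestrict (maxUnramified k K Ω) hMur
  have hμ : ∀ m, ((μ m : maxUnramified k K Ω) : Ω) = algebraMap M Ω m := fun m => rfl
  have hμL : ∀ x : L, μ (algebraMap L M x) = constHom k K Ω (embL k L Ω x) := fun x =>
    Subtype.ext (hLM x)
  have hμK : ∀ x : K, μ (algebraMap K M x) = algebraMap K _ x := fun x => Subtype.ext (hKM x)
  have hresL : ∀ (γ : AbsGal L Ω) (x : L), resAbs k L Ω γ (embL k L Ω x) = embL k L Ω x := by
    intro γ x
    apply Subtype.ext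
    rw [resAbs_apply γ (c := embL k L Ω x) (d := algebraMap L _ x) rfl, AlgEquiv.commutes]
    rfl
  have hsc : ∀ (γ : AbsGal L Ω) (x : L), s (resAbs k L Ω γ) (constHom k K Ω (embL k L Ω x)) =
      constHom k K Ω (embL k L Ω x) := by
    intro γ x
    apply Subtype.ext
    rw [hs.restrict _ (embL k L Ω x) _ rfl, hresL]
    rfl
  have hμfix : ∀ (γ : AbsGal L Ω) (m : M), s (resAbs k L Ω γ) (μ m) = μ m := by
    intro γ m
    refine fix_of_fix_base hM (((s (resAbs k L Ω γ) : maxUnramified k K Ω →ₐ[K]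
      maxUnramified k K Ω) : maxUnramified k K Ω →+* maxUnramified k K Ω).comp μ) μ ?_ ?_ m
    · intro x
      show s (resAbs k L Ω γ) (μ (algebraMap K M x)) = _
      rw [hμK, AlgEquiv.commutes]
    · intro x
      show s (resAbs k L Ω γ) (μ (algebraMap L M x)) = _
      rw [hμL, hsc]
  have hWfix : ∀ (γ : AbsGal L Ω), ∀ t ∈ T, s (resAbs k L Ω γ) (W t) = W t := by
    intro γ t ht
    rw [hWs 1 (resAbs k L Ω γ) (fun x => hresL γ x) t ht]
    show W t / W t₀ = W t
    rw [hW₀, div_one]
  have hUfix : ∀ (γ : AbsGal L Ω) (t : L), s (resAbs k L Ω γ) (U t) = U t := fun γ t =>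
    section_normU hs (g := 1) (fun x => hresL γ x) w rfl t
  obtain ⟨s', hs', hcomp⟩ := exists_base_section k L K M Ω hM hs
  have hGz : ∀ i, Good (μ (z i)) := by
    intro i
    obtain ⟨q, hq⟩ := hsum i
    let N : maxUnramified k K Ω := (∏ t ∈ T, W t ^ a i t) * U t₀ ^ q
    have hN0 : N ≠ 0 := mul_ne_zero (Finset.prod_ne_zero_iff.2 fun t ht => pow_ne_zero _ (hWn t ht))
      (pow_ne_zero _ (hU0 t₀ ht₀))
    have hNG : Good N := by
      refine hmul _ _ ?_ (hpow _ _ (hGU t₀ ht₀))
      refine Finset.prod_induction _ Good hmul hone fun t ht => hpow _ _ (hGW t ht)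
    have hNp : N ^ p = ∏ t ∈ T, U t ^ a i t := by
      show ((∏ t ∈ T, W t ^ a i t) * U t₀ ^ q) ^ p = _
      have h1 : ∀ t ∈ T, (W t ^ a i t) ^ p = U t ^ a i t / U t₀ ^ a i t := by
        intro t ht
        rw [← pow_mul, mul_comm, pow_mul, hWp t ht, div_pow]
      rw [mul_pow, ← Finset.prod_pow, Finset.prod_congr rfl h1, Finset.prod_div_distrib,
        Finset.prod_pow_eq_pow_sum, hq, ← pow_mul, mul_comm q p,
        div_mul_cancel₀ _ (pow_ne_zero _ (hU0 t₀ ht₀))]
    have hzp : μ (z i) ^ p = constHom k K Ω (embL k L Ω (c i *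
        ∏ t ∈ T, (algebraMap k L y - t) ^ a i t)) * ∏ t ∈ T, U t ^ a i t := by
      have h1 : ∀ t ∈ T, algebraMap K (maxUnramified k K Ω) w - constHom k K Ω (embL k L Ω t) =
          constHom k K Ω (embL k L Ω (algebraMap k L y - t)) * U t := by
        intro t ht
        show _ = constHom k K Ω (embL k L Ω (algebraMap k L y - t)) *
          ((algebraMap K _ w - constHom k K Ω (embL k L Ω t)) /
            constHom k K Ω (embL k L Ω (algebraMap k L y - t)))
        rw [mul_div_cancel₀]
        intro h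
        exact hys t ht (congrArg Subtype.val h)
      rw [← map_pow, hz i, map_mul, map_prod, hμL, map_mul (embL k L Ω), map_mul (constHom k K Ω),
        mul_assoc]
      congr 1
      rw [map_prod (embL k L Ω), map_prod (constHom k K Ω), ← Finset.prod_mul_distrib]
      refine Finset.prod_congr rfl fun t ht => ?_
      rw [map_pow, map_sub, hμL, hμK, h1 t ht, mul_pow, map_pow, map_pow]
    let E : maxUnramified k K Ω := μ (z i) / N
    have hEp : E ^ p = constHom k K Ω (embL k L Ω (c i *
        ∏ t ∈ T, (algebraMap k L y - t) ^ a i t)) := by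
      show (μ (z i) / N) ^ p = _
      rw [div_pow, hzp, hNp, mul_div_assoc, div_self, mul_one]
      exact Finset.prod_ne_zero_iff.2 fun t ht => pow_ne_zero _ (hU0 t ht)
    have hEfix : ∀ γ : AbsGal L Ω, s (resAbs k L Ω γ) E = E := by
      intro γ
      show s (resAbs k L Ω γ) (μ (z i) / ((∏ t ∈ T, W t ^ a i t) * U t₀ ^ q)) = _
      rw [map_div₀, hμfix, map_mul, map_prod, map_pow, hUfix,
        Finset.prod_congr rfl fun t ht => by rw [map_pow, hWfix γ t ht]]
    have halg : (E : Ω) ∈ algebraicClosure L Ω := by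
      rw [mem_algebraicClosure_iff]
      refine ⟨Polynomial.X ^ p - Polynomial.C (c i * ∏ t ∈ T, (algebraMap k L y - t) ^ a i t),
        (Polynomial.monic_X_pow_sub_C _ hp.ne_zero).ne_zero, ?_⟩
      rw [map_sub, map_pow, Polynomial.aeval_X, Polynomial.aeval_C, sub_eq_zero]
      exact congrArg Subtype.val hEp
    obtain ⟨e, he⟩ := fixed_const (k := L) (K := M) hs' (z := ⟨(E : Ω), (hmem _).2 E.2⟩) (by
      intro γ
      apply Subtype.ext
      rw [hcomp γ _ E rfl, hEfix]) halg
    have he' : E = constHom k K Ω (embL k L Ω e) := Subtype.ext he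
    have hzi : μ (z i) = E * N := by
      show μ (z i) = μ (z i) / N * N
      rw [div_mul_cancel₀ _ hN0]
    rw [hzi, he']
    exact hmul _ _ (hGc e) hNG
  have hGM : ∀ m : M, Good (μ m) := by
    intro m
    have hm : m ∈ IntermediateField.adjoin L (insert (algebraMap K M w) (Set.range z)) := by
      rw [hgen]; trivial
    induction hm using IntermediateField.adjoin_induction with
    | mem y hy =>
      rcases hy with rfl | ⟨i, rfl⟩
      · rw [hμK]; exact hGw
      · exact hGz i
    | algebraMap c => rw [hμL]; exact hGc c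
    | add a b _ _ ha hb => rw [map_add]; exact hadd _ _ ha hb
    | inv a _ ha => rw [map_inv₀]; exact hinv _ ha
    | mul a b _ _ ha hb => rw [map_mul]; exact hmul _ _ ha hb
  have hGK : ∀ x : K, ∃ a b : PowerSeries L, b ≠ 0 ∧
      ψ (algebraMap K Ω x) = ser L a / ser L b ∧ ∀ g : L ≃ₐ[k] L,
      ψ (algebraMap K Ω x) = ser L (a.map (g : L →+* L)) / ser L (b.map (g : L →+* L)) := by
    intro x
    obtain ⟨a, b, hb, h1, h2⟩ := hGM (algebraMap K M x)
    rw [hμK] at h1
    refine ⟨a, b, hb, h1, fun g => ?_⟩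
    obtain ⟨h, hh⟩ := exists_lift (embL k L Ω) g
    have h3 := h2 g h hh
    rw [hμK, AlgEquiv.commutes] at h3
    exact h3
  refine exists_place_of_series_base (ψ.comp (algebraMap K Ω)) ?_ ?_ ?_ ?_
  · intro x
    show ψ (algebraMap K Ω (algebraMap k K x)) = _
    rw [← IsScalarTower.algebraMap_apply k K Ω, IsScalarTower.algebraMap_apply k L Ω, hψL]
  · intro x
    obtain ⟨a, b, hb, h1, -⟩ := hGK x
    refine ⟨algebraMap _ _ a / algebraMap _ _ b, ?_⟩
    show ψ (algebraMap K Ω x) = _
    rw [h1, map_div₀]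
    rfl
  · intro x f hf
    have hf' : ψ (algebraMap K Ω x) = ser L f := hf
    obtain ⟨a, b, hb, h1, h2⟩ := hGK x
    have h3 : f * b = a := by
      apply ser_injective L
      rw [map_mul, ← hf', h1, div_mul_cancel₀ _ (hser0 _ hb)]
    have h4 : ∀ g : L ≃ₐ[k] L, f.map (g : L →+* L) = f := by
      intro g
      have hb' := hmap0 g b hb
      have h5 : f * b.map (g : L →+* L) = a.map (g : L →+* L) := by
        apply ser_injective L
        rw [map_mul, ← hf', h2 g, div_mul_cancel₀ _ (hser0 _ hb')]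
      rw [← h3, map_mul] at h5
      exact (mul_right_cancel₀ hb' h5).symm
    have h6 : ∀ g : L ≃ₐ[k] L, g (PowerSeries.constantCoeff f) = PowerSeries.constantCoeff f := by
      intro g
      have h7 := congrArg (PowerSeries.coeff 0) (h4 g)
      rw [PowerSeries.coeff_map, PowerSeries.coeff_zero_eq_constantCoeff_apply] at h7
      exact h7
    obtain ⟨c, hc⟩ := (IsGalois.mem_range_algebraMap_iff_fixed (PowerSeries.constantCoeff f)).2 h6
    exact ⟨c, hc.symm⟩
  · show ψ (algebraMap K Ω (w - algebraMap k K y)) = _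
    rw [map_sub, ← IsScalarTower.algebraMap_apply k K Ω, IsScalarTower.algebraMap_apply k L Ω,
      map_sub, hψL, hψw, map_add]
    ring

end

end Pool.Agent.Lib.MP_c385f6_ag
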