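import Mathlib
import Pool.Agent.Lib.MP_c385f6_ag.AllP.PlaceMain
import Pool.Agent.Lib.MP_c385f6_ag.Cpl.StEx

set_option autoImplicit false

/-!
From sections to compatible systems on large sets of points.
-/

namespace Pool.Agent.Lib.MP_c385f6_ag.Cpl

open Polynomial Finset

variable {p : ℕ} {L F : Type*} [Field L] [Field F] (S : LF p L F)

/-- powers of the uniformizer -/
theorem v_pi_pow (n : ℕ) : S.v (S.π ^ n) = n := by
  induction n with
  | zero =>
    have h1 := S.v_mul 1 1 one_ne_zero one_ne_zero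
    rw [one_mul] at h1
    rw [pow_zero, Nat.cast_zero]
    omega
  | succ n ih =>
    rw [pow_succ, S.v_mul _ _ (pow_ne_zero _ S.pi_ne) S.pi_ne, ih, S.v_pi]
    push_cast
    ring

theorem v_neg (x : L) : S.v (-x) = S.v x := by
  by_cases hx : x = 0
  · rw [hx, neg_zero]
  · have h1 := S.v_mul 1 1 one_ne_zero one_ne_zero
    rw [one_mul] at h1
    have h2 := S.v_mul (-1) (-1) (neg_ne_zero.2 one_ne_zero) (neg_ne_zero.2 one_ne_zero)
    rw [neg_mul_neg, one_mul] at h2
    have h3 := S.v_mul (-1) x (neg_ne_zero.2 one_ne_zero) hx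
    rw [neg_one_mul] at h3
    omega

/-- a sum of elements of different valuation -/
theorem v_add_lt {x y : L} (hx : x ≠ 0) (hy : y ≠ 0) (h : S.v x < S.v y) : S.v (x + y) = S.v x := by
  have h0 : x + y ≠ 0 := by
    intro h0
    have h1 : x = -y := eq_neg_of_add_eq_zero_left h0
    rw [h1, v_neg] at h
    exact lt_irrefl _ h
  have h1 := S.v_add x y hx hy h0
  have h2 := S.v_add (x + y) (-y) h0 (neg_ne_zero.2 hy) (by rw [add_neg_cancel_right]; exact hx)
  rw [add_neg_cancel_right, v_neg] at h2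
  omega

/-- A net of large depth has many points. -/
theorem card_of_net {T : Finset L} {m : ℤ} (hT : S.Net (T : Set L) m)
    (htr : ∀ n x y z, S.Cl n x y → S.Cl n y z → S.Cl n x z) (hsym : ∀ x y, S.dl x y = S.dl y x)
    {N : ℕ} (hN : (N : ℤ) ≤ m) : N ≤ T.card := by
  classical
  have h1 : ∀ i : ℕ, ∃ t ∈ T, S.Cl m (S.π ^ i) t := by
    intro i
    obtain ⟨t, ht, h⟩ := hT (S.π ^ i)
    exact ⟨t, Finset.mem_coe.1 ht, h⟩
  choose f hf hf' using h1
  have hdl : ∀ i j : ℕ, i < j → S.dl (S.π ^ i) (S.π ^ j) = i := by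
    intro i j hij
    have h2 : S.v (S.π ^ i - S.π ^ j) = i := by
      rw [sub_eq_add_neg, v_add_lt S (pow_ne_zero _ S.pi_ne)
        (neg_ne_zero.2 (pow_ne_zero _ S.pi_ne)), v_pi_pow]
      rw [v_neg, v_pi_pow, v_pi_pow]
      exact_mod_cast hij
    rw [LF.dl, h2, v_pi_pow, v_pi_pow]
    omega
  have hinj : Set.InjOn f (Finset.range N : Set ℕ) := by
    intro i hi j hj hij
    by_contra hne
    have hCl : S.Cl m (S.π ^ i) (S.π ^ j) := by
      refine htr m _ (f i) _ (hf' i) ?_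
      rw [hij]
      rcases hf' j with h | h
      · exact Or.inl h.symm
      · right
        rw [hsym]
        exact h
    have hi' : i < N := Finset.mem_range.1 hi
    have hj' : j < N := Finset.mem_range.1 hj
    rcases lt_or_gt_of_ne hne with h | h
    · rcases hCl with h3 | h3
      · have h4 := congrArg S.v h3
        rw [v_pi_pow, v_pi_pow] at h4
        omega
      · rw [hdl i j h] at h3
        omega
    · rcases hCl with h3 | h3
      · have h4 := congrArg S.v h3
        rw [v_pi_pow, v_pi_pow] at h4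
        omega
      · rw [hsym, hdl j i h] at h3
        omega
  have h5 := Finset.card_le_card_of_injOn f (s := Finset.range N) (t := T)
    (fun i _ => hf i) hinj
  rwa [Finset.card_range] at h5

/-- Three points with the same class. -/
theorem three_of_card {T R : Finset L} (hR : ∀ x, x ≠ 0 → ∃ y ∈ R, ∃ z, z ≠ 0 ∧ x = y * z ^ p)
    (hcard : R.card * 2 < T.card) {D : L → L} (hD : ∀ t ∈ T, D t ≠ 0) :
    ∃ r ∈ T, ∃ t ∈ T, ∃ u ∈ T, r ≠ t ∧ t ≠ u ∧ r ≠ u ∧ (∃ x, x ≠ 0 ∧ D r = D u * x ^ p) ∧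
      ∃ x, x ≠ 0 ∧ D t = D u * x ^ p := by
  classical
  have h1 : ∀ t, ∃ y, t ∈ T → y ∈ R ∧ ∃ z, z ≠ 0 ∧ D t = y * z ^ p := by
    intro t
    by_cases ht : t ∈ T
    · obtain ⟨y, hy, h⟩ := hR (D t) (hD t ht)
      exact ⟨y, fun _ => ⟨hy, h⟩⟩
    · exact ⟨0, fun h => absurd h ht⟩
  choose f hf using h1
  obtain ⟨y, hy, h2⟩ := Finset.exists_lt_card_fiber_of_mul_lt_card_of_maps_to (f := f)
    (fun t ht => (hf t ht).1) hcard
  obtain ⟨r, hr, t, ht, u, hu, hrt, hru, htu⟩ := Finset.two_lt_card.1 h2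
  rw [Finset.mem_filter] at hr ht hu
  obtain ⟨zr, hzr, hr'⟩ := (hf r hr.1).2
  obtain ⟨zt, hzt, ht'⟩ := (hf t ht.1).2
  obtain ⟨zu, hzu, hu'⟩ := (hf u hu.1).2
  rw [hr.2] at hr'
  rw [ht.2] at ht'
  rw [hu.2] at hu'
  refine ⟨r, hr.1, t, ht.1, u, hu.1, hrt, htu, hru, ⟨zr / zu, div_ne_zero hzr hzu, ?_⟩,
    ⟨zt / zu, div_ne_zero hzt hzu, ?_⟩⟩
  · rw [hr', hu', div_pow]
    field_simp
  · rw [ht', hu', div_pow]
    field_simp

/-- The vanishing of the symbol in terms of norms. -/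
theorem nr_of_symbol (hp : p.Prime) (hpow : ∀ x y : L, x ≠ 0 → NR p (x ^ p) y) {α β : L}
    (hα : α ≠ 0) (h : ¬ SymbolNonzero p 1 α β) : NR p α β := by
  by_cases hirr : Irreducible (X ^ p - C α : L[X])
  · by_contra hn
    apply h
    refine ⟨hirr, fun z hz => hn ⟨z, ?_⟩⟩
    rw [hz, pow_one]
  · obtain ⟨b, hb⟩ : ∃ b : L, b ^ p = α := by
      by_contra hcon
      push Not at hcon
      exact hirr (X_pow_sub_C_irreducible_of_prime hp hcon)
    rw [← hb]
    refine hpow b β ?_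
    rintro rfl
    rw [zero_pow hp.ne_zero] at hb
    exact hα hb.symm

section
variable {k K M Ω ι : Type*} [Field k] [CharZero k] [Field K] [Field M] [Field Ω]
  [Algebra k L] [Algebra k K] [Algebra k Ω] [Algebra L Ω] [Algebra K Ω] [Algebra K M]
  [Algebra L M] [Algebra M Ω] [IsScalarTower k K Ω] [IsScalarTower k L Ω] [IsScalarTower K M Ω]
  [IsScalarTower L M Ω] [IsAlgClosure K Ω] [FiniteDimensional k L] [IsGalois k L]

/-- The compatible system of a section, and the rational place if it is realised. -/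
theorem section_cmp (hp : p.Prime) (hpow : ∀ x y : L, x ≠ 0 → NR p (x ^ p) y)
    (hNR : ∀ x y, x ≠ 0 → y ≠ 0 → (S.h x y = 0 ↔ NR p x y)) {R : Finset L}
    (hR : ∀ x, x ≠ 0 → ∃ y ∈ R, ∃ z, z ≠ 0 ∧ x = y * z ^ p) {ζ : L} (hζ : IsPrimitiveRoot ζ p)
    (hpG : ¬ p ∣ Module.finrank k L)
    (hM : IntermediateField.adjoin K (Set.range (algebraMap L M)) = ⊤)
    {T : Finset L} (hT : ∀ g : L ≃ₐ[k] L, ∀ t ∈ T, g t ∈ T) (hcard : R.card * 2 < T.card)
    {w : K} (hw : Transcendental k w)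
    {c : ι → L} (hc : ∀ i, c i ≠ 0) {a : ι → L → ℕ} {z : ι → M}
    (hz : ∀ i, z i ^ p = algebraMap L M (c i) *
      ∏ t ∈ T, (algebraMap K M w - algebraMap L M t) ^ a i t)
    (hcov : ∀ t ∈ T, ∃ i, ¬ p ∣ a i t) (hsum : ∀ i, p ∣ ∑ t ∈ T, a i t)
    (hgen : IntermediateField.adjoin L (insert (algebraMap K M w) (Set.range z)) = ⊤)
    {s : AbsGal k Ω →* PiOne k K Ω} (hs : IsSection k K Ω s) :
    ∃ D : L → L → L, S.Cmp (T : Set L) D ∧
      (∀ g : L ≃ₐ[k] L, ∀ s ∈ T, ∀ t ∈ T, Eqv p (D (g s) (g t)) (g (D s t))) ∧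
      ∀ y : k, algebraMap k L y ∉ T →
        (∀ s ∈ T, ∀ t ∈ T, Eqv p (D s t) ((algebraMap k L y - s) / (algebraMap k L y - t))) →
        (∃ A : ValuationSubring K, IsRationalPlace k K A ∧
          A.valuation (w - algebraMap k K y) < 1) ∧
        ∀ r ∈ T, ∀ t ∈ T, ∃ Z : maxUnramified k K Ω,
          (∀ γ : AbsGal L Ω, s (resAbs k L Ω γ) Z = Z) ∧
          algebraMap L Ω (algebraMap k L y - r) * (algebraMap K Ω w - algebraMap L Ω t) *
            (Z : Ω) ^ p = algebraMap L Ω (algebraMap k L y - t) *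
              (algebraMap K Ω w - algebraMap L Ω r) := by
  classical
  have hT0 : T.Nonempty := by
    rw [← Finset.card_pos]
    omega
  obtain ⟨t₀, ht₀⟩ := hT0
  obtain ⟨D, Y, hD, hY0, hYfix, hYeq, hrel, hequiv⟩ := exists_data (Ω := Ω) hp hζ hM hT
    (fun h2 D hD => by
      have h3 := three_of_card hR hcard hD
      rw [h2] at h3
      exact h3) hw hc hz hcov ht₀ hs
  refine ⟨fun r t => D r / D t, ⟨?_, ?_, ?_⟩, ?_, ?_⟩
  · intro r hr t ht
    exact div_ne_zero (hD r hr) (hD t ht)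
  · intro r hr t ht u hu
    refine ⟨1, one_ne_zero, ?_⟩
    have := hD t ht
    have := hD u hu
    rw [one_pow, mul_one]
    field_simp
  · intro r hr t ht u hu hrt htu hru
    have h1 : t - u ≠ 0 := sub_ne_zero.2 htu
    have h2 : t - r ≠ 0 := sub_ne_zero.2 hrt.symm
    have h3 : r - u ≠ 0 := sub_ne_zero.2 hru
    have h4 : r - t ≠ 0 := sub_ne_zero.2 hrt
    have hα : D r / D u * ((t - u) / (t - r)) ≠ 0 :=
      mul_ne_zero (div_ne_zero (hD r hr) (hD u hu)) (div_ne_zero h1 h2)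
    have hβ : D t / D u * ((r - u) / (r - t)) ≠ 0 :=
      mul_ne_zero (div_ne_zero (hD t ht) (hD u hu)) (div_ne_zero h3 h4)
    exact (hNR _ _ hα hβ).2 (nr_of_symbol hp hpow hα (hrel r hr t ht u hu hrt htu hru))
  · intro g r hr t ht
    obtain ⟨e, he, h⟩ := hequiv g r hr t ht
    exact ⟨e, he, h⟩
  · intro y hy hval
    have hsub : ∀ t : L, algebraMap K Ω w - algebraMap L Ω t ≠ 0 := fun t =>
      sub_const_ne_zero (k := k) hw t
    have hys : ∀ t ∈ T, algebraMap k L y - t ≠ 0 := by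
      intro t ht h
      rw [sub_eq_zero] at h
      rw [h] at hy
      exact hy ht
    refine ⟨place_of_values hp hζ hpG hM hT hw hz hsum hgen ht₀ hs hY0 hYfix hYeq hy
      fun t ht => hval t ht t₀ ht₀, ?_⟩
    intro r hr t ht
    obtain ⟨e, he, h⟩ := hval r hr t ht
    let ce : maxUnramified k K Ω := constHom k K Ω (embL k L Ω e)
    refine ⟨ce * (Y r / Y t), ?_, ?_⟩
    · intro γ
      have h1 : s (resAbs k L Ω γ) ce = ce := by
        apply Subtype.ext
        rw [hs.restrict _ (embL k L Ω e) _ rfl,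
          resAbs_apply γ (c := embL k L Ω e) (d := algebraMap L _ e) rfl, AlgEquiv.commutes]
        rfl
      rw [map_mul, map_div₀, h1, hYfix r hr, hYfix t ht]
    · have e1 : ((ce * (Y r / Y t) : maxUnramified k K Ω) : Ω) =
          algebraMap L Ω e * ((Y r : Ω) / (Y t : Ω)) := rfl
      have hYt : (Y t : Ω) ≠ 0 := fun h => hY0 t ht (Subtype.ext h)
      have q1 := hYeq r hr
      have q2 := hYeq t ht
      have hDr : algebraMap L Ω (D r) ≠ 0 := (_root_.map_ne_zero _).2 (hD r hr)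
      have hDt : algebraMap L Ω (D t) ≠ 0 := (_root_.map_ne_zero _).2 (hD t ht)
      have q3 := congrArg (algebraMap L Ω) h
      rw [map_div₀, map_mul, map_div₀, map_pow] at q3
      have hyr : algebraMap L Ω (algebraMap k L y - r) ≠ 0 := (_root_.map_ne_zero _).2 (hys r hr)
      have hyt : algebraMap L Ω (algebraMap k L y - t) ≠ 0 := (_root_.map_ne_zero _).2 (hys t ht)
      have hwr := hsub r
      have hwt := hsub t
      have hw0 := hsub t₀
      have r1 : (Y r : Ω) ^ p = (algebraMap K Ω w - algebraMap L Ω r) /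
          (algebraMap K Ω w - algebraMap L Ω t₀) / algebraMap L Ω (D r) := by
        rw [← q1]
        field_simp
      have r2 : (Y t : Ω) ^ p = (algebraMap K Ω w - algebraMap L Ω t) /
          (algebraMap K Ω w - algebraMap L Ω t₀) / algebraMap L Ω (D t) := by
        rw [← q2]
        field_simp
      have r3 : algebraMap L Ω e ^ p = algebraMap L Ω (D r) / algebraMap L Ω (D t) *
          (algebraMap L Ω (algebraMap k L y - t) / algebraMap L Ω (algebraMap k L y - r)) := by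
        rw [q3]
        field_simp
      rw [e1, mul_pow, div_pow, r1, r2, r3]
      field_simp

end

end Pool.Agent.Lib.MP_c385f6_ag.Cpl
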