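import Mathlib
import Pool.Agent.Lib.MP_c385f6_ag.KummerForms
import Pool.Agent.Lib.MP_c385f6_ag.FormsConics
import Pool.Agent.Lib.MP_c385f6_ag.AllP.Twists

set_option autoImplicit false

/-!
Covers of the line by adjoining `p`-th roots of polynomials in `w`: twists and relations at the
points over which the ramification is divisible by `p`.
-/

namespace Pool.Agent.Lib.MP_c385f6_ag

open Finset Polynomial

/-- The ramification over `w = b` is divisible by `p`. -/
def RamAt {k K : Type*} [Field k] [Field K] [Algebra k K] (p : ℕ) (w : K) (b : k) : Prop :=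
  ∀ A : ValuationSubring K, (∀ c : k, algebraMap k K c ∈ A) → ∃ h : K, h ≠ 0 ∧
    ((w ∈ A ∧ A.valuation (w - algebraMap k K b) = A.valuation (h ^ p)) ∨
      (w ∉ A ∧ A.valuation (w - algebraMap k K b) = A.valuation (w * h ^ p)))

section
variable {k K : Type*} [Field k] [Field K] [Algebra k K]

/-- Ramification from a `p`-th root of a polynomial. -/
theorem ramAt_of_poly {p : ℕ} (hp : p.Prime) {w : K} (hw : Transcendental k w) {b : k}
    {h : k[X]} (hh : h ≠ 0) {z : K} (hz : z ^ p = aeval w h) (hm : ¬ p ∣ h.rootMultiplicity b) :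
    RamAt p w b := by
  classical
  intro A hA
  have hwb : w ≠ algebraMap k K b := by
    rintro rfl
    exact hw (isAlgebraic_algebraMap _)
  have hcv : ∀ c : k, A.valuation (algebraMap k K c) ≤ 1 := fun c =>
    (A.valuation_le_one_iff _).2 (hA c)
  have hcv1 : ∀ c : k, c ≠ 0 → A.valuation (algebraMap k K c) = 1 := by
    intro c hc
    refine le_antisymm (hcv c) ?_
    have h1 := hcv c⁻¹
    rw [map_inv₀, map_inv₀] at h1
    have h2 : A.valuation (algebraMap k K c) ≠ 0 :=
      (Valuation.ne_zero_iff _).2 ((_root_.map_ne_zero _).2 hc)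
    exact (inv_le_one₀ (zero_lt_iff.2 h2)).1 h1
  have hz0 : z ≠ 0 := by
    rintro rfl
    rw [zero_pow hp.ne_zero] at hz
    exact hw ⟨h, hh, hz.symm⟩
  -- roots of values
  have hroot : ∀ (y z : K) (m : ℕ), y ≠ 0 → z ≠ 0 → ¬ p ∣ m →
      A.valuation (z ^ p) = A.valuation y ^ m → ∃ h : K, h ≠ 0 ∧
        A.valuation y = A.valuation (h ^ p) := by
    intro y z m hy hz hm h1
    have h2 : IsCoprime (m : ℤ) (p : ℤ) :=
      Nat.isCoprime_iff_coprime.2 ((Nat.Prime.coprime_iff_not_dvd hp).2 hm).symm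
    obtain ⟨u, v, huv⟩ := h2
    refine ⟨z ^ u * y ^ v, mul_ne_zero (zpow_ne_zero _ hz) (zpow_ne_zero _ hy), ?_⟩
    have hvy : A.valuation y ≠ 0 := (Valuation.ne_zero_iff _).2 hy
    have h3 : A.valuation ((z ^ u * y ^ v) ^ p) =
        (A.valuation (z ^ p)) ^ u * (A.valuation y) ^ (v * (p : ℤ)) := by
      rw [mul_pow, map_mul, map_pow, map_pow, map_zpow₀, map_zpow₀, map_pow, zpow_mul,
        ← zpow_natCast, ← zpow_natCast (A.valuation z), ← zpow_natCast (A.valuation y ^ v),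
        ← zpow_mul, ← zpow_mul (A.valuation z), mul_comm u]
    rw [h3, h1, ← zpow_natCast, ← zpow_mul, ← zpow_add₀ hvy]
    have h4 : (m : ℤ) * u + v * (p : ℤ) = 1 := by linarith
    rw [h4, zpow_one]
  by_cases hwA : w ∈ A
  · have hle : A.valuation (w - algebraMap k K b) ≤ 1 :=
      (A.valuation_le_one_iff _).2 (sub_mem hwA (hA _))
    rcases hle.lt_or_eq with h1 | h1
    · obtain ⟨q, hq, hq'⟩ := exists_eq_pow_rootMultiplicity_mul_and_not_dvd h hh b
      rw [dvd_iff_isRoot, IsRoot.def] at hq'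
      -- the value of the other factor
      have hqA : ∀ r : k[X], aeval w r ∈ A := by
        intro r
        rw [aeval_eq_sum_range]
        refine sum_mem fun i _ => ?_
        rw [Algebra.smul_def]
        exact mul_mem (hA _) (pow_mem hwA _)
      obtain ⟨r, hr⟩ := X_sub_C_dvd_sub_C_eval (p := q) (a := b)
      have h2 : A.valuation (aeval w q) = 1 := by
        have h3 : aeval w q = (w - algebraMap k K b) * aeval w r + algebraMap k K (q.eval b) := by
          have h4 := congrArg (aeval w) hr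
          rw [map_sub, aeval_C, map_mul, map_sub, aeval_X, aeval_C] at h4
          rw [← h4]
          ring
        have h5 : A.valuation ((w - algebraMap k K b) * aeval w r) < 1 := by
          rw [map_mul]
          exact mul_lt_one_of_nonneg_of_lt_one_left zero_le h1
            ((A.valuation_le_one_iff _).2 (hqA r))
        rw [h3, Valuation.map_add_eq_of_lt_right _ (by rw [hcv1 _ hq']; exact h5), hcv1 _ hq']
      obtain ⟨h', hh', hv⟩ := hroot (w - algebraMap k K b) z (h.rootMultiplicity b)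
        (sub_ne_zero.2 hwb) hz0 hm (by
          rw [hz]
          conv_lhs => rw [hq]
          rw [map_mul, map_mul, h2, mul_one, map_pow, map_pow, map_sub, aeval_X, aeval_C])
      exact ⟨h', hh', Or.inl ⟨hwA, hv⟩⟩
    · exact ⟨1, one_ne_zero, Or.inl ⟨hwA, by simp [h1]⟩⟩
  · have hw1 : 1 < A.valuation w := by
      rw [← not_le, A.valuation_le_one_iff]
      exact hwA
    refine ⟨1, one_ne_zero, Or.inr ⟨hwA, ?_⟩⟩
    rw [one_pow, mul_one, sub_eq_add_neg, ← map_neg (algebraMap k K)]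
    exact Valuation.map_add_eq_of_lt_left _ ((hcv _).trans_lt hw1)

end

section
variable {k K Ω κ : Type*} [Field k] [CharZero k] [Field K] [Algebra k K] [Field Ω]
  [Algebra k Ω] [Algebra K Ω] [IsScalarTower k K Ω] [IsAlgClosure K Ω]

/-- The twists of a section: `D j * Y j ^ p = (w - b j) / (w - b j₀)`. -/
theorem ram_twists {p : ℕ} (hp : p.Prime) {b : κ → k} {w : K} (hram : ∀ j, RamAt p w (b j))
    (j₀ : κ) {s : AbsGal k Ω →* PiOne k K Ω} (hs : IsSection k K Ω s) :
    ∃ (D : κ → k) (Y : κ → maxUnramified k K Ω), (∀ j, D j ≠ 0) ∧ (∀ j g, s g (Y j) = Y j) ∧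
      ∀ j, algebraMap k Ω (D j) * (Y j : Ω) ^ p =
        algebraMap K Ω ((w - algebraMap k K (b j)) / (w - algebraMap k K (b j₀))) := by
  classical
  obtain ⟨d, Y, hd, hYs, hY⟩ := exists_twists_pow (α := fun _ : κ => (1 : k))
    (β := fun j => -b j) (w := w) hp.ne_zero
    (fun A hA j => by
      rw [form_one]
      exact hram j A hA) hs j₀
  refine ⟨fun j => (d j)⁻¹, fun j => Y j, fun j => inv_ne_zero (hd _),
    fun j g => hYs _ g, fun j => ?_⟩
  have h1 := hY j
  rw [form_one, form_one] at h1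
  have h2 : algebraMap k Ω (d j) ≠ 0 := (_root_.map_ne_zero _).2 (hd _)
  rw [h1, map_inv₀]
  field_simp

/-- The relations for `p = 2`, if three of the twists agree up to squares. -/
theorem ram_relation_two {b : κ → k} (hb : Function.Injective b) {w : K}
    (hram : ∀ j, RamAt 2 w (b j)) {j₀ : κ}
    {s : AbsGal k Ω →* PiOne k K Ω} (hs : IsSection k K Ω s) {D : κ → k}
    {Y : κ → maxUnramified k K Ω} (hD : ∀ j, D j ≠ 0) (hYs : ∀ j g, s g (Y j) = Y j)
    (hY : ∀ j, algebraMap k Ω (D j) * (Y j : Ω) ^ 2 =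
        algebraMap K Ω ((w - algebraMap k K (b j)) / (w - algebraMap k K (b j₀))))
    {r t u : κ} (hrt : r ≠ t) (htu : t ≠ u) (hru : r ≠ u) {x y : k} (hx0 : x ≠ 0) (hy0 : y ≠ 0)
    (hx : D r = D u * x ^ 2) (hy : D t = D u * y ^ 2) {i j l : κ} (hij : i ≠ j) (hjl : j ≠ l)
    (hil : i ≠ l) :
    ¬ SymbolNonzero 2 1 (D i / D l * ((b j - b l) / (b j - b i)))
      (D j / D l * ((b i - b l) / (b i - b j))) := by
  have hram' : ∀ A : ValuationSubring K, (∀ c : k, algebraMap k K c ∈ A) → ∀ j : κ,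
      ∃ h : K, h ≠ 0 ∧
      ((w ∈ A ∧ A.valuation (form (fun _ => 1) (fun j => -b j) w j) = A.valuation (h ^ 2)) ∨
        (w ∉ A ∧ A.valuation (form (fun _ => 1) (fun j => -b j) w j) =
          A.valuation (w * h ^ 2))) := by
    intro A hA j
    rw [form_one]
    exact hram j A hA
  have hne : ∀ i j : κ, i ≠ j → (fun _ : κ => (1 : k)) i * (fun j => -b j) j ≠
      (fun _ : κ => (1 : k)) j * (fun j => -b j) i := by
    intro i j hij h
    simp only [one_mul, neg_inj] at h
    exact hij (hb h).symm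
  have hsubb : ∀ i j : κ, i ≠ j → b i - b j ≠ 0 := fun i j hij => sub_ne_zero.2 fun h => hij (hb h)
  have hY' : ∀ j, (Y j : Ω) ^ 2 = algebraMap k Ω ((D j)⁻¹) *
      algebraMap K Ω (form (fun _ => 1) (fun j => -b j) w j /
        form (fun _ => 1) (fun j => -b j) w j₀) := by
    intro j
    have h2 : algebraMap k Ω (D j) ≠ 0 := (_root_.map_ne_zero _).2 (hD _)
    rw [form_one, form_one, ← hY j, map_inv₀, inv_mul_cancel_left₀ h2]
  have hpt : ConicPoint (fun _ : κ => (1 : k)) (fun j => -b j) (fun j => (D j)⁻¹) r t u := by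
    refine ⟨x⁻¹, y⁻¹, ?_⟩
    have h3 := hD u
    show (1 * -b u - 1 * -b t) * (D t)⁻¹ * (D u)⁻¹ * x⁻¹ ^ 2 +
      (1 * -b r - 1 * -b u) * (D u)⁻¹ * (D r)⁻¹ * y⁻¹ ^ 2 +
      (1 * -b t - 1 * -b r) * (D r)⁻¹ * (D t)⁻¹ = 0
    rw [hx, hy]
    field_simp
    ring
  obtain ⟨X, Z, hXZ⟩ := forms_conics hne hram' hs (d := fun j => (D j)⁻¹)
    (fun j => inv_ne_zero (hD j)) hYs hY' hrt htu hru hpt hij hjl hil
  intro hsym
  have hζ : IsPrimitiveRoot (-1 : k) 2 := IsPrimitiveRoot.neg_one 0 (by norm_num)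
  refine symbol_point hζ hsym (x := 1) (y := X) (z := Z) (Or.inl one_ne_zero) ?_
  have h1 := hD i
  have h2 := hD j
  have h3 := hD l
  have h4 := hsubb j i hij.symm
  have h5 : b i - b j = -(b j - b i) := by ring
  change (1 * -b l - 1 * -b j) * (D j)⁻¹ * (D l)⁻¹ * X ^ 2 +
      (1 * -b i - 1 * -b l) * (D l)⁻¹ * (D i)⁻¹ * Z ^ 2 +
      (1 * -b j - 1 * -b i) * (D i)⁻¹ * (D j)⁻¹ = 0 at hXZ
  rw [h5]
  field_simp at hXZ ⊢
  linear_combination -hXZ

/-- The relations between the twists of a section, for every `p`. -/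
theorem ram_relation {p : ℕ} (hp : p.Prime) {ζ : k} (hζ : IsPrimitiveRoot ζ p) {b : κ → k}
    (hb : Function.Injective b) {w : K} (hw : Transcendental k w)
    (hram : ∀ j, RamAt p w (b j)) {j₀ : κ}
    {s : AbsGal k Ω →* PiOne k K Ω} (hs : IsSection k K Ω s) {D : κ → k}
    {Y : κ → maxUnramified k K Ω} (hD : ∀ j, D j ≠ 0) (hYs : ∀ j g, s g (Y j) = Y j)
    (hY : ∀ j, algebraMap k Ω (D j) * (Y j : Ω) ^ p =
        algebraMap K Ω ((w - algebraMap k K (b j)) / (w - algebraMap k K (b j₀))))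
    (hbig : p = 2 → ∃ r t u, r ≠ t ∧ t ≠ u ∧ r ≠ u ∧ (∃ x, x ≠ 0 ∧ D r = D u * x ^ 2) ∧
      ∃ x, x ≠ 0 ∧ D t = D u * x ^ 2)
    {r t u : κ} (hrt : r ≠ t) (htu : t ≠ u) (hru : r ≠ u) :
    ¬ SymbolNonzero p 1 (D r / D u * ((b t - b u) / (b t - b r)))
      (D t / D u * ((b r - b u) / (b r - b t))) := by
  by_cases hp2 : p = 2
  · subst hp2
    obtain ⟨r', t', u', h1, h2, h3, ⟨x, hx0, hx⟩, ⟨y, hy0, hy⟩⟩ := hbig rfl
    exact ram_relation_two hb hram hs hD hYs hY h1 h2 h3 hx0 hy0 hx hy hrt htu hru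
  have hsub : ∀ t : k, algebraMap K Ω w - algebraMap k Ω t ≠ 0 := by
    intro t h
    rw [sub_eq_zero, IsScalarTower.algebraMap_apply k K Ω] at h
    apply hw
    rw [(algebraMap K Ω).injective h]
    exact isAlgebraic_algebraMap _
  have hYeq : ∀ t, algebraMap k Ω (D t) * (Y t : Ω) ^ p =
      (algebraMap K Ω w - algebraMap k Ω (b t)) / (algebraMap K Ω w - algebraMap k Ω (b j₀)) := by
    intro t
    rw [hY t, map_div₀, map_sub, map_sub, ← IsScalarTower.algebraMap_apply k K Ω,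
      ← IsScalarTower.algebraMap_apply k K Ω]
  have hY0 : ∀ t, Y t ≠ 0 := by
    intro t h
    have h1 := hYeq t
    rw [h] at h1
    have h2 : ((0 : maxUnramified k K Ω) : Ω) = 0 := rfl
    rw [h2, zero_pow hp.ne_zero, mul_zero] at h1
    exact div_ne_zero (hsub _) (hsub _) h1.symm
  refine pair_relation hp hp2 hζ hs (X := Y r / Y u) (Y := Y t / Y u)
    (div_ne_zero (hY0 _) (hY0 _)) (div_ne_zero (hY0 _) (hY0 _))
    (fun g => by rw [map_div₀, hYs, hYs]) (fun g => by rw [map_div₀, hYs, hYs]) ?_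
  have e1 : ((Y r / Y u : maxUnramified k K Ω) : Ω) = (Y r : Ω) / (Y u : Ω) := rfl
  have e2 : ((Y t / Y u : maxUnramified k K Ω) : Ω) = (Y t : Ω) / (Y u : Ω) := rfl
  rw [e1, e2]
  have hDu : algebraMap k Ω (D u) ≠ 0 := (_root_.map_ne_zero _).2 (hD u)
  have hYu : (Y u : Ω) ≠ 0 := fun h => hY0 u (Subtype.ext h)
  have hr' := hYeq r
  have ht' := hYeq t
  have hu' := hYeq u
  have n0 := hsub (b j₀)
  have nu := hsub (b u)
  have q1 : algebraMap k Ω (D r) * (Y r : Ω) ^ p / (algebraMap k Ω (D u) * (Y u : Ω) ^ p) =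
      (algebraMap K Ω w - algebraMap k Ω (b r)) / (algebraMap K Ω w - algebraMap k Ω (b u)) := by
    rw [hr', hu']
    field_simp
  have q2 : algebraMap k Ω (D t) * (Y t : Ω) ^ p / (algebraMap k Ω (D u) * (Y u : Ω) ^ p) =
      (algebraMap K Ω w - algebraMap k Ω (b t)) / (algebraMap K Ω w - algebraMap k Ω (b u)) := by
    rw [ht', hu']
    field_simp
  have htr : algebraMap k Ω (b t) - algebraMap k Ω (b r) ≠ 0 := by
    rw [← map_sub]
    exact (_root_.map_ne_zero _).2 (sub_ne_zero.2 fun h => hrt (hb h).symm)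
  have hrt' : algebraMap k Ω (b r) - algebraMap k Ω (b t) ≠ 0 := by
    rw [← map_sub]
    exact (_root_.map_ne_zero _).2 (sub_ne_zero.2 fun h => hrt (hb h))
  have f1 : algebraMap k Ω (D r / D u * ((b t - b u) / (b t - b r))) *
      ((Y r : Ω) / (Y u : Ω)) ^ p =
      (algebraMap K Ω w - algebraMap k Ω (b r)) / (algebraMap K Ω w - algebraMap k Ω (b u)) *
        ((algebraMap k Ω (b t) - algebraMap k Ω (b u)) /
          (algebraMap k Ω (b t) - algebraMap k Ω (b r))) := by
    rw [← q1, map_mul, map_div₀, map_div₀, map_sub, map_sub, div_pow]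
    field_simp
  have f2 : algebraMap k Ω (D t / D u * ((b r - b u) / (b r - b t))) *
      ((Y t : Ω) / (Y u : Ω)) ^ p =
      (algebraMap K Ω w - algebraMap k Ω (b t)) / (algebraMap K Ω w - algebraMap k Ω (b u)) *
        ((algebraMap k Ω (b r) - algebraMap k Ω (b u)) /
          (algebraMap k Ω (b r) - algebraMap k Ω (b t))) := by
    rw [← q2, map_mul, map_div₀, map_div₀, map_sub, map_sub, div_pow]
    field_simp
  rw [f1, f2]
  have hneg : algebraMap k Ω (b r) - algebraMap k Ω (b t) =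
      -(algebraMap k Ω (b t) - algebraMap k Ω (b r)) := by
    ring
  rw [hneg]
  field_simp
  ring

end

end Pool.Agent.Lib.MP_c385f6_ag
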