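import Mathlib
import Pool.Agent.Lib.MP_c385f6_ag.AllP.Ram
import Pool.Agent.Lib.MP_c385f6_ag.AllP.Data

set_option autoImplicit false

/-!
The data attached to a section of `π₁(X) → Gal_k` and a finite set of points of the line over a
finite extension of `k` over which the ramification is divisible by `p`.
-/

namespace Pool.Agent.Lib.MP_c385f6_ag

open Finset

section
variable {k L K M Ω : Type*} [Field k] [CharZero k] [Field L] [Field K] [Field M] [Field Ω]
  [Algebra k L] [Algebra k K] [Algebra k Ω] [Algebra L Ω] [Algebra K Ω] [Algebra K M]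
  [Algebra L M] [Algebra M Ω] [IsScalarTower k K Ω] [IsScalarTower k L Ω] [IsScalarTower K M Ω]
  [IsScalarTower L M Ω] [IsAlgClosure K Ω] [FiniteDimensional k L]

/-- A constant that is fixed by `s(Gal_L)` is in `L`. -/
theorem fixed_const_base (hM : IntermediateField.adjoin K (Set.range (algebraMap L M)) = ⊤)
    {s : AbsGal k Ω →* PiOne k K Ω} (hs : IsSection k K Ω s) {E : maxUnramified k K Ω}
    (hE : ∀ γ : AbsGal L Ω, s (resAbs k L Ω γ) E = E) (halg : (E : Ω) ∈ algebraicClosure L Ω) :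
    ∃ e : L, (E : Ω) = algebraMap L Ω e := by
  have hacO : IsAlgClosed Ω := IsAlgClosure.isAlgClosed K
  have halgO : Algebra.IsAlgebraic K Ω := IsAlgClosure.isAlgebraic
  have halgM : Algebra.IsAlgebraic M Ω := Algebra.IsAlgebraic.tower_top (K := K) M
  have hclM : IsAlgClosure M Ω := ⟨hacO, halgM⟩
  have hcL : CharZero L := charZero_of_injective_algebraMap (algebraMap k L).injective
  obtain ⟨s', hs', hcomp⟩ := exists_base_section k L K M Ω hM hs
  have hmem := mem_ur_iff_base (k := k) (L := L) (K := K) (M := M) (Ω := Ω) hM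
  exact fixed_const (k := L) (K := M) hs' (z := ⟨(E : Ω), (hmem _).2 E.2⟩) (by
    intro γ
    apply Subtype.ext
    rw [hcomp γ _ E rfl, hE]) halg

/-- The data attached to a section and a finite set of points over `L`. -/
theorem data_base {p : ℕ} (hp : p.Prime) {ζ : L} (hζ : IsPrimitiveRoot ζ p)
    (hM : IntermediateField.adjoin K (Set.range (algebraMap L M)) = ⊤)
    {T : Finset L} {w : K} (hw : Transcendental k w)
    (hram : ∀ t ∈ T, RamAt p (algebraMap K M w) t) {t₀ : L} (ht₀ : t₀ ∈ T)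
    {s : AbsGal k Ω →* PiOne k K Ω} (hs : IsSection k K Ω s) :
    ∃ (D : L → L) (Y : L → maxUnramified k K Ω),
      (∀ t ∈ T, D t ≠ 0) ∧ (∀ t ∈ T, Y t ≠ 0) ∧
      (∀ t ∈ T, ∀ γ : AbsGal L Ω, s (resAbs k L Ω γ) (Y t) = Y t) ∧
      (∀ t ∈ T, algebraMap L Ω (D t) * (Y t : Ω) ^ p =
        (algebraMap K Ω w - algebraMap L Ω t) / (algebraMap K Ω w - algebraMap L Ω t₀)) ∧
      ((p = 2 → ∃ r ∈ T, ∃ t ∈ T, ∃ u ∈ T, r ≠ t ∧ t ≠ u ∧
        r ≠ u ∧ (∃ x, x ≠ 0 ∧ D r = D u * x ^ 2) ∧ ∃ x, x ≠ 0 ∧ D t = D u * x ^ 2) →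
      ∀ r ∈ T, ∀ t ∈ T, ∀ u ∈ T, r ≠ t → t ≠ u → r ≠ u →
        ¬ SymbolNonzero p 1 (D r / D u * ((t - u) / (t - r))) (D t / D u * ((r - u) / (r - t)))) := by
  classical
  have hacO : IsAlgClosed Ω := IsAlgClosure.isAlgClosed K
  have halgO : Algebra.IsAlgebraic K Ω := IsAlgClosure.isAlgebraic
  have halgM : Algebra.IsAlgebraic M Ω := Algebra.IsAlgebraic.tower_top (K := K) M
  have hclM : IsAlgClosure M Ω := ⟨hacO, halgM⟩
  have hcL : CharZero L := charZero_of_injective_algebraMap (algebraMap k L).injective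
  obtain ⟨s', hs', hcomp⟩ := exists_base_section k L K M Ω hM hs
  have hmem := mem_ur_iff_base (k := k) (L := L) (K := K) (M := M) (Ω := Ω) hM
  have hKM : ∀ x : K, algebraMap M Ω (algebraMap K M x) = algebraMap K Ω x := fun x =>
    (IsScalarTower.algebraMap_apply K M Ω x).symm
  have hLM : ∀ x : L, algebraMap M Ω (algebraMap L M x) = algebraMap L Ω x := fun x =>
    (IsScalarTower.algebraMap_apply L M Ω x).symm
  have hsub : ∀ t : L, algebraMap K Ω w - algebraMap L Ω t ≠ 0 := fun t =>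
    sub_const_ne_zero (k := k) hw t
  have hwM : Transcendental L (algebraMap K M w) := by
    intro h
    have h1 : IsAlgebraic L (algebraMap K Ω w) := by
      rw [← hKM]
      exact h.algebraMap
    have h2 : IsAlgebraic k (algebraMap K Ω w) := h1.restrictScalars k
    exact hw ((isAlgebraic_algebraMap_iff (algebraMap K Ω).injective).1 h2)
  obtain ⟨D₁, Y₁, hD₁, hY₁s, hY₁⟩ := ram_twists (k := L) (K := M) (Ω := Ω) hp
    (b := fun j : T => (j : L)) (w := algebraMap K M w) (fun j => hram j j.2) ⟨t₀, ht₀⟩ hs'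
  let D : L → L := fun t => if h : t ∈ T then D₁ ⟨t, h⟩ else 1
  let Y : L → maxUnramified k K Ω := fun t => if h : t ∈ T then ⟨Y₁ ⟨t, h⟩, (hmem _).1 (Y₁ ⟨t, h⟩).2⟩
    else 1
  have hD : ∀ (t) (h : t ∈ T), D t = D₁ ⟨t, h⟩ := fun t h => dif_pos h
  have hYv : ∀ (t) (h : t ∈ T), ((Y t : maxUnramified k K Ω) : Ω) = Y₁ ⟨t, h⟩ := by
    intro t h
    show ((if h : t ∈ T then ⟨Y₁ ⟨t, h⟩, (hmem _).1 (Y₁ ⟨t, h⟩).2⟩
      else 1 : maxUnramified k K Ω) : Ω) = _
    rw [dif_pos h]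
  have hDn : ∀ t ∈ T, D t ≠ 0 := fun t ht => by rw [hD t ht]; exact hD₁ _
  have hYeq : ∀ t ∈ T, algebraMap L Ω (D t) * (Y t : Ω) ^ p =
      (algebraMap K Ω w - algebraMap L Ω t) / (algebraMap K Ω w - algebraMap L Ω t₀) := by
    intro t ht
    rw [hD t ht, hYv t ht, hY₁ ⟨t, ht⟩, map_div₀, map_sub, map_sub, hKM, hLM, hLM]
  have hYn : ∀ t ∈ T, Y t ≠ 0 := by
    intro t ht h
    have h1 := hYeq t ht
    rw [h] at h1
    have h2 : ((0 : maxUnramified k K Ω) : Ω) = 0 := rfl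
    rw [h2, zero_pow hp.ne_zero, mul_zero] at h1
    exact div_ne_zero (hsub _) (hsub _) h1.symm
  have hYfix : ∀ t ∈ T, ∀ γ : AbsGal L Ω, s (resAbs k L Ω γ) (Y t) = Y t := by
    intro t ht γ
    apply Subtype.ext
    rw [← hcomp γ (Y₁ ⟨t, ht⟩) (Y t) (hYv t ht).symm, hY₁s, hYv t ht]
  refine ⟨D, Y, hDn, hYn, hYfix, hYeq, ?_⟩
  intro hbig r hr t ht u hu hrt htu hru
  have h4 := ram_relation (k := L) (K := M) (Ω := Ω) hp hζ
    (b := fun j : T => (j : L)) Subtype.val_injective hwM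
    (fun j => hram j j.2) (j₀ := ⟨t₀, ht₀⟩) hs' hD₁ hY₁s hY₁ (by
      intro hp2
      obtain ⟨r', hr', t', ht', u', hu', h1, h2, h3, ⟨x, hx0, hx⟩, ⟨y, hy0, hy⟩⟩ := hbig hp2
      rw [hD r' hr', hD u' hu'] at hx
      rw [hD t' ht', hD u' hu'] at hy
      exact ⟨⟨r', hr'⟩, ⟨t', ht'⟩, ⟨u', hu'⟩, fun h => h1 (congrArg Subtype.val h),
        fun h => h2 (congrArg Subtype.val h), fun h => h3 (congrArg Subtype.val h),
        ⟨x, hx0, hx⟩, ⟨y, hy0, hy⟩⟩)
    (r := ⟨r, hr⟩) (t := ⟨t, ht⟩) (u := ⟨u, hu⟩) (fun h => hrt (congrArg Subtype.val h))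
    (fun h => htu (congrArg Subtype.val h)) (fun h => hru (congrArg Subtype.val h))
  rw [hD r hr, hD t ht, hD u hu]
  exact h4

variable [IsGalois k L]

/-- Equivariance of the twists. -/
theorem data_equiv {p : ℕ} (hp : p.Prime)
    (hM : IntermediateField.adjoin K (Set.range (algebraMap L M)) = ⊤)
    {T : Finset L} (hT : ∀ g : L ≃ₐ[k] L, ∀ t ∈ T, g t ∈ T) {w : K} (hw : Transcendental k w)
    {t₀ : L} {s : AbsGal k Ω →* PiOne k K Ω} (hs : IsSection k K Ω s)
    {D : L → L} {Y : L → maxUnramified k K Ω} (hDn : ∀ t ∈ T, D t ≠ 0) (hYn : ∀ t ∈ T, Y t ≠ 0)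
    (hYfix : ∀ t ∈ T, ∀ γ : AbsGal L Ω, s (resAbs k L Ω γ) (Y t) = Y t)
    (hYeq : ∀ t ∈ T, algebraMap L Ω (D t) * (Y t : Ω) ^ p =
        (algebraMap K Ω w - algebraMap L Ω t) / (algebraMap K Ω w - algebraMap L Ω t₀)) :
    ∀ g : L ≃ₐ[k] L, ∀ r ∈ T, ∀ t ∈ T, ∃ e : L, e ≠ 0 ∧
        D (g r) / D (g t) = g (D r / D t) * e ^ p := by
  have hacF : IsAlgClosed Ω := IsAlgClosure.isAlgClosed K
  have hcl : IsAlgClosure k (algebraicClosure k Ω) := inferInstance
  have hn : Normal k (algebraicClosure k Ω) := IsAlgClosure.normal k _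
  have hg : IsGalois k (algebraicClosure k Ω) := {}
  have hsub : ∀ t : L, algebraMap K Ω w - algebraMap L Ω t ≠ 0 := fun t =>
    sub_const_ne_zero (k := k) hw t
  intro g r hr t ht
  obtain ⟨h, hh⟩ := exists_lift (embL k L Ω) g
  -- the quotient of two roots
  have hgr := hT g r hr
  have hgt := hT g t ht
  let E : maxUnramified k K Ω := s h (Y r / Y t) / (Y (g r) / Y (g t))
  have hEfix : ∀ γ : AbsGal L Ω, s (resAbs k L Ω γ) E = E := by
    intro γ
    have h1 := section_conj (s := s) hh (Y := Y r / Y t)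
      (fun γ => by rw [map_div₀, hYfix r hr, hYfix t ht]) γ
    have h2 : s (resAbs k L Ω γ) (Y (g r) / Y (g t)) = Y (g r) / Y (g t) := by
      rw [map_div₀, hYfix _ hgr, hYfix _ hgt]
    exact (map_div₀ (s (resAbs k L Ω γ)) _ _).trans (congrArg₂ (· / ·) h1 h2)
  have hcst : ∀ (x : L) (z : maxUnramified k K Ω), (z : Ω) = algebraMap L Ω x →
      ((s h z : maxUnramified k K Ω) : Ω) = algebraMap L Ω (g x) := by
    intro x z hz
    rw [hs.restrict h (embL k L Ω x) z hz, hh]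
    rfl
  -- powers
  have hq : ∀ r ∈ T, ∀ t ∈ T,
      algebraMap L Ω (D r / D t) * ((Y r / Y t : maxUnramified k K Ω) : Ω) ^ p =
      (algebraMap K Ω w - algebraMap L Ω r) / (algebraMap K Ω w - algebraMap L Ω t) := by
    intro r hr t ht
    have e1 : ((Y r / Y t : maxUnramified k K Ω) : Ω) = (Y r : Ω) / (Y t : Ω) := rfl
    have n0 := hsub t₀
    have nt := hsub t
    have hDt : algebraMap L Ω (D t) ≠ 0 := (map_ne_zero _).2 (hDn t ht)
    have hYt : (Y t : Ω) ≠ 0 := fun h => hYn t ht (Subtype.ext h)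
    have h1 : algebraMap L Ω (D r) * (Y r : Ω) ^ p / (algebraMap L Ω (D t) * (Y t : Ω) ^ p) =
        (algebraMap K Ω w - algebraMap L Ω r) / (algebraMap K Ω w - algebraMap L Ω t) := by
      rw [hYeq r hr, hYeq t ht]
      field_simp
    rw [e1, ← h1, map_div₀, div_pow]
    field_simp
  have hsh : algebraMap L Ω (g (D r / D t)) * ((s h (Y r / Y t) : maxUnramified k K Ω) : Ω) ^ p =
      (algebraMap K Ω w - algebraMap L Ω (g r)) / (algebraMap K Ω w - algebraMap L Ω (g t)) := by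
    let cD : maxUnramified k K Ω := constHom k K Ω (embL k L Ω (D r / D t))
    let cr : maxUnramified k K Ω := constHom k K Ω (embL k L Ω r)
    let ct : maxUnramified k K Ω := constHom k K Ω (embL k L Ω t)
    have h2 : cD * (Y r / Y t) ^ p = (algebraMap K _ w - cr) / (algebraMap K _ w - ct) :=
      Subtype.ext (hq r hr t ht)
    have h3 : s h cD * (s h (Y r / Y t)) ^ p =
        (algebraMap K _ w - s h cr) / (algebraMap K _ w - s h ct) := by
      have e1 := congrArg (s h) h2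
      rw [map_mul, map_pow, map_div₀ (s h) (algebraMap K _ w - cr), map_sub, map_sub,
        AlgEquiv.commutes] at e1
      exact e1
    have h4 := congrArg (fun z : maxUnramified k K Ω => (z : Ω)) h3
    have h5 := hcst (D r / D t) cD rfl
    have h6 := hcst r cr rfl
    have h7 := hcst t ct rfl
    rw [← h5, ← h6, ← h7]
    exact h4
  have hgq := hq (g r) hgr (g t) hgt
  have hRn : ((Y (g r) / Y (g t) : maxUnramified k K Ω) : Ω) ≠ 0 := by
    intro h0
    exact div_ne_zero (hYn _ hgr) (hYn _ hgt) (Subtype.ext h0)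
  have hSn : ((s h (Y r / Y t) : maxUnramified k K Ω) : Ω) ≠ 0 := by
    intro h0
    have h1 : s h (Y r / Y t) = 0 := Subtype.ext h0
    rw [map_eq_zero_iff _ (s h).injective] at h1
    exact div_ne_zero (hYn _ hr) (hYn _ ht) h1
  have hE : algebraMap L Ω (D (g r) / D (g t)) = algebraMap L Ω (g (D r / D t)) * (E : Ω) ^ p := by
    have e1 : (E : Ω) = ((s h (Y r / Y t) : maxUnramified k K Ω) : Ω) /
        ((Y (g r) / Y (g t) : maxUnramified k K Ω) : Ω) := rfl
    rw [e1, div_pow, ← mul_div_assoc, hsh, ← hgq]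
    field_simp
  -- `E` is a constant of `L`
  have hE0 : (E : Ω) ≠ 0 := div_ne_zero hSn hRn
  have hDDn : D (g r) / D (g t) ≠ 0 := div_ne_zero (hDn _ hgr) (hDn _ hgt)
  have hgDn : g (D r / D t) ≠ 0 := by
    rw [map_ne_zero_iff _ g.injective]
    exact div_ne_zero (hDn _ hr) (hDn _ ht)
  have halg : (E : Ω) ∈ algebraicClosure L Ω := by
    rw [mem_algebraicClosure_iff]
    refine ⟨Polynomial.X ^ p - Polynomial.C ((D (g r) / D (g t)) / g (D r / D t)),
      (Polynomial.monic_X_pow_sub_C _ hp.ne_zero).ne_zero, ?_⟩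
    rw [map_sub, map_pow, Polynomial.aeval_X, Polynomial.aeval_C, map_div₀, hE]
    have : algebraMap L Ω (g (D r / D t)) ≠ 0 := (map_ne_zero _).2 hgDn
    field_simp
    ring
  obtain ⟨e, he'⟩ := fixed_const_base hM hs hEfix halg
  refine ⟨e, ?_, ?_⟩
  · rintro rfl
    rw [map_zero] at he'
    exact hE0 he'
  · apply (algebraMap L Ω).injective
    rw [hE, he', map_mul, map_pow]

end

end Pool.Agent.Lib.MP_c385f6_ag
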