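import Mathlib
import Pool.Agent.Lib.MP_c385f6_ag.AllP.DataRam
import Pool.Agent.Lib.MP_c385f6_ag.Cpl.StLoc

set_option autoImplicit false

/-!
Norms of the twists of a section at a point over a finite extension `F` of `L`.
-/

namespace Pool.Agent.Lib.MP_c385f6_ag

open Finset Polynomial

/-- Easy direction of the projection formula. -/
theorem nr_norm {L F : Type*} [Field L] [Field F] [Algebra L F] {p : ℕ} (hp : p.Prime)
    (hpow : ∀ x y : L, x ≠ 0 → Cpl.NR p (x ^ p) y) {x : L} (hx : x ≠ 0) {g : F}
    (h : Cpl.NR p (algebraMap L F x) g) : Cpl.NR p x (Algebra.norm L g) := by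
  by_cases hirr : Irreducible (X ^ p - C x : L[X])
  · obtain ⟨u, hu⟩ := h
    have _ : Fact (Irreducible (X ^ p - C x : L[X])) := ⟨hirr⟩
    have hev : (X ^ p - C x : L[X]).eval₂ (algebraMap L (AdjoinRoot (X ^ p - C (algebraMap L F x) :
        F[X]))) (AdjoinRoot.root (X ^ p - C (algebraMap L F x) : F[X])) = 0 := by
      have h1 := AdjoinRoot.eval₂_root (X ^ p - C (algebraMap L F x) : F[X])
      rw [eval₂_sub, eval₂_pow, eval₂_X, eval₂_C] at h1 ⊢
      exact h1
    let φ : AdjoinRoot (X ^ p - C x : L[X]) →+* AdjoinRoot (X ^ p - C (algebraMap L F x) : F[X]) :=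
      AdjoinRoot.lift (algebraMap L _) (AdjoinRoot.root _) hev
    let _ : Algebra (AdjoinRoot (X ^ p - C x : L[X]))
      (AdjoinRoot (X ^ p - C (algebraMap L F x) : F[X])) := φ.toAlgebra
    have _ : IsScalarTower L (AdjoinRoot (X ^ p - C x : L[X]))
        (AdjoinRoot (X ^ p - C (algebraMap L F x) : F[X])) := by
      refine IsScalarTower.of_algebraMap_eq fun c => ?_
      show _ = φ (algebraMap L _ c)
      exact (AdjoinRoot.lift_of hev).symm
    refine ⟨Algebra.norm (AdjoinRoot (X ^ p - C x : L[X])) u, ?_⟩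
    have hfree : Module.Free F (AdjoinRoot (X ^ p - C (algebraMap L F x) : F[X])) := inferInstance
    rw [Algebra.norm_norm, ← hu, Algebra.norm_norm]
  · obtain ⟨b, hb⟩ : ∃ b : L, b ^ p = x := by
      by_contra hcon
      push Not at hcon
      exact hirr (X_pow_sub_C_irreducible_of_prime hp hcon)
    rw [← hb]
    refine hpow b _ ?_
    rintro rfl
    rw [zero_pow hp.ne_zero] at hb
    exact hx hb.symm

section
variable {k F Ω : Type*} [Field k] [Field F] [Field Ω] [Algebra k F] [Algebra k Ω] [Algebra F Ω]
  [IsScalarTower k F Ω] [Algebra.IsAlgebraic k F]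

/-- Embeddings of `F` in the constants extend. -/
theorem exists_lift_hom [CharZero k] [IsAlgClosed Ω] (σ : F →ₐ[k] algebraicClosure k Ω) :
    ∃ h : AbsGal k Ω, ∀ x, h (embL k F Ω x) = σ x := by
  have hcl : IsAlgClosure k (algebraicClosure k Ω) := inferInstance
  have hn : Normal k (algebraicClosure k Ω) := IsAlgClosure.normal k _
  let _ : Algebra F (algebraicClosure k Ω) := (embL k F Ω).toRingHom.toAlgebra
  have _ : IsScalarTower k F (algebraicClosure k Ω) :=
    IsScalarTower.of_algebraMap_eq fun c => ((embL k F Ω).commutes c).symm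
  let l : algebraicClosure k Ω →ₐ[k] algebraicClosure k Ω := σ.liftNormal (algebraicClosure k Ω)
  have hl : Function.Bijective l := Algebra.IsAlgebraic.algHom_bijective l
  refine ⟨AlgEquiv.ofBijective l hl, fun x => ?_⟩
  exact AlgHom.liftNormal_commutes σ (algebraicClosure k Ω) x

variable {K : Type*} [Field K] [Algebra k K] [Algebra K Ω] {s : AbsGal k Ω →* PiOne k K Ω}

/-- `s h Y` only depends on the restriction of `h` to `F`. -/
theorem section_congr_hom {h h' : AbsGal k Ω} (hh : ∀ x, h (embL k F Ω x) = h' (embL k F Ω x))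
    {Y : maxUnramified k K Ω} (hY : ∀ γ : AbsGal F Ω, s (resAbs k F Ω γ) Y = Y) :
    s h Y = s h' Y := by
  obtain ⟨γ, hγ⟩ := exists_resAbs (L := F) (h := h'⁻¹ * h) (by
    intro x
    rw [AlgEquiv.mul_apply, hh]
    show (h'⁻¹ * h') (embL k F Ω x) = _
    rw [inv_mul_cancel]
    rfl)
  have h1 := hY γ
  rw [hγ, map_mul, AlgEquiv.mul_apply] at h1
  have h2 := congrArg (s h') h1
  rw [map_inv] at h2
  have h3 : s h' ((s h')⁻¹ (s h Y)) = s h Y := by
    show (s h' * (s h')⁻¹) (s h Y) = _
    rw [mul_inv_cancel]
    rfl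
  rw [h3] at h2
  exact h2

end

section
variable {k L F K Ω : Type*} [Field k] [CharZero k] [Field L] [Field F] [Field K] [Field Ω]
  [Algebra k L] [Algebra k F] [Algebra L F] [Algebra k K] [Algebra k Ω] [Algebra L Ω]
  [Algebra F Ω] [Algebra K Ω] [IsScalarTower k K Ω] [IsScalarTower k L Ω] [IsScalarTower k F Ω]
  [IsScalarTower k L F] [IsScalarTower L F Ω] [IsAlgClosure K Ω] [FiniteDimensional k L]
  [FiniteDimensional k F] [FiniteDimensional L F]

/-- **Norms of the twists.** -/
theorem norm_root {p : ℕ} {s : AbsGal k Ω →* PiOne k K Ω}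
    (hs : IsSection k K Ω s) {w : K} {D τ : F} {t₀ : L} {Y : maxUnramified k K Ω}
    (hY : ∀ γ : AbsGal F Ω, s (resAbs k F Ω γ) Y = Y)
    (h : algebraMap F Ω D * (Y : Ω) ^ p =
      (algebraMap K Ω w - algebraMap F Ω τ) / (algebraMap K Ω w - algebraMap L Ω t₀)) :
    ∃ N : maxUnramified k K Ω, (∀ γ : AbsGal L Ω, s (resAbs k L Ω γ) N = N) ∧
      algebraMap L Ω (Algebra.norm L D) * (N : Ω) ^ p =
        (∏ σ : F →ₐ[L] algebraicClosure L Ω, (algebraMap K Ω w - (σ τ : Ω))) /
          (algebraMap K Ω w - algebraMap L Ω t₀) ^ Module.finrank L F := by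
  classical
  have hacO : IsAlgClosed Ω := IsAlgClosure.isAlgClosed K
  have hcL : CharZero L := charZero_of_injective_algebraMap (algebraMap k L).injective
  have hacL : IsAlgClosed (algebraicClosure L Ω) := IsAlgClosure.isAlgClosed L
  -- the automorphisms
  have hlift : ∀ σ : F →ₐ[L] algebraicClosure L Ω, ∃ h : AbsGal k Ω, ∀ x : F,
      ((h (embL k F Ω x) : algebraicClosure k Ω) : Ω) = (σ x : Ω) := by
    intro σ
    let σ' : F →ₐ[k] algebraicClosure k Ω :=
      { toFun := fun x => ⟨(σ x : Ω), (mem_algClosure_iff_base (L := L) _).1 (σ x).2⟩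
        map_one' := by
          apply Subtype.ext
          show ((σ 1 : algebraicClosure L Ω) : Ω) = 1
          rw [map_one]
          rfl
        map_mul' := by
          intro a b
          apply Subtype.ext
          show ((σ (a * b) : algebraicClosure L Ω) : Ω) = (σ a : Ω) * (σ b : Ω)
          rw [map_mul]
          rfl
        map_zero' := by
          apply Subtype.ext
          show ((σ 0 : algebraicClosure L Ω) : Ω) = 0
          rw [map_zero]
          rfl
        map_add' := by
          intro a b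
          apply Subtype.ext
          show ((σ (a + b) : algebraicClosure L Ω) : Ω) = (σ a : Ω) + (σ b : Ω)
          rw [map_add]
          rfl
        commutes' := by
          intro c
          apply Subtype.ext
          show ((σ (algebraMap k F c) : algebraicClosure L Ω) : Ω) = algebraMap k Ω c
          rw [IsScalarTower.algebraMap_apply k L F, AlgHom.commutes]
          show algebraMap L Ω (algebraMap k L c) = _
          rw [← IsScalarTower.algebraMap_apply] }
    obtain ⟨h, hh⟩ := exists_lift_hom σ'
    exact ⟨h, fun x => congrArg Subtype.val (hh x)⟩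
  choose H hH using hlift
  let N : maxUnramified k K Ω := ∏ σ : F →ₐ[L] algebraicClosure L Ω, s (H σ) Y
  refine ⟨N, ?_, ?_⟩
  · intro γ
    show s (resAbs k L Ω γ) (∏ σ : F →ₐ[L] algebraicClosure L Ω, s (H σ) Y) = _
    rw [map_prod]
    let e : (F →ₐ[L] algebraicClosure L Ω) ≃ (F →ₐ[L] algebraicClosure L Ω) :=
      { toFun := fun σ => (γ : algebraicClosure L Ω →ₐ[L] algebraicClosure L Ω).comp σ
        invFun := fun σ => (γ.symm : algebraicClosure L Ω →ₐ[L] algebraicClosure L Ω).comp σ
        left_inv := by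
          intro σ
          ext x
          show ((γ.symm (γ (σ x)) : algebraicClosure L Ω) : Ω) = _
          rw [AlgEquiv.symm_apply_apply]
        right_inv := by
          intro σ
          ext x
          show ((γ (γ.symm (σ x)) : algebraicClosure L Ω) : Ω) = _
          rw [AlgEquiv.apply_symm_apply] }
    refine Fintype.prod_equiv e _ _ fun σ => ?_
    rw [← AlgEquiv.mul_apply, ← map_mul]
    refine section_congr_hom (F := F) ?_ hY
    intro x
    apply Subtype.ext
    rw [AlgEquiv.mul_apply, hH (e σ) x,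
      resAbs_apply γ (c := H σ (embL k F Ω x)) (d := σ x) (hH σ x)]
    rfl
  · -- the equation for each embedding
    have hwt : ∀ σ : F →ₐ[L] algebraicClosure L Ω,
        (σ D : Ω) * ((s (H σ) Y : maxUnramified k K Ω) : Ω) ^ p =
          (algebraMap K Ω w - (σ τ : Ω)) / (algebraMap K Ω w - algebraMap L Ω t₀) := by
      intro σ
      let cD : maxUnramified k K Ω := constHom k K Ω (embL k F Ω D)
      let cτ : maxUnramified k K Ω := constHom k K Ω (embL k F Ω τ)
      let ct : maxUnramified k K Ω := constHom k K Ω (embL k F Ω (algebraMap L F t₀))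
      have hct : ((ct : maxUnramified k K Ω) : Ω) = algebraMap L Ω t₀ := by
        show algebraMap F Ω (algebraMap L F t₀) = _
        rw [← IsScalarTower.algebraMap_apply]
      have h2 : cD * Y ^ p = (algebraMap K _ w - cτ) / (algebraMap K _ w - ct) := by
        apply Subtype.ext
        show algebraMap F Ω D * (Y : Ω) ^ p = (algebraMap K Ω w - algebraMap F Ω τ) /
          (algebraMap K Ω w - ((ct : maxUnramified k K Ω) : Ω))
        rw [h, hct]
      have h3 : s (H σ) cD * (s (H σ) Y) ^ p =
          (algebraMap K _ w - s (H σ) cτ) / (algebraMap K _ w - s (H σ) ct) := by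
        have e1 := congrArg (s (H σ)) h2
        rw [map_mul, map_pow, map_div₀ (s (H σ)) (algebraMap K _ w - cτ), map_sub, map_sub,
          AlgEquiv.commutes] at e1
        exact e1
      have hc : ∀ x : F, ((s (H σ) (constHom k K Ω (embL k F Ω x)) : maxUnramified k K Ω) : Ω) =
          (σ x : Ω) := by
        intro x
        rw [hs.restrict (H σ) (embL k F Ω x) _ rfl, hH]
      have h4 := congrArg (fun z : maxUnramified k K Ω => (z : Ω)) h3
      have h7 := hc (algebraMap L F t₀)
      rw [AlgHom.commutes] at h7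
      have h8 : ((algebraMap L (algebraicClosure L Ω) t₀ : algebraicClosure L Ω) : Ω) =
        algebraMap L Ω t₀ := rfl
      rw [h8] at h7
      rw [← hc D, ← hc τ, ← h7]
      exact h4
    have hNv : (N : Ω) = ∏ σ : F →ₐ[L] algebraicClosure L Ω,
        ((s (H σ) Y : maxUnramified k K Ω) : Ω) := by
      show (((∏ σ : F →ₐ[L] algebraicClosure L Ω, s (H σ) Y : maxUnramified k K Ω)) : Ω) = _
      exact map_prod (maxUnramified k K Ω).val _ _
    have hDv : algebraMap L Ω (Algebra.norm L D) =
        ∏ σ : F →ₐ[L] algebraicClosure L Ω, (σ D : Ω) := by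
      have h1 := Algebra.norm_eq_prod_embeddings L (algebraicClosure L Ω) D
      have h2 := congrArg (algebraicClosure L Ω).val h1
      rw [map_prod] at h2
      exact h2
    rw [hNv, hDv, ← Finset.prod_pow, ← Finset.prod_mul_distrib, Finset.prod_congr rfl
      (fun σ _ => hwt σ), Finset.prod_div_distrib, Finset.prod_const, Finset.card_univ,
      AlgHom.card]

end

end Pool.Agent.Lib.MP_c385f6_ag
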