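import Mathlib
import Pool.Agent.Lib.MP_c385f6_ag.AllP.DataRam

set_option autoImplicit false

/-!
If `K` has a section then `K` and `L` are linearly disjoint over `k`.
-/

namespace Pool.Agent.Lib.MP_c385f6_ag

section
variable {k L K M Ω : Type*} [Field k] [CharZero k] [Field L] [Field K] [Field M] [Field Ω]
  [Algebra k L] [Algebra k K] [Algebra k Ω] [Algebra L Ω] [Algebra K Ω] [Algebra K M]
  [Algebra L M] [Algebra M Ω] [IsScalarTower k K Ω] [IsScalarTower k L Ω] [IsScalarTower K M Ω]
  [IsScalarTower L M Ω] [IsAlgClosure K Ω] [FiniteDimensional k L]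

/-- `M = K L` is contained in the maximal unramified extension of `K`. -/
theorem mem_ur_of_compositum
    (hM : IntermediateField.adjoin K (Set.range (algebraMap L M)) = ⊤) (m : M) :
    algebraMap M Ω m ∈ maxUnramified k K Ω := by
  have halgO : Algebra.IsAlgebraic K Ω := IsAlgClosure.isAlgebraic
  have hmem := mem_ur_iff_base (k := k) (L := L) (K := K) (M := M) (Ω := Ω) hM
  exact (hmem _).1 ((maxUnramified L M Ω).algebraMap_mem m)

variable [IsGalois k L]

/-- The elements of `Gal(L / k)` extend to `M`. -/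
theorem exists_sigma_of_section
    (hM : IntermediateField.adjoin K (Set.range (algebraMap L M)) = ⊤)
    {s : AbsGal k Ω →* PiOne k K Ω} (hs : IsSection k K Ω s) (g : L ≃ₐ[k] L) :
    ∃ σ : M ≃ₐ[K] M, ∀ x : L, σ (algebraMap L M x) = algebraMap L M (g x) := by
  have hacO : IsAlgClosed Ω := IsAlgClosure.isAlgClosed K
  have hacF : IsAlgClosed (algebraicClosure k Ω) := IsAlgClosure.isAlgClosed k
  have hcl : IsAlgClosure k (algebraicClosure k Ω) := inferInstance
  have hn : Normal k (algebraicClosure k Ω) := IsAlgClosure.normal k _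
  have hgal : IsGalois k (algebraicClosure k Ω) := {}
  have hKM : ∀ x : K, algebraMap M Ω (algebraMap K M x) = algebraMap K Ω x := fun x =>
    (IsScalarTower.algebraMap_apply K M Ω x).symm
  have hLM : ∀ x : L, algebraMap M Ω (algebraMap L M x) = algebraMap L Ω x := fun x =>
    (IsScalarTower.algebraMap_apply L M Ω x).symm
  obtain ⟨μ, hμ⟩ : ∃ μ : M →+* maxUnramified k K Ω, ∀ m, ((μ m : maxUnramified k K Ω) : Ω) =
      algebraMap M Ω m :=
    ⟨(algebraMap M Ω).codRestrict (maxUnramified k K Ω)
      (mem_ur_of_compositum (k := k) (L := L) (K := K) hM), fun m => rfl⟩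
  have hμK : ∀ x : K, μ (algebraMap K M x) = algebraMap K _ x := fun x =>
    Subtype.ext ((hμ _).trans (hKM x))
  have hμL : ∀ x : L, μ (algebraMap L M x) = constHom k K Ω (embL k L Ω x) := fun x =>
    Subtype.ext ((hμ _).trans (hLM x))
  have hq : ∀ (h : AbsGal k Ω) (g : L ≃ₐ[k] L), (∀ x, h (embL k L Ω x) = embL k L Ω (g x)) →
      ∀ m : M, ∃ m' : M, s h (μ m) = μ m' := by
    intro h g hh m
    have hm : m ∈ IntermediateField.adjoin K (Set.range (algebraMap L M)) := by
      rw [hM]; trivial
    induction hm using IntermediateField.adjoin_induction with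
    | mem y hy =>
      obtain ⟨x, rfl⟩ := hy
      refine ⟨algebraMap L M (g x), ?_⟩
      apply Subtype.ext
      rw [hμL, hs.restrict h (embL k L Ω x) _ rfl, hh, hμL]
      rfl
    | algebraMap c => exact ⟨algebraMap K M c, by rw [hμK, AlgEquiv.commutes]⟩
    | add a b _ _ ha hb =>
      obtain ⟨f, hf⟩ := ha
      obtain ⟨g, hg⟩ := hb
      exact ⟨f + g, by rw [map_add, map_add, map_add, hf, hg]⟩
    | inv a _ ha =>
      obtain ⟨f, hf⟩ := ha
      exact ⟨f⁻¹, by rw [map_inv₀, map_inv₀, map_inv₀, hf]⟩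
    | mul a b _ _ ha hb =>
      obtain ⟨f, hf⟩ := ha
      obtain ⟨g, hg⟩ := hb
      exact ⟨f * g, by rw [map_mul, map_mul, map_mul, hf, hg]⟩
  obtain ⟨h, hh⟩ := exists_lift (embL k L Ω) g
  have hh' : ∀ x, h⁻¹ (embL k L Ω x) = embL k L Ω (g.symm x) := by
    intro x
    apply h.injective
    rw [hh, AlgEquiv.apply_symm_apply]
    exact AlgEquiv.apply_symm_apply h _
  choose d hd using hq h g hh
  choose d' hd' using hq h⁻¹ g.symm hh'
  have hi : Function.Injective μ := μ.injective
  have h1 : ∀ z, s h⁻¹ (s h z) = z := by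
    intro z
    rw [← AlgEquiv.mul_apply, ← map_mul, inv_mul_cancel, map_one]
    rfl
  have h2 : ∀ z, s h (s h⁻¹ z) = z := by
    intro z
    rw [← AlgEquiv.mul_apply, ← map_mul, mul_inv_cancel, map_one]
    rfl
  let σ : M ≃+* M :=
    { toFun := d
      invFun := d'
      left_inv := fun m => hi (by rw [← hd', ← hd, h1])
      right_inv := fun m => hi (by rw [← hd, ← hd', h2])
      map_mul' := fun a b => hi (by rw [← hd, map_mul, map_mul, map_mul, hd a, hd b])
      map_add' := fun a b => hi (by rw [← hd, map_add, map_add, map_add, hd a, hd b]) }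
  refine ⟨AlgEquiv.ofRingEquiv (f := σ) ?_, ?_⟩
  · intro x
    apply hi
    show μ (d _) = _
    rw [← hd, hμK, AlgEquiv.commutes]
  · intro x
    apply hi
    show μ (d _) = _
    rw [← hd]
    apply Subtype.ext
    rw [hμL, hs.restrict h (embL k L Ω x) _ rfl, hh, hμL]
    rfl

end

end Pool.Agent.Lib.MP_c385f6_ag
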