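import Mathlib
import Pool.Agent.Lib.MP_c385f6_ag.AllP.Sigma

set_option autoImplicit false

/-!
Values of polynomials at the point of the line belonging to a section.
-/

namespace Pool.Agent.Lib.MP_c385f6_ag

open Polynomial

/-- The class that `s` gives to `P(w)` is the class of `P(y)`. -/
def HasVal {k L K Ω : Type*} [Field k] [Field L] [Field K] [Field Ω] [Algebra k L] [Algebra k Ω]
    [Algebra L Ω] [Algebra K Ω] [IsScalarTower k L Ω] [Algebra.IsAlgebraic k L]
    (p : ℕ) (s : AbsGal k Ω →* PiOne k K Ω) (w : K) (t₀ y : L) (P : L[X]) : Prop :=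
  ∃ (c : L) (N : maxUnramified k K Ω), c ≠ 0 ∧
    (∀ γ : AbsGal L Ω, s (resAbs k L Ω γ) N = N) ∧
    algebraMap L Ω c * (N : Ω) ^ p = aeval (algebraMap K Ω w) P /
      (algebraMap K Ω w - algebraMap L Ω t₀) ^ P.natDegree ∧
    ∃ e : L, e ≠ 0 ∧ c = P.eval y / (y - t₀) ^ P.natDegree * e ^ p

section
variable {k L K Ω : Type*} [Field k] [Field L] [Field K] [Field Ω] [Algebra k L] [Algebra k Ω]
  [Algebra L Ω] [Algebra K Ω] [IsScalarTower k L Ω] [Algebra.IsAlgebraic k L] {p : ℕ}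
  {s : AbsGal k Ω →* PiOne k K Ω} {w : K} {t₀ y : L}

theorem hasVal_mul {P Q : L[X]} (hP : HasVal p s w t₀ y P) (hQ : HasVal p s w t₀ y Q) :
    HasVal p s w t₀ y (P * Q) := by
  obtain ⟨c, N, hc, hN, h1, e, he, h2⟩ := hP
  obtain ⟨c', N', hc', hN', h1', e', he', h2'⟩ := hQ
  have hP0 : P ≠ 0 := by
    rintro rfl
    rw [eval_zero, zero_div, zero_mul] at h2
    exact hc h2
  have hQ0 : Q ≠ 0 := by
    rintro rfl
    rw [eval_zero, zero_div, zero_mul] at h2'
    exact hc' h2'
  refine ⟨c * c', N * N', mul_ne_zero hc hc', fun γ => by rw [map_mul, hN, hN'], ?_, e * e',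
    mul_ne_zero he he', ?_⟩
  · have e1 : ((N * N' : maxUnramified k K Ω) : Ω) = (N : Ω) * (N' : Ω) := rfl
    rw [e1, natDegree_mul hP0 hQ0, pow_add, map_mul, map_mul, mul_pow, ← div_mul_div_comm, ← h1,
      ← h1']
    ring
  · rw [h2, h2', natDegree_mul hP0 hQ0, pow_add, eval_mul, mul_pow, ← div_mul_div_comm]
    ring

theorem hasVal_C {c : L} (hc : c ≠ 0) : HasVal p s w t₀ y (C c) := by
  refine ⟨c, 1, hc, fun γ => map_one _, ?_, 1, one_ne_zero, ?_⟩
  · have e1 : ((1 : maxUnramified k K Ω) : Ω) = 1 := rfl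
    rw [e1, one_pow, mul_one, natDegree_C, pow_zero, div_one, aeval_C]
  · rw [one_pow, mul_one, natDegree_C, pow_zero, div_one, eval_C]

theorem hasVal_prod {S : Multiset L[X]} (h : ∀ P ∈ S, HasVal p s w t₀ y P) :
    HasVal p s w t₀ y S.prod := by
  induction S using Multiset.induction_on with
  | empty =>
    rw [Multiset.prod_zero, ← C_1]
    exact hasVal_C one_ne_zero
  | cons P S ih =>
    rw [Multiset.prod_cons]
    exact hasVal_mul (h P (Multiset.mem_cons_self _ _))
      (ih fun Q hQ => h Q (Multiset.mem_cons_of_mem hQ))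

end

section
variable {k L K M Ω : Type*} [Field k] [CharZero k] [Field L] [Field K] [Field M] [Field Ω]
  [Algebra k L] [Algebra k K] [Algebra k Ω] [Algebra L Ω] [Algebra K Ω] [Algebra K M]
  [Algebra L M] [Algebra M Ω] [IsScalarTower k K Ω] [IsScalarTower k L Ω] [IsScalarTower K M Ω]
  [IsScalarTower L M Ω] [IsAlgClosure K Ω] [FiniteDimensional k L] {p : ℕ}

/-- elements of `M` are fixed by `s(Gal_L)` -/
theorem fix_of_mem (hM : IntermediateField.adjoin K (Set.range (algebraMap L M)) = ⊤)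
    {s : AbsGal k Ω →* PiOne k K Ω} (hs : IsSection k K Ω s) {z : maxUnramified k K Ω} {m : M}
    (hz : (z : Ω) = algebraMap M Ω m) (γ : AbsGal L Ω) : s (resAbs k L Ω γ) z = z := by
  have halgO : Algebra.IsAlgebraic K Ω := IsAlgClosure.isAlgebraic
  obtain ⟨s', hs', hcomp⟩ := exists_base_section k L K M Ω hM hs
  have hmem := mem_ur_iff_base (k := k) (L := L) (K := K) (M := M) (Ω := Ω) hM
  apply Subtype.ext
  rw [← hcomp γ (algebraMap M _ m) z hz.symm, AlgEquiv.commutes, hz]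
  rfl

/-- If `P(w)` is a `p`-th power in `M`, then `P(y)` is a `p`-th power in `L`. -/
theorem pow_of_hasVal (hp : p.Prime)
    (hM : IntermediateField.adjoin K (Set.range (algebraMap L M)) = ⊤) {w : K}
    (hw : Transcendental k w) {t₀ y : L} (hyt : y ≠ t₀)
    {s : AbsGal k Ω →* PiOne k K Ω} (hs : IsSection k K Ω s) {P : L[X]}
    (hP : HasVal p s w t₀ y P) (hdeg : p ∣ P.natDegree) {z : M}
    (hz : z ^ p = aeval (algebraMap K M w) P) : ∃ e : L, e ≠ 0 ∧ P.eval y = e ^ p := by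
  obtain ⟨c, N, hc, hN, h1, e, he, h2⟩ := hP
  obtain ⟨q, hq⟩ := hdeg
  have hsub := sub_const_ne_zero (k := k) (Ω := Ω) hw t₀
  have hKM : ∀ x : K, algebraMap M Ω (algebraMap K M x) = algebraMap K Ω x := fun x =>
    (IsScalarTower.algebraMap_apply K M Ω x).symm
  have hLM : ∀ x : L, algebraMap M Ω (algebraMap L M x) = algebraMap L Ω x := fun x =>
    (IsScalarTower.algebraMap_apply L M Ω x).symm
  have hP0 : P ≠ 0 := by
    rintro rfl
    rw [eval_zero, zero_div, zero_mul] at h2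
    exact hc h2
  have hwL : Transcendental L (algebraMap K Ω w) := by
    intro h
    have h1 : IsAlgebraic k (algebraMap K Ω w) := h.restrictScalars k
    exact hw ((isAlgebraic_algebraMap_iff (algebraMap K Ω).injective).1 h1)
  have hPw : aeval (algebraMap K Ω w) P ≠ 0 := fun h => hwL ⟨P, hP0, h⟩
  have hzΩ : algebraMap M Ω z ^ p = aeval (algebraMap K Ω w) P := by
    rw [← map_pow, hz, ← hKM]
    exact (aeval_algebraMap_apply Ω (algebraMap K M w) P).symm
  have hN0 : (N : Ω) ≠ 0 := by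
    intro h
    rw [h, zero_pow hp.ne_zero, mul_zero] at h1
    exact div_ne_zero hPw (pow_ne_zero _ hsub) h1.symm
  let m : M := z / (algebraMap K M w - algebraMap L M t₀) ^ q
  have hmem := mem_ur_of_compositum (k := k) (L := L) (K := K) (Ω := Ω) hM m
  let E : maxUnramified k K Ω := (⟨algebraMap M Ω m, hmem⟩ : maxUnramified k K Ω) / N
  have hEfix : ∀ γ : AbsGal L Ω, s (resAbs k L Ω γ) E = E := by
    intro γ
    show s (resAbs k L Ω γ) ((⟨algebraMap M Ω m, hmem⟩ : maxUnramified k K Ω) / N) = _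
    rw [map_div₀, hN, fix_of_mem hM hs (m := m) rfl]
  have hE : (E : Ω) ^ p = algebraMap L Ω c := by
    have e1 : (E : Ω) = algebraMap M Ω m / (N : Ω) := rfl
    have e2 : algebraMap M Ω m = algebraMap M Ω z /
        (algebraMap K Ω w - algebraMap L Ω t₀) ^ q := by
      show algebraMap M Ω (z / (algebraMap K M w - algebraMap L M t₀) ^ q) = _
      rw [map_div₀, map_pow, map_sub, hKM, hLM]
    rw [hq] at h1
    rw [e1, e2, div_pow, div_pow, hzΩ, ← pow_mul, mul_comm q p, ← h1,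
      mul_div_assoc, div_self (pow_ne_zero _ hN0), mul_one]
  obtain ⟨x, hx⟩ := fixed_const_base hM hs hEfix (by
    rw [mem_algebraicClosure_iff]
    refine ⟨X ^ p - C c, (monic_X_pow_sub_C _ hp.ne_zero).ne_zero, ?_⟩
    rw [map_sub, map_pow, aeval_X, aeval_C, hE, sub_self])
  have hxc : x ^ p = c := by
    apply (algebraMap L Ω).injective
    rw [map_pow, ← hx, hE]
  have hyt' : y - t₀ ≠ 0 := sub_ne_zero.2 hyt
  have hx0 : x ≠ 0 := by
    rintro rfl
    rw [zero_pow hp.ne_zero] at hxc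
    exact hc hxc.symm
  refine ⟨x * (y - t₀) ^ q / e, div_ne_zero (mul_ne_zero hx0 (pow_ne_zero _ hyt')) he, ?_⟩
  rw [← hxc, hq] at h2
  rw [div_pow, mul_pow, h2, ← pow_mul, mul_comm q p]
  field_simp

end

end Pool.Agent.Lib.MP_c385f6_ag
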