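import Mathlib
import Pool.Agent.Lib.MP_c385f6_ag.AllP.Vals
import Pool.Agent.Lib.MP_c385f6_ag.AllP.NormStep

set_option autoImplicit false

/-!
The data of a section at a point over a finite extension `F` of `L`.
-/

namespace Pool.Agent.Lib.MP_c385f6_ag

open Polynomial

/-- The conjugates of a generator are the zeros of its minimal polynomial. -/
theorem prod_embeddings_eq {L F E : Type*} [Field L] [CharZero L] [Field F] [Algebra L F]
    [Field E] [Algebra L E] [IsAlgClosed E] [FiniteDimensional L F] (pb : PowerBasis L F) :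
    (minpoly L pb.gen).map (algebraMap L E) = ∏ σ : F →ₐ[L] E, (X - C (σ pb.gen)) := by
  classical
  have hsp : ((minpoly L pb.gen).map (algebraMap L E)).Splits := IsAlgClosed.splits _
  have hmon : ((minpoly L pb.gen).map (algebraMap L E)).Monic :=
    (minpoly.monic pb.isIntegral_gen).map _
  have hsep : (minpoly L pb.gen).Separable := (minpoly.irreducible pb.isIntegral_gen).separable
  have h1 : (minpoly L pb.gen).map (algebraMap L E) =
      (((minpoly L pb.gen).aroots E).map (fun a => X - C a)).prod :=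
    hsp.eq_prod_roots_of_monic hmon
  conv_lhs => rw [h1]
  rw [@Fintype.prod_equiv (F →ₐ[L] E) _ _ _ _ _ pb.liftEquiv'
    (fun σ => X - C (σ pb.gen)) (fun x => X - C x.1) ?_]
  · rw [Finset.prod_mem_multiset _ _ (fun x => X - C x) (fun x => rfl),
      Finset.prod_eq_multiset_prod, Multiset.toFinset_val, Multiset.dedup_eq_self.mpr]
    exact nodup_roots hsep.map
  · intro σ; simp only [PowerBasis.liftEquiv'_apply_coe]

/-- The norm of `y - τ`. -/
theorem norm_sub_gen {L F : Type*} [Field L] [CharZero L] [Field F] [Algebra L F]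
    [FiniteDimensional L F] (pb : PowerBasis L F) (y : L) :
    Algebra.norm L (algebraMap L F y - pb.gen) = (minpoly L pb.gen).eval y := by
  apply (algebraMap L (AlgebraicClosure L)).injective
  rw [Algebra.norm_eq_prod_embeddings L (AlgebraicClosure L)]
  have h1 := congrArg (eval (algebraMap L (AlgebraicClosure L) y))
    (prod_embeddings_eq (E := AlgebraicClosure L) pb)
  rw [eval_map, eval_prod] at h1
  rw [eval₂_at_apply] at h1
  rw [h1]
  refine Finset.prod_congr rfl fun σ _ => ?_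
  rw [map_sub, AlgHom.commutes, eval_sub, eval_X, eval_C]

section
variable {k L F K Ω : Type*} [Field k] [CharZero k] [Field L] [Field F] [Field K] [Field Ω]
  [Algebra k L] [Algebra k F] [Algebra L F] [Algebra k K] [Algebra k Ω] [Algebra L Ω]
  [Algebra F Ω] [Algebra K Ω] [IsScalarTower k K Ω] [IsScalarTower k L Ω] [IsScalarTower k F Ω]
  [IsScalarTower k L F] [IsScalarTower L F Ω] [IsAlgClosure K Ω] [FiniteDimensional k L]
  [FiniteDimensional k F] [FiniteDimensional L F]

/-- The class of the minimal polynomial of `τ`. -/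
theorem hasVal_of_norm {p : ℕ} {s : AbsGal k Ω →* PiOne k K Ω}
    (hs : IsSection k K Ω s) {w : K} {t₀ y : L} (pb : PowerBasis L F) {G : F} (hG : G ≠ 0)
    {Yτ : maxUnramified k K Ω} (hfix : ∀ γ : AbsGal F Ω, s (resAbs k F Ω γ) Yτ = Yτ)
    (heq : algebraMap F Ω G * (Yτ : Ω) ^ p =
      (algebraMap K Ω w - algebraMap F Ω pb.gen) / (algebraMap K Ω w - algebraMap L Ω t₀))
    {D₀ : L} {Y₀ : maxUnramified k K Ω} (hY₀ : ∀ γ : AbsGal L Ω, s (resAbs k L Ω γ) Y₀ = Y₀)
    (h₀ : algebraMap L Ω D₀ * (Y₀ : Ω) ^ p = 1)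
    (hval : Cpl.Eqv p (Algebra.norm L G) (D₀ ^ Module.finrank L F *
      Algebra.norm L (algebraMap L F y - pb.gen) / (y - t₀) ^ Module.finrank L F)) :
    HasVal p s w t₀ y (minpoly L pb.gen) := by
  have hcL : CharZero L := charZero_of_injective_algebraMap (algebraMap k L).injective
  have hacO : IsAlgClosed Ω := IsAlgClosure.isAlgClosed K
  have hacL : IsAlgClosed (algebraicClosure L Ω) := IsAlgClosure.isAlgClosed L
  obtain ⟨N, hN, hNeq⟩ := norm_root (F := F) (L := L) hs (τ := pb.gen) (D := G) hfix heq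
  have hD₀ : D₀ ≠ 0 := by
    rintro rfl
    rw [map_zero, zero_mul] at h₀
    exact zero_ne_one h₀
  have hdeg : (minpoly L pb.gen).natDegree = Module.finrank L F := by
    rw [pb.finrank, pb.natDegree_minpoly]
  have hGn : Algebra.norm L G ≠ 0 := Algebra.norm_ne_zero_iff.2 hG
  refine ⟨Algebra.norm L G / D₀ ^ Module.finrank L F, N / Y₀ ^ Module.finrank L F,
    div_ne_zero hGn (pow_ne_zero _ hD₀), fun γ => by rw [map_div₀, map_pow, hN, hY₀], ?_, ?_⟩
  · have e1 : ((N / Y₀ ^ Module.finrank L F : maxUnramified k K Ω) : Ω) =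
      (N : Ω) / (Y₀ : Ω) ^ Module.finrank L F := rfl
    have e2 : aeval (algebraMap K Ω w) (minpoly L pb.gen) =
        ∏ σ : F →ₐ[L] algebraicClosure L Ω, (algebraMap K Ω w - (σ pb.gen : Ω)) := by
      have h1 := congrArg (fun q : (algebraicClosure L Ω)[X] => aeval (algebraMap K Ω w) q)
        (prod_embeddings_eq (E := algebraicClosure L Ω) pb)
      rw [aeval_map_algebraMap] at h1
      rw [h1, map_prod]
      refine Finset.prod_congr rfl fun σ _ => ?_
      rw [map_sub, aeval_X, aeval_C]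
      rfl
    have hY₀0 : (Y₀ : Ω) ^ p ≠ 0 := by
      intro h
      rw [h, mul_zero] at h₀
      exact zero_ne_one h₀
    have hD₀' : algebraMap L Ω D₀ ≠ 0 := (_root_.map_ne_zero _).2 hD₀
    have h₁ : (algebraMap L Ω D₀) ^ Module.finrank L F * ((Y₀ : Ω) ^ Module.finrank L F) ^ p =
        1 := by
      rw [← pow_mul, mul_comm (Module.finrank L F) p, pow_mul, ← mul_pow, h₀, one_pow]
    have h₂ : ((Y₀ : Ω) ^ Module.finrank L F) ^ p ≠ 0 := by
      intro h
      rw [h, mul_zero] at h₁
      exact zero_ne_one h₁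
    rw [e1, e2, hdeg, ← hNeq, map_div₀, map_pow, div_pow, div_mul_div_comm, h₁, div_one]
  · obtain ⟨z, hz, h1⟩ := hval
    refine ⟨z, hz, ?_⟩
    rw [h1, norm_sub_gen, hdeg]
    have := pow_ne_zero (Module.finrank L F) hD₀
    field_simp

end

section
variable {k L F K MF Ω : Type*} [Field k] [CharZero k] [Field L] [Field F] [Field K] [Field MF]
  [Field Ω]
  [Algebra k L] [Algebra k F] [Algebra L F] [Algebra k K] [Algebra k Ω] [Algebra L Ω]
  [Algebra F Ω] [Algebra K Ω] [Algebra K MF] [Algebra F MF] [Algebra MF Ω]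
  [IsScalarTower k K Ω] [IsScalarTower k L Ω] [IsScalarTower k F Ω]
  [IsScalarTower K MF Ω] [IsScalarTower F MF Ω]
  [IsScalarTower k L F] [IsScalarTower L F Ω] [IsAlgClosure K Ω] [FiniteDimensional k L]
  [FiniteDimensional k F]

/-- The data at a point `τ ∈ F`, with the relations to the data over `L`. -/
theorem data_far {p : ℕ} (hp : p.Prime) {ζ : L} (hζ : IsPrimitiveRoot ζ p)
    (hMF : IntermediateField.adjoin K (Set.range (algebraMap F MF)) = ⊤)
    {T : Finset L} {w : K} (hw : Transcendental k w)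
    (hram : ∀ t ∈ T, RamAt p (algebraMap K MF w) (algebraMap L F t)) {τ : F}
    (hτ : ∀ t ∈ T, algebraMap L F t ≠ τ) (hramτ : RamAt p (algebraMap K MF w) τ)
    {t₀ : L} (ht₀ : t₀ ∈ T) {s : AbsGal k Ω →* PiOne k K Ω} (hs : IsSection k K Ω s)
    {D : L → L} {Y : L → maxUnramified k K Ω} (hD : ∀ t ∈ T, D t ≠ 0)
    (hYfix : ∀ t ∈ T, ∀ γ : AbsGal L Ω, s (resAbs k L Ω γ) (Y t) = Y t)
    (hYeq : ∀ t ∈ T, algebraMap L Ω (D t) * (Y t : Ω) ^ p =
        (algebraMap K Ω w - algebraMap L Ω t) / (algebraMap K Ω w - algebraMap L Ω t₀))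
    (hbig : p = 2 → ∃ r ∈ T, ∃ t ∈ T, ∃ u ∈ T, r ≠ t ∧ t ≠ u ∧
        r ≠ u ∧ (∃ x, x ≠ 0 ∧ D r = D u * x ^ 2) ∧ ∃ x, x ≠ 0 ∧ D t = D u * x ^ 2) :
    ∃ (G : F) (Yτ : maxUnramified k K Ω), G ≠ 0 ∧
      (∀ γ : AbsGal F Ω, s (resAbs k F Ω γ) Yτ = Yτ) ∧
      algebraMap F Ω G * (Yτ : Ω) ^ p =
        (algebraMap K Ω w - algebraMap F Ω τ) / (algebraMap K Ω w - algebraMap L Ω t₀) ∧
      ∀ t ∈ T, ∀ u ∈ T, t ≠ u → ¬ SymbolNonzero p 1
        (algebraMap L F (D t / D u) * ((τ - algebraMap L F u) / (τ - algebraMap L F t)))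
        (G / algebraMap L F (D u) * (algebraMap L F (t - u) / (algebraMap L F t - τ))) := by
  classical
  have hacO : IsAlgClosed Ω := IsAlgClosure.isAlgClosed K
  have halgO : Algebra.IsAlgebraic K Ω := IsAlgClosure.isAlgebraic
  have halgM : Algebra.IsAlgebraic MF Ω := Algebra.IsAlgebraic.tower_top (K := K) MF
  have hclM : IsAlgClosure MF Ω := ⟨hacO, halgM⟩
  have hcF : CharZero F := charZero_of_injective_algebraMap (algebraMap k F).injective
  obtain ⟨s', hs', hcomp⟩ := exists_base_section k F K MF Ω hMF hs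
  have hmem := mem_ur_iff_base (k := k) (L := F) (K := K) (M := MF) (Ω := Ω) hMF
  have hKM : ∀ x : K, algebraMap MF Ω (algebraMap K MF x) = algebraMap K Ω x := fun x =>
    (IsScalarTower.algebraMap_apply K MF Ω x).symm
  have hFM : ∀ x : F, algebraMap MF Ω (algebraMap F MF x) = algebraMap F Ω x := fun x =>
    (IsScalarTower.algebraMap_apply F MF Ω x).symm
  have hLF : ∀ x : L, algebraMap F Ω (algebraMap L F x) = algebraMap L Ω x := fun x =>
    (IsScalarTower.algebraMap_apply L F Ω x).symm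
  have hwM : Transcendental F (algebraMap K MF w) := by
    intro h
    have h1 : IsAlgebraic F (algebraMap K Ω w) := by
      rw [← hKM]
      exact h.algebraMap
    have h2 : IsAlgebraic k (algebraMap K Ω w) := h1.restrictScalars k
    exact hw ((isAlgebraic_algebraMap_iff (algebraMap K Ω).injective).1 h2)
  -- the points
  let b : Option T → F := fun j => j.elim τ fun t => algebraMap L F (t : L)
  have hb : Function.Injective b := by
    rintro (_ | ⟨t, ht⟩) (_ | ⟨u, hu⟩) h
    · rfl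
    · exact absurd h.symm (hτ u hu)
    · exact absurd h (hτ t ht)
    · have h1 : algebraMap L F t = algebraMap L F u := h
      rw [Option.some_inj]
      exact Subtype.ext ((algebraMap L F).injective h1)
  have hramb : ∀ j, RamAt p (algebraMap K MF w) (b j) := by
    rintro (_ | ⟨t, ht⟩)
    · exact hramτ
    · exact hram t ht
  obtain ⟨D₁, Y₁, hD₁, hY₁s, hY₁⟩ := ram_twists (k := F) (K := MF) (Ω := Ω) hp hramb
    (some ⟨t₀, ht₀⟩) hs'
  -- the data over `F`
  have hYF : ∀ t ∈ T, ∀ γ : AbsGal F Ω, s (resAbs k F Ω γ) (Y t) = Y t := by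
    intro t ht γ
    obtain ⟨γ', hγ'⟩ := exists_resAbs (L := L) (h := resAbs k F Ω γ) (by
      intro x
      apply Subtype.ext
      rw [resAbs_apply γ (c := embL k L Ω x) (d := algebraMap F _ (algebraMap L F x))
        (hLF x).symm, AlgEquiv.commutes]
      exact hLF x)
    rw [← hγ']
    exact hYfix t ht γ'
  let D₂ : Option T → F := fun j => j.elim (D₁ none) fun t => algebraMap L F (D t)
  let Y₂ : Option T → maxUnramified F MF Ω := fun j =>
    j.elim (Y₁ none) fun t => ⟨(Y t : Ω), (hmem _).2 (Y t).2⟩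
  have hD₂ : ∀ j, D₂ j ≠ 0 := by
    rintro (_ | ⟨t, ht⟩)
    · exact hD₁ none
    · exact (_root_.map_ne_zero _).2 (hD t ht)
  have hY₂s : ∀ j g, s' g (Y₂ j) = Y₂ j := by
    rintro (_ | ⟨t, ht⟩) g
    · exact hY₁s none g
    · apply Subtype.ext
      rw [hcomp g _ (Y t) rfl, hYF t ht]
      rfl
  have hY₂ : ∀ j, algebraMap F Ω (D₂ j) * (Y₂ j : Ω) ^ p =
      algebraMap MF Ω ((algebraMap K MF w - algebraMap F MF (b j)) /
        (algebraMap K MF w - algebraMap F MF (b (some ⟨t₀, ht₀⟩)))) := by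
    rintro (_ | ⟨t, ht⟩)
    · exact hY₁ none
    · show algebraMap F Ω (algebraMap L F (D t)) * (Y t : Ω) ^ p =
        algebraMap MF Ω ((algebraMap K MF w - algebraMap F MF (algebraMap L F t)) /
        (algebraMap K MF w - algebraMap F MF (algebraMap L F t₀)))
      rw [map_div₀, map_sub, map_sub, hKM, hFM, hFM, hLF, hLF, hLF]
      exact hYeq t ht
  refine ⟨D₁ none, ⟨(Y₁ none : Ω), (hmem _).1 (Y₁ none).2⟩, hD₁ none, ?_, ?_, ?_⟩
  · intro γ
    apply Subtype.ext
    rw [← hcomp γ (Y₁ none) ⟨(Y₁ none : Ω), (hmem _).1 (Y₁ none).2⟩ rfl, hY₁s]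
  · have h1 := hY₁ none
    have e1 : b none = τ := rfl
    have e2 : b (some ⟨t₀, ht₀⟩) = algebraMap L F t₀ := rfl
    rw [e1, e2, map_div₀, map_sub, map_sub, hKM, hFM, hFM, hLF] at h1
    exact h1
  · intro t ht u hu htu
    have hζF : IsPrimitiveRoot (algebraMap L F ζ) p :=
      hζ.map_of_injective (f := algebraMap L F) (algebraMap L F).injective
    have h1 := ram_relation (k := F) (K := MF) (Ω := Ω) hp hζF hb hwM hramb hs' hD₂ hY₂s hY₂ (by
      intro hp2
      obtain ⟨r', hr', t', ht', u', hu', h1, h2, h3, ⟨x, hx0, hx⟩, ⟨y, hy0, hy⟩⟩ := hbig hp2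
      refine ⟨some ⟨r', hr'⟩, some ⟨t', ht'⟩, some ⟨u', hu'⟩, ?_, ?_, ?_,
        ⟨algebraMap L F x, (_root_.map_ne_zero _).2 hx0, ?_⟩,
        ⟨algebraMap L F y, (_root_.map_ne_zero _).2 hy0, ?_⟩⟩
      · exact fun h => h1 (congrArg Subtype.val (Option.some_inj.1 h))
      · exact fun h => h2 (congrArg Subtype.val (Option.some_inj.1 h))
      · exact fun h => h3 (congrArg Subtype.val (Option.some_inj.1 h))
      · show algebraMap L F (D r') = algebraMap L F (D u') * algebraMap L F x ^ 2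
        rw [hx, map_mul, map_pow]
      · show algebraMap L F (D t') = algebraMap L F (D u') * algebraMap L F y ^ 2
        rw [hy, map_mul, map_pow])
      (r := some ⟨t, ht⟩) (t := none) (u := some ⟨u, hu⟩) (by simp) (by simp)
      (fun h => htu (congrArg Subtype.val (Option.some_inj.1 h)))
    have e1 : D₂ (some ⟨t, ht⟩) / D₂ (some ⟨u, hu⟩) *
        ((b none - b (some ⟨u, hu⟩)) / (b none - b (some ⟨t, ht⟩))) =
        algebraMap L F (D t / D u) * ((τ - algebraMap L F u) / (τ - algebraMap L F t)) := by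
      show algebraMap L F (D t) / algebraMap L F (D u) *
        ((τ - algebraMap L F u) / (τ - algebraMap L F t)) = _
      rw [map_div₀]
    have e2 : D₂ none / D₂ (some ⟨u, hu⟩) *
        ((b (some ⟨t, ht⟩) - b (some ⟨u, hu⟩)) / (b (some ⟨t, ht⟩) - b none)) =
        D₁ none / algebraMap L F (D u) *
          (algebraMap L F (t - u) / (algebraMap L F t - τ)) := by
      show D₁ none / algebraMap L F (D u) *
        ((algebraMap L F t - algebraMap L F u) / (algebraMap L F t - τ)) = _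
      rw [map_sub]
    rw [e1, e2] at h1
    exact h1

end

end Pool.Agent.Lib.MP_c385f6_ag
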