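import Mathlib

set_option autoImplicit false

/-!
Polynomials up to `p`-th powers.
-/

namespace Pool.Agent.Lib.MP_c385f6_ag

open Polynomial

/-- Splitting off a `p`-th power such that all multiplicities become smaller than `p`. -/
theorem exists_pfree {L : Type*} [Field L] {p : ℕ} (hp : p ≠ 0) (h : L[X]) (hh : h ≠ 0) :
    ∃ q h' : L[X], q ≠ 0 ∧ h = q ^ p * h' ∧ ∀ P, Irreducible P → ¬ P ^ p ∣ h' := by
  induction hn : h.natDegree using Nat.strong_induction_on generalizing h with
  | _ n ih =>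
    by_cases hex : ∃ P, Irreducible P ∧ P ^ p ∣ h
    · obtain ⟨P, hP, h₁, h1⟩ := hex
      have hh₁ : h₁ ≠ 0 := by
        rintro rfl
        rw [mul_zero] at h1
        exact hh h1
      have hPp : P ^ p ≠ 0 := pow_ne_zero _ hP.ne_zero
      have hdeg : h₁.natDegree < n := by
        rw [← hn, h1, natDegree_mul hPp hh₁, natDegree_pow]
        have h2 := hP.natDegree_pos
        have h3 : 0 < p * P.natDegree := Nat.mul_pos (Nat.pos_of_ne_zero hp) h2
        omega
      obtain ⟨q, h', hq, h2, h3⟩ := ih _ hdeg h₁ hh₁ rfl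
      refine ⟨P * q, h', mul_ne_zero hP.ne_zero hq, ?_, h3⟩
      rw [h1, h2, mul_pow, mul_assoc]
    · push Not at hex
      exact ⟨1, h, one_ne_zero, by rw [one_pow, one_mul], hex⟩

theorem rootMult_pow {L : Type*} [Field L] {q : L[X]} (hq : q ≠ 0) (n : ℕ) (t : L) :
    (q ^ n).rootMultiplicity t = n * q.rootMultiplicity t := by
  induction n with
  | zero => rw [pow_zero, zero_mul, ← C_1, rootMultiplicity_C]
  | succ n ih =>
    rw [pow_succ, rootMultiplicity_mul (mul_ne_zero (pow_ne_zero _ hq) hq), ih]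
    ring

/-- The multiplicity of a zero of an irreducible factor. -/
theorem not_dvd_rootMultiplicity {L F : Type*} [Field L] [CharZero L] [Field F] [Algebra L F]
    {p : ℕ} {P h : L[X]} (hP : Irreducible P) (hh : h ≠ 0) (hPh : P ∣ h) (hPp : ¬ P ^ p ∣ h)
    {τ : F} (hτ : aeval τ P = 0) :
    ¬ p ∣ (h.map (algebraMap L F)).rootMultiplicity τ := by
  have hfin : FiniteMultiplicity P h :=
    FiniteMultiplicity.of_not_isUnit hP.not_isUnit hh
  obtain ⟨q, hq, hq'⟩ := hfin.exists_eq_pow_mul_and_not_dvd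
  set n := multiplicity P h with hn
  have hn1 : 1 ≤ n := by
    rw [Nat.one_le_iff_ne_zero]
    intro h0
    rw [h0, pow_zero, one_mul] at hq
    rw [← hq] at hq'
    exact hq' hPh
  have hnp : n < p := by
    by_contra hcon
    push Not at hcon
    exact hPp ((pow_dvd_pow P hcon).trans ⟨q, hq⟩)
  have hq0 : q ≠ 0 := by
    rintro rfl
    exact hq' (dvd_zero _)
  have hPm : P.map (algebraMap L F) ≠ 0 := (Polynomial.map_ne_zero_iff (algebraMap L F).injective).2
    hP.ne_zero
  have hqm : q.map (algebraMap L F) ≠ 0 := (Polynomial.map_ne_zero_iff (algebraMap L F).injective).2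
    hq0
  have h1 : (P.map (algebraMap L F)).rootMultiplicity τ = 1 := by
    refine le_antisymm (rootMultiplicity_le_one_of_separable hP.separable.map τ) ?_
    rw [Nat.one_le_iff_ne_zero, ← Nat.pos_iff_ne_zero, rootMultiplicity_pos hPm, IsRoot.def,
      eval_map_algebraMap]
    exact hτ
  have h2 : (q.map (algebraMap L F)).rootMultiplicity τ = 0 := by
    rw [rootMultiplicity_eq_zero_iff]
    intro h3
    exfalso
    rw [IsRoot.def, eval_map_algebraMap] at h3
    obtain ⟨a, b, hab⟩ := (hP.coprime_iff_not_dvd).2 hq'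
    have h4 := congrArg (aeval τ) hab
    rw [map_add, map_mul, map_mul, hτ, h3, mul_zero, mul_zero, add_zero, map_one] at h4
    exact zero_ne_one h4
  have h3 : (h.map (algebraMap L F)).rootMultiplicity τ = n := by
    conv_lhs => rw [hq]
    rw [Polynomial.map_mul, Polynomial.map_pow, rootMultiplicity_mul
      (mul_ne_zero (pow_ne_zero _ hPm) hqm), rootMult_pow hPm, h1, h2, mul_one, add_zero]
  rw [h3]
  intro h4
  exact absurd (Nat.le_of_dvd (by omega) h4) (by omega)

/-- The multiplicities modulo `p`. -/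
theorem rootMultiplicity_pfree {L : Type*} [Field L] {p : ℕ} {h q h' : L[X]} (hh : h ≠ 0)
    (hp : p ≠ 0) (heq : h = q ^ p * h') (t : L) :
    p ∣ h.rootMultiplicity t ↔ p ∣ h'.rootMultiplicity t := by
  rw [heq] at hh ⊢
  have hq : q ≠ 0 := by
    rintro rfl
    rw [zero_pow hp, zero_mul] at hh
    exact hh rfl
  rw [rootMultiplicity_mul hh, rootMult_pow hq]
  exact Nat.dvd_add_right (Dvd.intro _ rfl)

/-- The degrees modulo `p`. -/
theorem natDegree_pfree {L : Type*} [Field L] {p : ℕ} {h q h' : L[X]} (hh : h ≠ 0)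
    (heq : h = q ^ p * h') : p ∣ h.natDegree ↔ p ∣ h'.natDegree := by
  rw [heq] at hh ⊢
  rw [natDegree_mul (left_ne_zero_of_mul hh) (right_ne_zero_of_mul hh), natDegree_pow]
  exact Nat.dvd_add_right (Dvd.intro _ rfl)

end Pool.Agent.Lib.MP_c385f6_ag
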