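import Mathlib
import Pool.Agent.Lib.MP_c385f6_ag.AllP.FarData
import Pool.Agent.Lib.MP_c385f6_ag.AllP.PFree
import Pool.Agent.Lib.MP_c385f6_ag.AllP.Bridge
import Pool.Agent.Lib.MP_c385f6_ag.Cpl.Far

set_option autoImplicit false

/-!
The value of an irreducible polynomial whose zeros are not too close to `k`.
-/

namespace Pool.Agent.Lib.MP_c385f6_ag

open Polynomial Cpl

/-- The zeros of `P` are not too close to `k`, compared with the depth `m`. -/
def FarPoly (p : ℕ) (k : Type) {L E : Type} [Field k] [Field L] [Field E] [Algebra k L]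
    (S : LF p L E) (m : ℤ) (P : L[X]) : Prop :=
  ∃ (F : Type) (_ : Field F) (_ : Algebra L F) (_ : FiniteDimensional L F) (pb : PowerBasis L F)
    (E' : Type) (_ : Field E') (S' : LF p F E') (r : ℕ), minpoly L pb.gen = P ∧ 1 ≤ r ∧
    (∀ x : L, S'.v (algebraMap L F x) = r * S.v x) ∧ S'.e ≤ r * S.e ∧
    (∀ x y, x ≠ 0 → y ≠ 0 → (S'.h x y = 0 ↔ NR p x y)) ∧
    (∀ x y : F, x ≠ 0 → NR p (x ^ p) y) ∧
    ∀ y : k, S'.dl (algebraMap L F (algebraMap k L y)) pb.gen ≤ r * (m - 2 * S.e - 3)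

/-- Existence of the data. -/
theorem exists_farPoly (hLF : StLF) (hVn : StVn) (hE0 : StE0) (hBdd : StBdd) (hNR : StNR) {p : ℕ}
    [hp : Fact p.Prime] {k L E : Type} [iK : Field k] [iQ : Algebra ℚ_[p] k]
    [iQf : FiniteDimensional ℚ_[p] k] [iL : Field L] [iE : Field E] [iA : Algebra k L]
    [iD : FiniteDimensional k L] (S : LF p L E) {ζ : L} (hζ : IsPrimitiveRoot ζ p)
    (hvp : 0 < S.v (p : L)) {P : L[X]} (hP : Irreducible P) (hPm : P.Monic)
    (hPk : ∀ y : k, P.eval (algebraMap k L y) ≠ 0) :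
    ∃ m₀ : ℤ, ∀ m, m₀ ≤ m → FarPoly p k S m P := by
  let iQL : Algebra ℚ_[p] L := ((algebraMap k L).comp (algebraMap ℚ_[p] k)).toAlgebra
  have iT : IsScalarTower ℚ_[p] k L := IsScalarTower.of_algebraMap_eq (fun x => rfl)
  have iDL : FiniteDimensional ℚ_[p] L := Module.Finite.trans (R := ℚ_[p]) k L
  have iFact : Fact (Irreducible P) := ⟨hP⟩
  let iFF : Field (AdjoinRoot P) := AdjoinRoot.instField
  let pb : PowerBasis L (AdjoinRoot P) := AdjoinRoot.powerBasis hP.ne_zero
  have hgen : pb.gen = AdjoinRoot.root P := AdjoinRoot.powerBasis_gen hP.ne_zero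
  have iDF : FiniteDimensional L (AdjoinRoot P) := pb.finite
  let iAk : Algebra k (AdjoinRoot P) := inferInstance
  have iT2 : IsScalarTower k L (AdjoinRoot P) := inferInstance
  let iQF : Algebra ℚ_[p] (AdjoinRoot P) := inferInstance
  have iT3 : IsScalarTower ℚ_[p] L (AdjoinRoot P) := inferInstance
  have iT4 : IsScalarTower ℚ_[p] k (AdjoinRoot P) := by
    refine IsScalarTower.of_algebraMap_eq fun x => ?_
    rw [IsScalarTower.algebraMap_apply ℚ_[p] L (AdjoinRoot P),
      IsScalarTower.algebraMap_apply ℚ_[p] k L,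
      ← IsScalarTower.algebraMap_apply k L (AdjoinRoot P)]
  have iDQF : FiniteDimensional ℚ_[p] (AdjoinRoot P) :=
    Module.Finite.trans (R := ℚ_[p]) L (AdjoinRoot P)
  have hζF : IsPrimitiveRoot (algebraMap L (AdjoinRoot P) ζ) p :=
    hζ.map_of_injective (f := algebraMap L (AdjoinRoot P)) (algebraMap L (AdjoinRoot P)).injective
  obtain ⟨E', iE', S', hchar, hS'NR, -, -, hvp'⟩ := hLF p hp (AdjoinRoot P) iFF iQF iDQF _ hζF
  obtain ⟨r, hr, hrv⟩ := hVn p hp L (AdjoinRoot P) E E' iL iFF iE iE' iQL iDL iQF iDQF _ iT3 S S'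
    hvp hvp'
  obtain ⟨he, -⟩ := hE0 p hp L E iL iE S ζ hζ hvp
  obtain ⟨he', -⟩ := hE0 p hp (AdjoinRoot P) E' iFF iE' S' _ hζF hvp'
  have hee : S'.e = r * S.e := by
    have h1 : (S'.e : ℤ) = r * S.e := by
      rw [he', he, ← map_one (algebraMap L (AdjoinRoot P)), ← map_sub, hrv]
      ring
    exact_mod_cast h1
  have hτ : ∀ y : k, algebraMap k (AdjoinRoot P) y ≠ AdjoinRoot.root P := by
    intro y hy
    have h1 : aeval (AdjoinRoot.root P) P = 0 := by
      rw [AdjoinRoot.aeval_eq, AdjoinRoot.mk_self]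
    rw [← hy, IsScalarTower.algebraMap_apply k L (AdjoinRoot P), aeval_algebraMap_apply,
      map_eq_zero] at h1
    exact hPk y h1
  obtain ⟨b, hb⟩ := hBdd p hp k (AdjoinRoot P) E' iK iFF iE' iQ iQf iQF iDQF iAk iT4 S' hvp'
    (AdjoinRoot.root P) hτ
  obtain ⟨-, -, hpow, -⟩ := hNR p hp (AdjoinRoot P) iFF iQF iDQF _ hζF
  refine ⟨2 * S.e + 3 + max b 0, fun m hm => ?_⟩
  refine ⟨AdjoinRoot P, iFF, _, iDF, pb, E', iE', S', r, ?_, hr, hrv, hee.le, hS'NR, hpow, ?_⟩
  · rw [hgen]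
    exact (minpoly.eq_of_irreducible_of_monic hP (by rw [AdjoinRoot.aeval_eq, AdjoinRoot.mk_self])
      hPm).symm
  · intro y
    rw [hgen]
    refine (hb y).trans ?_
    have h1 : (1 : ℤ) ≤ r := by exact_mod_cast hr
    have h2 : max b 0 ≤ m - 2 * S.e - 3 := by linarith
    have h3 : 0 ≤ m - 2 * S.e - 3 := (le_max_right _ _).trans h2
    calc b ≤ m - 2 * S.e - 3 := (le_max_left _ _).trans h2
      _ ≤ r * (m - 2 * S.e - 3) := by nlinarith

section
variable {k L : Type} {K M Ω : Type*} [Field k] [CharZero k] [Field L] [Field K] [Field M]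
  [Field Ω]
  [Algebra k L] [Algebra k K] [Algebra k Ω] [Algebra L Ω] [Algebra K Ω] [Algebra K M]
  [Algebra L M] [Algebra M Ω] [IsScalarTower k K Ω] [IsScalarTower k L Ω] [IsScalarTower K M Ω]
  [IsScalarTower L M Ω] [IsAlgClosure K Ω] [FiniteDimensional k L]

/-- The class of an irreducible polynomial whose zeros are not too close to `k`. -/
theorem hasVal_far (hGen : StGen) {p : ℕ} [hp : Fact p.Prime] {E : Type} [Field E] {S : LF p L E}
    (hSNR : ∀ x y, x ≠ 0 → y ≠ 0 → (S.h x y = 0 ↔ NR p x y)) {ζ : L} (hζ : IsPrimitiveRoot ζ p)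
    (hM : IntermediateField.adjoin K (Set.range (algebraMap L M)) = ⊤)
    {T : Finset L} {m : ℤ} (hnet : S.Net (T : Set L) m) {w : K} (hw : Transcendental k w)
    (hcovT : ∀ t ∈ T, ∃ (h : L[X]) (z : M), h ≠ 0 ∧ z ^ p = aeval (algebraMap K M w) h ∧
      ¬ p ∣ h.rootMultiplicity t) {t₀ : L} (ht₀ : t₀ ∈ T)
    {s : AbsGal k Ω →* PiOne k K Ω} (hs : IsSection k K Ω s)
    {D : L → L} {Y : L → maxUnramified k K Ω} (hD : ∀ t ∈ T, D t ≠ 0)
    (hYfix : ∀ t ∈ T, ∀ γ : AbsGal L Ω, s (resAbs k L Ω γ) (Y t) = Y t)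
    (hYeq : ∀ t ∈ T, algebraMap L Ω (D t) * (Y t : Ω) ^ p =
        (algebraMap K Ω w - algebraMap L Ω t) / (algebraMap K Ω w - algebraMap L Ω t₀))
    (hbig : p = 2 → ∃ r ∈ T, ∃ t ∈ T, ∃ u ∈ T, r ≠ t ∧ t ≠ u ∧
        r ≠ u ∧ (∃ x, x ≠ 0 ∧ D r = D u * x ^ 2) ∧ ∃ x, x ≠ 0 ∧ D t = D u * x ^ 2)
    {y : k} (hy : ∀ t ∈ T, algebraMap k L y ≠ t)
    (hval : ∀ t ∈ T, ∀ u ∈ T, Eqv p (D t / D u)
      ((algebraMap k L y - t) / (algebraMap k L y - u)))
    {P : L[X]} (hfar : FarPoly p k S m P) (hPT : ∀ t ∈ T, P.eval t ≠ 0)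
    (hPy : P.eval (algebraMap k L y) ≠ 0)
    (hcovP : ∃ (h : L[X]) (z : M), h ≠ 0 ∧ z ^ p = aeval (algebraMap K M w) h ∧ P ∣ h ∧
      ¬ P ^ p ∣ h) : HasVal p s w t₀ (algebraMap k L y) P := by
  classical
  obtain ⟨F, iF, iA, iD, pb, E', iE', S', r, hmin, hr, hv, he, hNR', hpow', hdl⟩ := hfar
  have hacO : IsAlgClosed Ω := IsAlgClosure.isAlgClosed K
  have hcL : CharZero L := charZero_of_injective_algebraMap (algebraMap k L).injective
  have hPirr : Irreducible P := by
    rw [← hmin]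
    exact minpoly.irreducible pb.isIntegral_gen
  have hgenP : aeval pb.gen P = 0 := by
    rw [← hmin]
    exact minpoly.aeval L pb.gen
  -- the algebra structures
  let i : F →ₐ[L] Ω := IsAlgClosed.lift
  let _ : Algebra F Ω := i.toRingHom.toAlgebra
  have _ : IsScalarTower L F Ω := IsScalarTower.of_algebraMap_eq fun x => (i.commutes x).symm
  let _ : Algebra k F := ((algebraMap L F).comp (algebraMap k L)).toAlgebra
  have _ : IsScalarTower k L F := IsScalarTower.of_algebraMap_eq fun x => rfl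
  have _ : IsScalarTower k F Ω := IsScalarTower.of_algebraMap_eq fun x => by
    rw [IsScalarTower.algebraMap_apply k L F, ← IsScalarTower.algebraMap_apply L F Ω,
      ← IsScalarTower.algebraMap_apply k L Ω]
  have _ : FiniteDimensional k F := Module.Finite.trans (R := k) L F
  let MF := IntermediateField.adjoin K (Set.range (algebraMap F Ω))
  have hFMF : ∀ x : F, algebraMap F Ω x ∈ MF := fun x =>
    IntermediateField.subset_adjoin _ _ ⟨x, rfl⟩
  let _ : Algebra F MF := ((algebraMap F Ω).codRestrict MF hFMF).toAlgebra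
  have _ : IsScalarTower F MF Ω := IsScalarTower.of_algebraMap_eq fun x => rfl
  have hMF : IntermediateField.adjoin K (Set.range (algebraMap F MF)) = ⊤ := by
    apply IntermediateField.lift_injective
    rw [IntermediateField.lift_adjoin, IntermediateField.lift_top]
    congr 1
    ext x
    constructor
    · rintro ⟨_, ⟨x, rfl⟩, rfl⟩
      exact ⟨x, rfl⟩
    · rintro ⟨x, rfl⟩
      exact ⟨algebraMap F MF x, ⟨x, rfl⟩, rfl⟩
  have hKM : ∀ x : K, algebraMap M Ω (algebraMap K M x) = algebraMap K Ω x := fun x =>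
    (IsScalarTower.algebraMap_apply K M Ω x).symm
  have hLM : ∀ x : L, algebraMap M Ω (algebraMap L M x) = algebraMap L Ω x := fun x =>
    (IsScalarTower.algebraMap_apply L M Ω x).symm
  have hMMF : ∀ x : M, algebraMap M Ω x ∈ MF := by
    intro x
    have hm : x ∈ IntermediateField.adjoin K (Set.range (algebraMap L M)) := by
      rw [hM]; trivial
    induction hm using IntermediateField.adjoin_induction with
    | mem y hy =>
      obtain ⟨x, rfl⟩ := hy
      rw [hLM, IsScalarTower.algebraMap_apply L F Ω]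
      exact hFMF _
    | algebraMap c =>
      rw [hKM]
      exact MF.algebraMap_mem c
    | add a b _ _ ha hb => rw [map_add]; exact add_mem ha hb
    | inv a _ ha => rw [map_inv₀]; exact inv_mem ha
    | mul a b _ _ ha hb => rw [map_mul]; exact mul_mem ha hb
  have hwF : Transcendental F (algebraMap K MF w) := by
    intro h
    have h1 : IsAlgebraic F (algebraMap K Ω w) := by
      have h2 : algebraMap K Ω w = algebraMap MF Ω (algebraMap K MF w) :=
        IsScalarTower.algebraMap_apply K MF Ω w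
      rw [h2]
      exact h.algebraMap
    have h2 : IsAlgebraic k (algebraMap K Ω w) := h1.restrictScalars k
    exact hw ((isAlgebraic_algebraMap_iff (algebraMap K Ω).injective).1 h2)
  have hpow : ∀ (h : L[X]) (z : M), z ^ p = aeval (algebraMap K M w) h →
      (⟨algebraMap M Ω z, hMMF z⟩ : MF) ^ p = aeval (algebraMap K MF w) (h.map (algebraMap L F)) := by
    intro h z hz
    apply Subtype.ext
    show algebraMap M Ω z ^ p = algebraMap MF Ω (aeval (algebraMap K MF w) (h.map (algebraMap L F)))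
    rw [← map_pow, hz, ← aeval_algebraMap_apply, ← aeval_algebraMap_apply, hKM,
      ← IsScalarTower.algebraMap_apply K MF Ω, aeval_map_algebraMap]
  have hmap : ∀ h : L[X], h ≠ 0 → h.map (algebraMap L F) ≠ 0 := fun h hh =>
    (Polynomial.map_ne_zero_iff (algebraMap L F).injective).2 hh
  have hramT : ∀ t ∈ T, RamAt p (algebraMap K MF w) (algebraMap L F t) := by
    intro t ht
    obtain ⟨h, z, hh, hz, hm⟩ := hcovT t ht
    refine ramAt_of_poly hp.out hwF (hmap h hh) (hpow h z hz) ?_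
    rwa [← eq_rootMultiplicity_map (algebraMap L F).injective]
  have hramτ : RamAt p (algebraMap K MF w) pb.gen := by
    obtain ⟨h, z, hh, hz, hPh, hPp⟩ := hcovP
    exact ramAt_of_poly hp.out hwF (hmap h hh) (hpow h z hz)
      (not_dvd_rootMultiplicity hPirr hh hPh hPp hgenP)
  have hτ : ∀ x : L, P.eval x ≠ 0 → algebraMap L F x ≠ pb.gen := by
    intro x hx h
    rw [← h, aeval_algebraMap_apply, map_eq_zero] at hgenP
    exact hx hgenP
  obtain ⟨G, Yτ, hG, hYτ, hYτeq, hrel⟩ := data_far hp.out hζ hMF hw hramT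
    (fun t ht => hτ t (hPT t ht)) hramτ ht₀ hs hD hYfix hYeq hbig
  have hinj : ∀ z : L, z ≠ 0 → algebraMap L F z ≠ 0 := fun z hz => (_root_.map_ne_zero _).2 hz
  have hfn := far_norm hGen S S' hr hv he hSNR hNR' hnet (y := algebraMap k L y)
    (hτ _ hPy) (hdl y) hD hG (fun t ht => hy t ht) hval (by
      intro t ht u hu htu htτ huτ
      refine nr_of_symbol hp.out hpow' ?_ (hrel t ht u hu htu)
      exact mul_ne_zero (hinj _ (div_ne_zero (hD t ht) (hD u hu)))
        (div_ne_zero (sub_ne_zero.2 (Ne.symm huτ)) (sub_ne_zero.2 (Ne.symm htτ)))) ht₀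
  have h0 : algebraMap L Ω (D t₀) * (Y t₀ : Ω) ^ p = 1 := by
    rw [hYeq t₀ ht₀, div_self (sub_const_ne_zero (k := k) hw t₀)]
  rw [← hmin]
  exact hasVal_of_norm hs pb hG hYτ hYτeq (hYfix t₀ ht₀) h0 hfn

end

end Pool.Agent.Lib.MP_c385f6_ag
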