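import Mathlib
import Pool.Agent.Lib.MP_c385f6_ag.AllP.Bridge
import Pool.Agent.Lib.MP_c385f6_ag.PlaceMain
import Pool.Agent.Lib.MP_c385f6_ag.Cpl.Stmts

set_option autoImplicit false

/-!
The theorem on sections over all finite extensions of `ℚ_p`, from the completeness theorem and the
existence of the sets of points.
-/

namespace Pool.Agent.Lib.MP_c385f6_ag.Cpl

open Polynomial Finset

section values
variable {p : ℕ} {L F : Type*} [Field L] [Field F] (S : LF p L F)

theorem v_one : S.v 1 = 0 := by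
  have h1 := S.v_mul 1 1 one_ne_zero one_ne_zero
  rw [one_mul] at h1
  omega

/-- natural numbers are integers -/
theorem v_nat (n : ℕ) : 0 ≤ S.v (n : L) := by
  induction n with
  | zero => rw [Nat.cast_zero, S.v_zero]
  | succ n ih =>
    by_cases h0 : (n : L) = 0
    · rw [Nat.cast_succ, h0, zero_add, v_one]
    by_cases h1 : (n : L) + 1 = 0
    · rw [Nat.cast_succ, h1, S.v_zero]
    · have h2 := S.v_add (n : L) 1 h0 one_ne_zero h1
      rw [Nat.cast_succ]
      rw [v_one, min_eq_right ih] at h2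
      exact h2

theorem res_nat (n : ℕ) : S.res (n : L) = (n : F) := by
  induction n with
  | zero =>
    rw [Nat.cast_zero, Nat.cast_zero]
    exact (S.res_zero 0 (by rw [S.v_zero])).2 (Or.inl rfl)
  | succ n ih =>
    rw [Nat.cast_succ, Nat.cast_succ, S.res_add _ _ (v_nat S n) (by rw [v_one]), ih, S.res_one]

/-- numbers prime to `p` are units -/
theorem v_nat_unit [CharP F p] {n : ℕ} (h : ¬ p ∣ n) : S.v (n : L) = 0 := by
  have h1 : S.res (n : L) ≠ 0 := by
    rw [res_nat]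
    intro h0
    exact h ((CharP.cast_eq_zero_iff F p n).1 h0)
  have h2 := v_nat S n
  rw [Ne, S.res_zero _ h2, not_or] at h1
  omega

/-- the trace one element -/
theorem exists_theta {k : Type*} [Field k] [Algebra k L] [CharP F p] (h : ¬ p ∣ Module.finrank k L) :
    ∃ θ : L, 0 ≤ S.v θ ∧ Algebra.trace k L θ = 1 := by
  set d := Module.finrank k L with hd
  have h1 := v_nat_unit S h
  have h2 : (d : L) ≠ 0 := by
    intro h0
    have h3 := res_nat S d
    rw [h0, (S.res_zero 0 (by rw [S.v_zero])).2 (Or.inl rfl)] at h3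
    exact h ((CharP.cast_eq_zero_iff F p d).1 h3.symm)
  have h2' : (d : k) ≠ 0 := by
    intro h0
    apply h2
    rw [← map_natCast (algebraMap k L), h0, map_zero]
  refine ⟨algebraMap k L (d : k)⁻¹, ?_, ?_⟩
  · rw [map_inv₀, map_natCast]
    have h4 := S.v_mul (d : L) (d : L)⁻¹ h2 (inv_ne_zero h2)
    rw [mul_inv_cancel₀ h2, v_one, h1] at h4
    omega
  · rw [Algebra.trace_algebraMap, ← hd, nsmul_eq_mul, mul_inv_cancel₀ h2']

end values

/-- the points of `L` which are not too close to `k` -/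
def Far {p : ℕ} (k : Type*) {L F : Type*} [Field k] [Field L] [Field F] [Algebra k L] (S : LF p L F)
    (n : ℕ) : Set L :=
  {x | ∀ y : k, algebraMap k L y ≠ x ∧ S.dl (algebraMap k L y) x < n}

/-- all the properties of a set of points -/
structure Good {p : ℕ} (k : Type*) {L F : Type*} [Field k] [Field L] [Field F] [Algebra k L]
    (S : LF p L F) (T : Set L) (m : ℤ) : Prop where
  finite : T.Finite
  net : S.Net T m
  stable : ∀ (g : L ≃ₐ[k] L), ∀ t ∈ T, g t ∈ T
  dist : ∀ y : k, ∀ t ∈ T, algebraMap k L y ≠ t ∧ S.dl (algebraMap k L y) t ≤ m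
  orbit : ∀ y : k, ∀ t ∈ T, ∀ t' ∈ T, S.dl (algebraMap k L y) t = m →
    S.dl (algebraMap k L y) t' = m → ∃ g : L ≃ₐ[k] L, g t = t'
  last : ∀ y : k, ∀ t ∈ T, S.dl (algebraMap k L y) t = m → ∀ E : L, E ≠ 0 →
      (∀ u, S.Un 1 u → S.h E u = 0) → (∀ g : L ≃ₐ[k] L, g t = t → Eqv p (g E) E) →
      ∃ y' : k, S.Cl (m + S.e) (algebraMap k L y) (algebraMap k L y') ∧
        ∀ r ∈ T, S.dl (algebraMap k L y) r = 0 →
          Eqv p E ((algebraMap k L y' - t) * (algebraMap k L y - r) /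
            ((algebraMap k L y - t) * (algebraMap k L y' - r)))

theorem net_mono {p : ℕ} {L F : Type*} [Field L] [Field F] {S : LF p L F} {T T' : Set L} {m : ℤ}
    (h : S.Net T m) (hT : T ⊆ T') : S.Net T' m := by
  intro x
  obtain ⟨t, ht, h⟩ := h x
  exact ⟨t, hT ht, h⟩

/-- a good set can be enlarged by points which are far from `k` -/
theorem Good.grow (hCh : StChord) {p : ℕ} [hp : Fact p.Prime] {k L F : Type} [Field k] [Field L]
    [Field F] [Algebra k L] {S : LF p L F} {T T' : Set L} {m : ℤ} (hG : Good k S T m) {n : ℕ}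
    (hn : (n : ℤ) ≤ m) (h1m : 1 ≤ m) (h1 : T ⊆ T') (h2 : T' ⊆ T ∪ Far k S n) (hfin : T'.Finite)
    (hst : ∀ (g : L ≃ₐ[k] L), ∀ t ∈ T', g t ∈ T') : Good k S T' m := by
  obtain ⟨c1, c2, c3, c4, c5, c6, c7, c8, c9⟩ := hCh p hp L F _ _ S
  have hfar : ∀ y : k, ∀ t ∈ T', S.dl (algebraMap k L y) t = m → t ∈ T := by
    intro y t ht h
    rcases h2 ht with h3 | h3
    · exact h3
    · have := (h3 y).2
      omega
  have hne : ∀ y : k, ∀ t ∈ T', algebraMap k L y ≠ t := by
    intro y t ht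
    rcases h2 ht with h3 | h3
    · exact (hG.dist y t h3).1
    · exact (h3 y).1
  refine ⟨hfin, net_mono hG.net h1, hst, ?_, ?_, ?_⟩
  · intro y t ht
    rcases h2 ht with h3 | h3
    · exact hG.dist y t h3
    · have := h3 y
      exact ⟨this.1, by omega⟩
  · intro y t ht t' ht' e1 e2
    exact hG.orbit y t (hfar y t ht e1) t' (hfar y t' ht' e2) e1 e2
  · intro y t ht e1 E hE hEu hEg
    obtain ⟨y', hy', h3⟩ := hG.last y t (hfar y t ht e1) e1 E hE hEu hEg
    refine ⟨y', hy', ?_⟩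
    intro r hr hyr
    -- a point of `T` at distance zero
    obtain ⟨x, hxy, hx0⟩ := c5 (algebraMap k L y) 0 le_rfl
    obtain ⟨r0, hr0, hxr⟩ := hG.net x
    have hyr0 : S.dl (algebraMap k L y) r0 = 0 := by
      rcases hxr with rfl | hxr
      · exact hx0
      by_cases hx : x = r0
      · rw [← hx]
        exact hx0
      have ha := c2 _ _ (hG.dist y r0 hr0).1
      by_contra hne0
      have hb := c4 (algebraMap k L y) r0 x (hG.dist y r0 hr0).1 (Ne.symm hx) hxy.symm
      rw [hx0, c1 r0 x] at hb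
      omega
    have hmain := h3 r0 hr0 hyr0
    set Y := algebraMap k L y with hY
    set Y' := algebraMap k L y' with hY'
    have n1 : Y ≠ r := hne y r hr
    have n2 : Y' ≠ r := hne y' r hr
    have n3 : Y ≠ r0 := hne y r0 (h1 hr0)
    have n4 : Y' ≠ r0 := hne y' r0 (h1 hr0)
    have n5 : Y ≠ t := hne y t ht
    have n6 : Y' ≠ t := hne y' t ht
    have s1 := sub_ne_zero.2 n1
    have s2 := sub_ne_zero.2 n2
    have s3 := sub_ne_zero.2 n3
    have s4 := sub_ne_zero.2 n4
    have s5 := sub_ne_zero.2 n5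
    have s6 := sub_ne_zero.2 n6
    -- the cross ratio is a `p`-th power
    have hcr : ∃ x, x ≠ 0 ∧ (Y - r0) * (Y' - r) / ((Y - r) * (Y' - r0)) = x ^ p := by
      by_cases q1 : Y = Y'
      · refine ⟨1, one_ne_zero, ?_⟩
        rw [← q1, one_pow]
        field_simp
      by_cases q2 : r = r0
      · refine ⟨1, one_ne_zero, ?_⟩
        rw [q2, one_pow]
        field_simp
      have hYY : (m : ℤ) + S.e ≤ S.dl Y Y' := by
        rcases hy' with h | h
        · exact absurd h q1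
        · exact h
      have hY'r0 : S.dl Y' r0 = 0 := by
        have ha := c2 Y' r0 n4
        by_contra hne0
        have hb := c4 Y Y' r0 q1 n4 n3
        rw [hyr0] at hb
        have : (0 : ℤ) ≤ S.e := by positivity
        omega
      obtain ⟨e3, e4⟩ := c8 Y Y' r0 r n1 n4 q1 q2
      have hv : (S.e : ℤ) + 1 ≤ S.v (1 - (Y - r0) * (Y' - r) / ((Y - r) * (Y' - r0))) := by
        rw [e4, hyr, hY'r0]
        have := c2 r r0 q2
        omega
      have hne0 : (Y - r0) * (Y' - r) / ((Y - r) * (Y' - r0)) ≠ 0 :=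
        div_ne_zero (mul_ne_zero s3 s2) (mul_ne_zero s1 s4)
      obtain ⟨x, hx⟩ := S.pow_unit _ hne0 (by
        rw [← neg_sub, v_neg]
        exact hv)
      refine ⟨x, ?_, hx⟩
      rintro rfl
      rw [zero_pow hp.out.ne_zero] at hx
      exact hne0 hx
    obtain ⟨x, hx, hcr⟩ := hcr
    obtain ⟨z, hz, hmain⟩ := hmain
    refine ⟨z * x, mul_ne_zero hz hx, ?_⟩
    rw [hmain, mul_pow, ← hcr]
    field_simp

section far

variable {p : ℕ} {k L F : Type*} [Field k] [Field L] [Field F] [Algebra k L] {S : LF p L F}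

theorem v_pow {x : L} (hx : x ≠ 0) (n : ℕ) : S.v (x ^ n) = n * S.v x := by
  induction n with
  | zero => rw [pow_zero, v_one, Nat.cast_zero, zero_mul]
  | succ n ih =>
    rw [pow_succ, S.v_mul _ _ (pow_ne_zero _ hx) hx, ih]
    push_cast
    ring

theorem far_stable (hv : ∀ (g : L ≃ₐ[k] L) (x : L), S.v (g x) = S.v x) {n : ℕ} {x : L}
    (hx : x ∈ Far k S n) (g : L ≃ₐ[k] L) : g x ∈ Far k S n := by
  intro y
  obtain ⟨h1, h2⟩ := hx y
  have h3 : algebraMap k L y - g x = g (algebraMap k L y - x) := by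
    rw [map_sub, AlgEquiv.commutes]
  refine ⟨fun h => h1 (g.injective ?_), ?_⟩
  · rw [AlgEquiv.commutes, h]
  · have h4 : S.dl (algebraMap k L y) (g x) = S.dl (algebraMap k L y) x := by
      unfold LF.dl
      rw [h3, hv, hv]
    rw [h4]
    exact h2

/-- points with the residue class of `a` -/
theorem far_of_res {a b : L} (ha : ∀ y : k, 0 ≤ S.v (algebraMap k L y) →
    S.res (algebraMap k L y) ≠ S.res a) (hb0 : 0 ≤ S.v b) (hb : S.res b = S.res a) {n : ℕ}
    (hn : 1 ≤ n) : b ∈ Far k S n := by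
  intro y
  have hres0 : S.res 0 = 0 := (S.res_zero 0 (by rw [S.v_zero])).2 (Or.inl rfl)
  have hn' : (1 : ℤ) ≤ n := by exact_mod_cast hn
  by_cases hy : 0 ≤ S.v (algebraMap k L y)
  · have h1 := ha y hy
    rw [← hb] at h1
    have hne : algebraMap k L y ≠ b := fun h => h1 (congrArg S.res h)
    have h2 : 0 ≤ S.v (-b) := by rw [v_neg]; exact hb0
    have h3 : S.res (-b) = - S.res b := by
      have := S.res_add b (-b) hb0 h2
      rw [add_neg_cancel, hres0] at this
      exact eq_neg_of_add_eq_zero_right this.symm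
    have h4 : S.res (algebraMap k L y - b) ≠ 0 := by
      rw [sub_eq_add_neg, S.res_add _ _ hy h2, h3, ← sub_eq_add_neg]
      exact sub_ne_zero.2 h1
    have h5 : algebraMap k L y - b ≠ 0 := sub_ne_zero.2 hne
    have h6 : 0 ≤ S.v (algebraMap k L y - b) := by
      by_cases hy0 : algebraMap k L y = 0
      · rw [hy0, zero_sub]
        exact h2
      by_cases hb1 : b = 0
      · rw [hb1, sub_zero]
        exact hy
      rw [sub_eq_add_neg] at h5 ⊢
      exact (le_min hy h2).trans (S.v_add _ _ hy0 (neg_ne_zero.2 hb1) h5)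
    rw [Ne, S.res_zero _ h6, not_or] at h4
    refine ⟨hne, ?_⟩
    unfold LF.dl
    rw [min_eq_left hy, min_eq_left hb0]
    omega
  · have hne : algebraMap k L y ≠ b := fun h => hy (by rw [h]; exact hb0)
    have hy0 : algebraMap k L y ≠ 0 := fun h => hy (by rw [h, S.v_zero])
    have h6 : S.v (algebraMap k L y - b) = S.v (algebraMap k L y) := by
      by_cases hb1 : b = 0
      · rw [hb1, sub_zero]
      · rw [sub_eq_add_neg]
        exact v_add_lt S hy0 (neg_ne_zero.2 hb1) (by rw [v_neg]; omega)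
    refine ⟨hne, ?_⟩
    unfold LF.dl
    rw [h6, min_eq_left hb0, min_eq_right (by omega)]
    omega

/-- the points `a + ϖ ^ (j + 1)` -/
theorem far_pow {a : L} {ϖ : k} (ha : ∀ y : k, 0 ≤ S.v (algebraMap k L y) →
    S.res (algebraMap k L y) ≠ S.res a) (ha0 : 0 ≤ S.v a) (hϖ : ϖ ≠ 0)
    (hϖ' : 1 ≤ S.v (algebraMap k L ϖ)) (j : ℕ) {n : ℕ} (hn : 1 ≤ n) :
    a + algebraMap k L (ϖ ^ (j + 1)) ∈ Far k S n := by
  have hne : algebraMap k L ϖ ≠ 0 := (_root_.map_ne_zero _).2 hϖ
  have h1 : 1 ≤ S.v (algebraMap k L (ϖ ^ (j + 1))) := by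
    rw [map_pow, v_pow hne]
    push_cast
    nlinarith
  have h2 : S.res (a + algebraMap k L (ϖ ^ (j + 1))) = S.res a := by
    rw [S.res_add _ _ ha0 (by omega), (S.res_zero _ (by omega)).2 (Or.inr h1), add_zero]
  refine far_of_res ha ?_ h2 hn
  by_cases h3 : a = 0
  · rw [h3, zero_add]
    omega
  · have h4 : algebraMap k L (ϖ ^ (j + 1)) ≠ 0 :=
      (_root_.map_ne_zero _).2 (pow_ne_zero _ hϖ)
    have h5 : a + algebraMap k L (ϖ ^ (j + 1)) ≠ 0 := by
      intro h5
      apply ha 0 (by rw [map_zero, S.v_zero])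
      rw [← h2, h5, map_zero]
    exact (le_min ha0 (by omega)).trans (S.v_add _ _ h3 h4 h5)

theorem pow_inj_pts {a : L} {ϖ : k} (hϖ : ϖ ≠ 0) (hϖ' : 1 ≤ S.v (algebraMap k L ϖ)) :
    Function.Injective fun j : ℕ => a + algebraMap k L (ϖ ^ (j + 1)) := by
  intro i j hij
  have hne : algebraMap k L ϖ ≠ 0 := (_root_.map_ne_zero _).2 hϖ
  have h1 : algebraMap k L ϖ ^ (i + 1) = algebraMap k L ϖ ^ (j + 1) := by
    have := add_left_cancel (show a + algebraMap k L (ϖ ^ (i + 1)) =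
      a + algebraMap k L (ϖ ^ (j + 1)) from hij)
    rwa [map_pow, map_pow] at this
  have h2 := congrArg S.v h1
  rw [v_pow hne, v_pow hne] at h2
  have h3 := mul_right_cancel₀ (show S.v (algebraMap k L ϖ) ≠ 0 by omega) h2
  push_cast at h3
  omega

/-- the orbits of these points all have the same number of elements -/
theorem orbit_card [DecidableEq L] [Fintype (L ≃ₐ[k] L)] (a : L) (x : k) :
    (univ.image fun g : L ≃ₐ[k] L => g (a + algebraMap k L x)).card =
      (univ.image fun g : L ≃ₐ[k] L => g a).card := by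
  have h1 : (univ.image fun g : L ≃ₐ[k] L => g (a + algebraMap k L x)) =
      (univ.image fun g : L ≃ₐ[k] L => g a).image (fun b => b + algebraMap k L x) := by
    rw [Finset.image_image]
    refine Finset.image_congr fun g _ => ?_
    simp only [Function.comp_apply, map_add, AlgEquiv.commutes]
  rw [h1, Finset.card_image_of_injective _ (add_left_injective _)]

theorem orbit_card_dvd [DecidableEq L] [Fintype (L ≃ₐ[k] L)] [FiniteDimensional k L]
    [IsGalois k L] (a : L) :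
    (univ.image fun g : L ≃ₐ[k] L => g a).card ∣ Module.finrank k L := by
  have h1 := MulAction.index_stabilizer (G := L ≃ₐ[k] L) a
  have h2 : MulAction.orbit (L ≃ₐ[k] L) a =
      ((univ.image fun g : L ≃ₐ[k] L => g a : Finset L) : Set L) := by
    ext b
    simp only [MulAction.mem_orbit_iff, AlgEquiv.smul_def, Finset.coe_image, Finset.coe_univ,
      Set.image_univ, Set.mem_range]
  rw [h2, Set.ncard_coe_finset] at h1
  rw [← h1, ← IsGalois.card_aut_eq_finrank]
  exact Subgroup.index_dvd_card _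

/-- enlarging a set by `j` orbits -/
theorem exists_orbits [DecidableEq L] [Fintype (L ≃ₐ[k] L)] [FiniteDimensional k L]
    (hv : ∀ (g : L ≃ₐ[k] L) (x : L), S.v (g x) = S.v x)
    {a : L} {ϖ : k} (ha : ∀ y : k, 0 ≤ S.v (algebraMap k L y) →
    S.res (algebraMap k L y) ≠ S.res a) (ha0 : 0 ≤ S.v a) (hϖ : ϖ ≠ 0)
    (hϖ' : 1 ≤ S.v (algebraMap k L ϖ)) (T : Finset L) (hT : ∀ (g : L ≃ₐ[k] L), ∀ t ∈ T, g t ∈ T)
    (j : ℕ) : ∃ T' : Finset L, T ⊆ T' ∧ (∀ t ∈ T', t ∈ T ∨ t ∈ Far k S 1) ∧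
      (∀ (g : L ≃ₐ[k] L), ∀ t ∈ T', g t ∈ T') ∧
      T'.card = T.card + j * (univ.image fun g : L ≃ₐ[k] L => g a).card := by
  induction j with
  | zero => exact ⟨T, Finset.Subset.refl _, fun t ht => Or.inl ht, hT, by rw [zero_mul, add_zero]⟩
  | succ j ih =>
    obtain ⟨T', h1, h2, h3, h4⟩ := ih
    have h5 : (Set.range fun j : ℕ => a + algebraMap k L (ϖ ^ (j + 1))).Infinite :=
      Set.infinite_range_of_injective (pow_inj_pts hϖ hϖ')
    obtain ⟨b, ⟨i, hi⟩, hb⟩ := h5.exists_notMem_finset T'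
    have hi' : a + algebraMap k L (ϖ ^ (i + 1)) = b := hi
    have hbfar : b ∈ Far k S 1 := by
      rw [← hi']
      exact far_pow ha ha0 hϖ hϖ' i le_rfl
    refine ⟨T' ∪ univ.image (fun g : L ≃ₐ[k] L => g b), h1.trans Finset.subset_union_left, ?_, ?_,
      ?_⟩
    · intro t ht
      rcases Finset.mem_union.1 ht with h | h
      · exact h2 t h
      · obtain ⟨g, -, rfl⟩ := Finset.mem_image.1 h
        exact Or.inr (far_stable hv hbfar g)
    · intro g t ht
      rcases Finset.mem_union.1 ht with h | h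
      · exact Finset.mem_union_left _ (h3 g t h)
      · obtain ⟨g', -, rfl⟩ := Finset.mem_image.1 h
        exact Finset.mem_union_right _ (Finset.mem_image.2 ⟨g * g', Finset.mem_univ _, rfl⟩)
    · rw [Finset.card_union_of_disjoint, h4, ← hi', orbit_card]
      · ring
      · rw [Finset.disjoint_left]
        intro t ht ht'
        obtain ⟨g, -, rfl⟩ := Finset.mem_image.1 ht'
        apply hb
        have := h3 g.symm _ ht
        rwa [AlgEquiv.symm_apply_apply] at this

/-- enlarging a set such that the number of elements is a multiple of `p` -/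
theorem exists_dvd [hp : Fact p.Prime] [DecidableEq L] [FiniteDimensional k L] [IsGalois k L]
    (hv : ∀ (g : L ≃ₐ[k] L) (x : L), S.v (g x) = S.v x) (hd : ¬ p ∣ Module.finrank k L)
    {a : L} {ϖ : k} (ha : ∀ y : k, 0 ≤ S.v (algebraMap k L y) →
    S.res (algebraMap k L y) ≠ S.res a) (ha0 : 0 ≤ S.v a) (hϖ : ϖ ≠ 0)
    (hϖ' : 1 ≤ S.v (algebraMap k L ϖ)) (T : Finset L)
    (hT : ∀ (g : L ≃ₐ[k] L), ∀ t ∈ T, g t ∈ T) :
    ∃ T' : Finset L, T ⊆ T' ∧ (∀ t ∈ T', t ∈ T ∨ t ∈ Far k S 1) ∧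
      (∀ (g : L ≃ₐ[k] L), ∀ t ∈ T', g t ∈ T') ∧ p ∣ T'.card := by
  classical
  set s := (univ.image fun g : L ≃ₐ[k] L => g a).card with hs
  have hs' : ¬ p ∣ s := fun h => hd (h.trans (orbit_card_dvd a))
  have hs0 : (s : ZMod p) ≠ 0 := by rwa [Ne, ZMod.natCast_eq_zero_iff]
  obtain ⟨T', h1, h2, h3, h4⟩ := exists_orbits hv ha ha0 hϖ hϖ' T hT
    (-(T.card : ZMod p) / s).val
  refine ⟨T', h1, h2, h3, ?_⟩
  rw [← ZMod.natCast_eq_zero_iff, h4, ← hs]
  push_cast
  rw [ZMod.natCast_zmod_val, div_mul_cancel₀ _ hs0, add_neg_cancel]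

end far

universe u v

/-- the theorem, with the statements of the modules as hypotheses -/
theorem main (hCpl : StCpl) (hExt : StExt) (hTex : StTex) (hNR : StNR) (hCh : StChord) (p : ℕ)
    [hp : Fact p.Prime] (k : Type) [iK : Field k] [Algebra ℚ_[p] k] [FiniteDimensional ℚ_[p] k] :
    ∃ (L : Type) (_ : Field L) (_ : Algebra k L) (_ : FiniteDimensional k L),
      IsGalois k L ∧ ¬ p ∣ Module.finrank k L ∧ (∃ ζ : L, IsPrimitiveRoot ζ p) ∧
      ∃ (U : ℕ → Set L) (T₀ : ℕ → Finset L), Monotone U ∧ (U 0).Infinite ∧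
      (∀ x, (∃ n, x ∈ U n) ↔ x ∉ Set.range (algebraMap k L)) ∧
      (∀ n, ∀ t ∈ T₀ n, t ∉ Set.range (algebraMap k L)) ∧
      (∀ n, ∀ g : L ≃ₐ[k] L, ∀ t ∈ T₀ n, g t ∈ T₀ n) ∧ (∀ n, p ∣ (T₀ n).card) ∧
      ∀ (n : ℕ) (T : Finset L), T₀ n ⊆ T → (∀ t ∈ T, t ∈ T₀ n ∨ t ∈ U n) →
      (∀ g : L ≃ₐ[k] L, ∀ t ∈ T, g t ∈ T) →
      ∀ (K M Ω : Type u) (ι : Type v) [Field K] [Field M] [Field Ω] [Algebra k K] [Algebra k Ω]
        [Algebra L Ω] [Algebra K Ω] [Algebra K M] [Algebra L M] [Algebra M Ω]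
        [IsScalarTower k K Ω] [IsScalarTower k L Ω] [IsScalarTower K M Ω] [IsScalarTower L M Ω]
        [IsAlgClosure K Ω],
      IntermediateField.adjoin K (Set.range (algebraMap L M)) = ⊤ →
      ∀ (w : K) (c : ι → L) (a : ι → L → ℕ) (z : ι → M), Transcendental k w → (∀ i, c i ≠ 0) →
      (∀ i, z i ^ p = algebraMap L M (c i) *
        ∏ t ∈ T, (algebraMap K M w - algebraMap L M t) ^ a i t) →
      (∀ t ∈ T, ∃ i, ¬ p ∣ a i t) → (∀ i, p ∣ ∑ t ∈ T, a i t) →
      IntermediateField.adjoin L (insert (algebraMap K M w) (Set.range z)) = ⊤ →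
      ((∃ s : AbsGal k Ω →* PiOne k K Ω, IsSection k K Ω s) ↔
        ∃ B : ValuationSubring K, IsRationalPlace k K B) ∧
      ∀ s : AbsGal k Ω →* PiOne k K Ω, IsSection k K Ω s → ∃ y : k,
        (∃ B : ValuationSubring K, IsRationalPlace k K B ∧
          B.valuation (w - algebraMap k K y) < 1) ∧
        ∀ r ∈ T, ∀ t ∈ T, ∃ Z : maxUnramified k K Ω,
          algebraMap L Ω (algebraMap k L y - r) * (algebraMap K Ω w - algebraMap L Ω t) *
            (Z : Ω) ^ p = algebraMap L Ω (algebraMap k L y - t) *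
              (algebraMap K Ω w - algebraMap L Ω r) ∧
          ∀ g : AbsGal k Ω, (∀ (x : L) (b : algebraicClosure k Ω),
            (b : Ω) = algebraMap L Ω x → g b = b) → s g Z = Z := by
  classical
  have hpp := hp.out
  have hchk : CharZero k := charZero_of_injective_algebraMap (algebraMap ℚ_[p] k).injective
  obtain ⟨L, iL, iA, iD, iG, F, iF, S, ζ, a₀, ϖ, hE, hK, hSNR⟩ := hExt p hp k inferInstance inferInstance inferInstance
  have _ : CharP F p := hE.charF
  let iQ : Algebra ℚ_[p] L := ((algebraMap k L).comp (algebraMap ℚ_[p] k)).toAlgebra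
  have iT : IsScalarTower ℚ_[p] k L := IsScalarTower.of_algebraMap_eq (fun x => rfl)
  have iD' : FiniteDimensional ℚ_[p] L := Module.Finite.trans (R := ℚ_[p]) k L
  obtain ⟨R, hR⟩ := S.fin
  obtain ⟨c1, c2, c3, c4, c5, c6, c7, c8, c9⟩ := hCh p hp L F iL iF S
  obtain ⟨-, -, hpow, -⟩ := hNR p hp L iL iQ iD' ζ hE.prim
  obtain ⟨m0, hm0⟩ := hCpl p hp k L F iK iL iF iA iD iG S hE.inv (exists_theta S hE.deg)
    ⟨ϖ, hE.pi_ne, hE.pi_pos⟩
  -- the sets of points
  have hTe : ∀ n : ℕ, ∃ (T : Finset L) (m : ℤ),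
      max m0 (max (2 * R.card + 1) (max (n + 1 : ℕ) 1)) ≤ m ∧ p ∣ T.card ∧
      Good k S (T : Set L) m := by
    intro n
    obtain ⟨T, m, hm, -, h1, h2, h3, h4, h5, h6⟩ := hTex p hp k L F iK iL iF iA iD iG S ζ a₀ ϖ hE hK
      (max m0 (max (2 * R.card + 1) (max (n + 1 : ℕ) 1))) ∅ Set.finite_empty (by simp)
    have hG : Good k S T m := ⟨h1, h2, h3, h4, h5, h6⟩
    have hm1 : (1 : ℤ) ≤ m :=
      (((le_max_right _ _).trans (le_max_right _ _)).trans (le_max_right _ _)).trans hm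
    obtain ⟨T', h7, h8, h9, h10⟩ := exists_dvd (S := S) hE.inv hE.deg hE.a_res hE.a_int hE.pi_ne
      hE.pi_pos h1.toFinset (fun g t ht => by
        rw [Set.Finite.mem_toFinset] at ht ⊢
        exact h3 g t ht)
    refine ⟨T', m, hm, h10, hG.grow hCh (n := 1) (by exact_mod_cast hm1) hm1 ?_ ?_
      (Finset.finite_toSet _) h9⟩
    · intro t ht
      exact h7 ((Set.Finite.mem_toFinset _).2 ht)
    · intro t ht
      rcases h8 t ht with h | h
      · exact Or.inl ((Set.Finite.mem_toFinset _).1 h)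
      · exact Or.inr h
  choose T₁ m₁ hm₁ hp₁ hG₁ using hTe
  refine ⟨L, iL, iA, iD, iG, hE.deg, ⟨ζ, hE.prim⟩, fun n => Far k S (n + 1), T₁, ?_, ?_, ?_, ?_,
    ?_, hp₁, ?_⟩
  · intro n n' hn x hx y
    refine ⟨(hx y).1, (hx y).2.trans_le ?_⟩
    exact_mod_cast Nat.succ_le_succ hn
  · refine (Set.infinite_range_of_injective (pow_inj_pts (S := S) (a := a₀) hE.pi_ne
      hE.pi_pos)).mono ?_
    rintro _ ⟨j, rfl⟩
    exact far_pow hE.a_res hE.a_int hE.pi_ne hE.pi_pos j le_rfl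
  · intro x
    constructor
    · rintro ⟨n, hn⟩ ⟨y, hy⟩
      exact (hn y).1 hy
    · intro hx
      obtain ⟨T, m, hm, hAT, h1, h2, h3, h4, h5, h6⟩ := hTex p hp k L F iK iL iF iA iD iG S ζ a₀ ϖ hE hK
        0 {x} (Set.finite_singleton x) (by
          rintro _ rfl y hy
          exact hx ⟨y, hy⟩)
      refine ⟨m.toNat, fun y => ⟨fun hy => hx ⟨y, hy⟩, ?_⟩⟩
      have h7 := (h4 y x (hAT rfl)).2
      have h8 := Int.self_le_toNat m
      push_cast
      omega
  · intro n t ht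
    rintro ⟨y, rfl⟩
    exact ((hG₁ n).dist y _ ht).1 rfl
  · intro n g t ht
    exact (hG₁ n).stable g t ht
  · intro n T hT₀ hTU hTst K M Ω ι _ _ _ _ _ _ _ _ _ _ _ _ _ _ _ hM w c a z hw hc hz hcov hsum hgen
    have hm := hm₁ n
    have hm1 : m0 ≤ m₁ n := (le_max_left _ _).trans hm
    have hm2 : (2 * R.card + 1 : ℤ) ≤ m₁ n :=
      ((le_max_left _ _).trans (le_max_right _ _)).trans hm
    have hm3 : ((n + 1 : ℕ) : ℤ) ≤ m₁ n :=
      (((le_max_left _ _).trans (le_max_right _ _)).trans (le_max_right _ _)).trans hm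
    have hm4 : (1 : ℤ) ≤ m₁ n :=
      (((le_max_right _ _).trans (le_max_right _ _)).trans (le_max_right _ _)).trans hm
    have hG : Good k S (T : Set L) (m₁ n) := (hG₁ n).grow hCh hm3 hm4
      (fun t ht => hT₀ ht) (fun t ht => hTU t ht) (Finset.finite_toSet _) hTst
    have hcard : R.card * 2 < T.card := by
      have := card_of_net (T := T) S hG.net c3 c1 (N := 2 * R.card + 1) (by
        push_cast
        exact hm2)
      omega
    have hkey : ∀ s : AbsGal k Ω →* PiOne k K Ω, IsSection k K Ω s → ∃ y : k,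
        (∃ B : ValuationSubring K, IsRationalPlace k K B ∧
          B.valuation (w - algebraMap k K y) < 1) ∧
        ∀ r ∈ T, ∀ t ∈ T, ∃ Z : maxUnramified k K Ω,
          algebraMap L Ω (algebraMap k L y - r) * (algebraMap K Ω w - algebraMap L Ω t) *
            (Z : Ω) ^ p = algebraMap L Ω (algebraMap k L y - t) *
              (algebraMap K Ω w - algebraMap L Ω r) ∧
          ∀ g : AbsGal k Ω, (∀ (x : L) (b : algebraicClosure k Ω),
            (b : Ω) = algebraMap L Ω x → g b = b) → s g Z = Z := by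
      intro s hs
      obtain ⟨D, hD, hDeq, hD'⟩ := section_cmp S hpp hpow hSNR hR hE.prim hE.deg hM hTst hcard hw hc
        hz hcov hsum hgen hs
      obtain ⟨y, hy⟩ := hm0 (T : Set L) (m₁ n) hm1 hG.finite hG.net hG.stable hG.dist hG.orbit
        hG.last D hD hDeq
      obtain ⟨h1, h2⟩ := hD' y (fun h => (hG.dist y _ h).1 rfl) hy
      refine ⟨y, h1, fun r hr t ht => ?_⟩
      obtain ⟨Z, hZ1, hZ2⟩ := h2 r hr t ht
      refine ⟨Z, hZ2, fun g hg => ?_⟩
      obtain ⟨γ, rfl⟩ := exists_resAbs (L := L) (h := g) (fun x => hg x _ rfl)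
      exact hZ1 γ
    refine ⟨⟨?_, ?_⟩, hkey⟩
    · rintro ⟨s, hs⟩
      obtain ⟨y, ⟨B, hB, -⟩, -⟩ := hkey s hs
      exact ⟨B, hB⟩
    · rintro ⟨B, hB⟩
      exact exists_section hB

end Pool.Agent.Lib.MP_c385f6_ag.Cpl
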