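import Mathlib
import Pool.Agent.Lib.MP_c385f6_ag.AllP.Final
import Pool.Agent.Lib.MP_c385f6_ag.AllP.FarVal
import Pool.Agent.Lib.MP_c385f6_ag.Cpl.StCof

set_option autoImplicit false

/-!
Existence of the sets of points `T` for a given polynomial `f` (the additional branch points are
zeros of `f`).
-/

namespace Pool.Agent.Lib.MP_c385f6_ag.Cpl

open Polynomial

/-- All the monic irreducible factors of `f` over `L` without zeros in `k` are far from `k`,
compared with large depths. -/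
theorem exists_far_bound (hLF : StLF) (hVn : StVn) (hE0 : StE0) (hBdd : StBdd) (hNR : StNR) {p : ℕ}
    [hp : Fact p.Prime] {k L E : Type} [iK : Field k] [iQ : Algebra ℚ_[p] k]
    [iQf : FiniteDimensional ℚ_[p] k] [iL : Field L] [iE : Field E] [iA : Algebra k L]
    [iD : FiniteDimensional k L] (S : LF p L E) {ζ : L} (hζ : IsPrimitiveRoot ζ p)
    (hvp : 0 < S.v (p : L)) {f : k[X]} (hf : f ≠ 0) :
    ∃ m₀ : ℤ, ∀ m, m₀ ≤ m → ∀ P : L[X], Irreducible P → P.Monic →
      P ∣ f.map (algebraMap k L) → (∀ y : k, P.eval (algebraMap k L y) ≠ 0) →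
      FarPoly p k S m P := by
  classical
  have h1 : ∀ P : L[X], ∃ m₀ : ℤ, Irreducible P → P.Monic →
      (∀ y : k, P.eval (algebraMap k L y) ≠ 0) → ∀ m, m₀ ≤ m → FarPoly p k S m P := by
    intro P
    by_cases h : Irreducible P ∧ P.Monic ∧ ∀ y : k, P.eval (algebraMap k L y) ≠ 0
    · obtain ⟨m₀, hm₀⟩ := exists_farPoly hLF hVn hE0 hBdd hNR S hζ hvp h.1 h.2.1 h.2.2
      exact ⟨m₀, fun _ _ _ => hm₀⟩
    · exact ⟨0, fun a b c => absurd ⟨a, b, c⟩ h⟩
  choose mm hmm using h1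
  have hf' : f.map (algebraMap k L) ≠ 0 :=
    (Polynomial.map_ne_zero_iff (algebraMap k L).injective).2 hf
  obtain ⟨m₀, hm₀⟩ := ((UniqueFactorizationMonoid.normalizedFactors
    (f.map (algebraMap k L))).toFinset.image mm).exists_le
  refine ⟨m₀, fun m hm P hP hPm hPf hPk => hmm P hP hPm hPk m ((hm₀ _ ?_).trans hm)⟩
  refine Finset.mem_image_of_mem _ (Multiset.mem_toFinset.2 ?_)
  obtain ⟨Q, hQ, hPQ⟩ := UniqueFactorizationMonoid.exists_mem_normalizedFactors_of_dvd hf' hP hPf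
  have h2 := UniqueFactorizationMonoid.irreducible_of_normalized_factor Q hQ
  have h3 : Q.Monic := by
    rw [← UniqueFactorizationMonoid.normalize_normalized_factor Q hQ]
    exact monic_normalize h2.ne_zero
  rwa [eq_of_monic_of_associated hPm h3 hPQ]

/-- The properties of a set of points `T` for the covers with additional branch points at the zeros
of `f`. -/
structure Complete (p : ℕ) (k : Type) {L E : Type} [Field k] [Field L] [Field E] [Algebra k L]
    (S : LF p L E) (f : k[X]) (T : Finset L) (m : ℤ) : Prop where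
  net : S.Net (T : Set L) m
  stable : ∀ g : L ≃ₐ[k] L, ∀ t ∈ T, g t ∈ T
  ne : ∀ y : k, ∀ t ∈ T, algebraMap k L y ≠ t
  dvd_card : p ∣ T.card
  step : ∀ R' : Set k, (∀ x ∈ R', f.eval x = 0) → ∀ D : L → L → L,
      S.Cmp ((T : Set L) ∪ algebraMap k L '' R') D →
      (∀ g : L ≃ₐ[k] L, ∀ s ∈ (T : Set L) ∪ algebraMap k L '' R',
        ∀ t ∈ (T : Set L) ∪ algebraMap k L '' R', Eqv p (D (g s) (g t)) (g (D s t))) →
      ∃ y : k, y ∉ R' ∧ ∀ s ∈ (T : Set L) ∪ algebraMap k L '' R',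
        ∀ t ∈ (T : Set L) ∪ algebraMap k L '' R',
        Eqv p (D s t) ((algebraMap k L y - s) / (algebraMap k L y - t))
  far : ∀ P : L[X], Irreducible P → P.Monic → P ∣ f.map (algebraMap k L) →
      (∀ y : k, P.eval (algebraMap k L y) ≠ 0) → FarPoly p k S m P

/-- restriction of a compatible system -/
theorem cmp_left {p : ℕ} {L F : Type*} [Field L] [Field F] {S : LF p L F} {T T' : Set L}
    {D : L → L → L} (h : S.Cmp (T ∪ T') D) : S.Cmp T D where
  ne s hs t ht := h.ne s (Or.inl hs) t (Or.inl ht)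
  coc s hs t ht u hu := h.coc s (Or.inl hs) t (Or.inl ht) u (Or.inl hu)
  rel s hs t ht u hu := h.rel s (Or.inl hs) t (Or.inl ht) u (Or.inl hu)

/-- Existence of the sets of points. -/
theorem exists_complete (hCpl : StCpl) (hTexR : StTexR) (hRatAll : StRatAll) (hCh : StChord)
    (hLF : StLF) (hVn : StVn) (hE0 : StE0) (hBdd : StBdd) (hNR : StNR) {p : ℕ}
    [hp : Fact p.Prime] {k L E : Type} [iK : Field k] [iQ : Algebra ℚ_[p] k]
    [iQf : FiniteDimensional ℚ_[p] k] [iL : Field L] [iE : Field E] [iA : Algebra k L]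
    [iD : FiniteDimensional k L] [iG : IsGalois k L] {S : LF p L E} {ζ a : L} {ϖ : k}
    (hE : Ext p k L E S ζ a ϖ) (hK : Ext.Kind S ζ a ϖ) {f : k[X]} (hf : f ≠ 0)
    (hfk : (∃ ξ : k, IsPrimitiveRoot ξ p) → ∀ x : k, f.eval x ≠ 0) {A : Finset L}
    (hA : ∀ x ∈ A, ∀ y : k, algebraMap k L y ≠ x) (n : ℕ) :
    ∃ (T : Finset L) (m : ℤ), (n : ℤ) ≤ m ∧ A ⊆ T ∧ Complete p k S f T m := by
  classical
  have _ : CharP E p := hE.charF
  -- the bounds
  obtain ⟨m0, hm0⟩ := hCpl p hp k L E iK iL iE iA iD iG S hE.inv (exists_theta S hE.deg)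
    ⟨ϖ, hE.pi_ne, hE.pi_pos⟩
  obtain ⟨m2, hm2⟩ := exists_far_bound hLF hVn hE0 hBdd hNR S hE.prim hE.vp hf
  obtain ⟨m1, hm1⟩ : ∃ m1 : ℤ, (∃ g : L ≃ₐ[k] L, g a = a ∧ g ζ ≠ ζ) →
      ∀ (T : Set L) (m : ℤ), m1 ≤ m → S.Net T m →
      (∀ g : L ≃ₐ[k] L, ∀ t ∈ T, g t ∈ T) →
      (∀ y : k, ∀ t ∈ T, algebraMap k L y ≠ t ∧ S.dl (algebraMap k L y) t ≤ m) →
      (∀ y : k, ∀ t ∈ T, S.dl (algebraMap k L y) t = m → ∃ g : L ≃ₐ[k] L, g t = t ∧ g ζ ≠ ζ) →
      ∀ (R' : Set k), R' ⊆ {x | f.eval x = 0} → ∀ D : L → L → L,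
      S.Cmp (T ∪ algebraMap k L '' R') D →
      (∀ g : L ≃ₐ[k] L, ∀ s ∈ T ∪ algebraMap k L '' R', ∀ t ∈ T ∪ algebraMap k L '' R',
        Eqv p (D (g s) (g t)) (g (D s t))) →
      (∃ y : k, ∀ s ∈ T, ∀ t ∈ T,
        Eqv p (D s t) ((algebraMap k L y - s) / (algebraMap k L y - t))) →
      ∃ y : k, y ∉ R' ∧ ∀ s ∈ T ∪ algebraMap k L '' R', ∀ t ∈ T ∪ algebraMap k L '' R',
        Eqv p (D s t) ((algebraMap k L y - s) / (algebraMap k L y - t)) := by
    by_cases h1 : ∃ g : L ≃ₐ[k] L, g a = a ∧ g ζ ≠ ζ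
    · have hfin : {x : k | f.eval x = 0}.Finite := by
        refine (Finset.finite_toSet f.roots.toFinset).subset fun x hx => ?_
        rw [Finset.mem_coe, Multiset.mem_toFinset, mem_roots hf]
        exact hx
      obtain ⟨m1, hm1⟩ := hRatAll p hp k L E iK iL iE iA iD iG S ζ a ϖ hE h1 _ hfin
      exact ⟨m1, fun _ => hm1⟩
    · exact ⟨0, fun h => absurd h h1⟩
  obtain ⟨T, m, hm, hAT, h1, h2, h3, h4, h5, h6, h7⟩ := hTexR p hp k L E iK iL iE iA iD iG S ζ a ϖ
    hE hK (max m0 (max m1 (max m2 (max n 1)))) (A : Set L) (Finset.finite_toSet A)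
    (fun x hx y => hA x (Finset.mem_coe.1 hx) y)
  have hm0' : m0 ≤ m := (le_max_left _ _).trans hm
  have hm1' : m1 ≤ m := ((le_max_left _ _).trans (le_max_right _ _)).trans hm
  have hm2' : m2 ≤ m :=
    (((le_max_left _ _).trans (le_max_right _ _)).trans (le_max_right _ _)).trans hm
  have hmn : (n : ℤ) ≤ m := ((((le_max_left _ _).trans (le_max_right _ _)).trans
    (le_max_right _ _)).trans (le_max_right _ _)).trans hm
  have hm4 : (1 : ℤ) ≤ m := ((((le_max_right _ _).trans (le_max_right _ _)).trans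
    (le_max_right _ _)).trans (le_max_right _ _)).trans hm
  have hG : Good k S T m := ⟨h1, h2, h3, h4, h5, h6⟩
  obtain ⟨T', h8, h9, h10, h11⟩ := exists_dvd (S := S) hE.inv hE.deg hE.a_res hE.a_int hE.pi_ne
    hE.pi_pos h1.toFinset (fun g t ht => by
      rw [Set.Finite.mem_toFinset] at ht ⊢
      exact h3 g t ht)
  have h9' : (T' : Set L) ⊆ T ∪ Far k S 1 := by
    intro t ht
    rcases h9 t ht with h | h
    · exact Or.inl ((Set.Finite.mem_toFinset _).1 h)
    · exact Or.inr h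
  have hG' : Good k S (T' : Set L) m := hG.grow hCh (n := 1) (by exact_mod_cast hm4) hm4
    (fun t ht => h8 ((Set.Finite.mem_toFinset _).2 ht)) h9' (Finset.finite_toSet _) h10
  refine ⟨T', m, hmn, fun x hx => h8 ((Set.Finite.mem_toFinset _).2 (hAT (Finset.mem_coe.2 hx))),
    hG'.net, h10, fun y t ht => (hG'.dist y t ht).1, h11, ?_, hm2 m hm2'⟩
  intro R' hR' D hD hDg
  have hy := hm0 (T' : Set L) m hm0' hG'.finite hG'.net hG'.stable hG'.dist hG'.orbit hG'.last D
    (cmp_left hD) (fun g s hs t ht => hDg g s (Or.inl hs) t (Or.inl ht))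
  rcases hK with hK | ⟨-, hK, -⟩
  · refine hm1 hK (T' : Set L) m hm1' hG'.net hG'.stable hG'.dist ?_ R' hR' D hD hDg hy
    intro y t ht hyt
    rcases h9' ht with h | h
    · exact h7 hK y t h hyt
    · have := (h y).2
      rw [hyt] at this
      push_cast at this
      omega
  · -- the primitive root is in `k`
    have h12 : ζ ∈ Set.range (algebraMap k L) :=
      (IsGalois.mem_range_algebraMap_iff_fixed (F := k) (E := L) ζ).2 hK
    obtain ⟨ξ, hξ⟩ := h12
    have h13 : IsPrimitiveRoot ξ p := by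
      have h14 : IsPrimitiveRoot (algebraMap k L ξ) p := by
        rw [hξ]
        exact hE.prim
      exact h14.of_map_of_injective (algebraMap k L).injective
    have hR0 : R' = ∅ := by
      rw [Set.eq_empty_iff_forall_notMem]
      exact fun x hx => hfk ⟨ξ, h13⟩ x (hR' x hx)
    obtain ⟨y, hy⟩ := hy
    refine ⟨y, by rw [hR0]; exact Set.notMem_empty _, ?_⟩
    intro s hs t ht
    rw [hR0, Set.image_empty, Set.union_empty] at hs ht
    exact hy s hs t ht

end Pool.Agent.Lib.MP_c385f6_ag.Cpl
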