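import Mathlib
import Pool.Agent.Lib.MP_c385f6_ag.AllP.Place

set_option autoImplicit false

/-!
A rational place over a point `y ∈ k` of the line over which all the fibres split over `L`.
-/

namespace Pool.Agent.Lib.MP_c385f6_ag

open Finset

/-- A `p`-th root of a power series. -/
theorem exists_root_series {F : Type*} [Field F] [CharZero F] {p : ℕ} (hp : p ≠ 0)
    {f : PowerSeries F} {e : F} (he : e ≠ 0) (hf : PowerSeries.constantCoeff f = e ^ p) :
    ∃ r : PowerSeries F, r ^ p = f := by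
  have h1 := rootSer_pow (F := F) hp one_ne_zero
  rw [map_one, one_mul] at h1
  set a : PowerSeries F := PowerSeries.C ((e ^ p)⁻¹) * f - 1 with ha
  have ha0 : PowerSeries.constantCoeff a = 0 := by
    rw [ha, map_sub, map_mul, PowerSeries.constantCoeff_C, hf, map_one,
      inv_mul_cancel₀ (pow_ne_zero _ he), sub_self]
  have hs : PowerSeries.HasSubst a := PowerSeries.HasSubst.of_constantCoeff_zero' ha0
  refine ⟨PowerSeries.C e * PowerSeries.substAlgHom (R := F) hs (rootSer F p 1), ?_⟩
  rw [mul_pow, ← map_pow, ← map_pow, h1, map_add, map_one, PowerSeries.substAlgHom_X, ha,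
    add_sub_cancel, ← mul_assoc, ← map_mul, mul_inv_cancel₀ (pow_ne_zero _ he), map_one, one_mul]

/-- Homomorphisms that agree on generators. -/
theorem hom_ext_gen {L M R ι : Type*} [Field L] [Field M] [Algebra L M] [Field R] {w : M}
    {z : ι → M} (hgen : IntermediateField.adjoin L (insert w (Set.range z)) = ⊤) {f g : M →+* R}
    (hL : ∀ x : L, f (algebraMap L M x) = g (algebraMap L M x)) (hw : f w = g w)
    (hz : ∀ i, f (z i) = g (z i)) : f = g := by
  ext m
  have hm : m ∈ IntermediateField.adjoin L (insert w (Set.range z)) := by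
    rw [hgen]; trivial
  induction hm using IntermediateField.adjoin_induction with
  | mem y hy =>
    rcases hy with rfl | ⟨i, rfl⟩
    · exact hw
    · exact hz i
  | algebraMap c => exact hL c
  | add a b _ _ ha hb => rw [map_add, map_add, ha, hb]
  | inv a _ ha => rw [map_inv₀, map_inv₀, ha]
  | mul a b _ _ ha hb => rw [map_mul, map_mul, ha, hb]

/-- Invariant embeddings: vanishing of a cohomology group of coprime order. -/
theorem exists_invariant_hom {G M R : Type*} [Group G] [Fintype G] [Field M] [Field R] {p : ℕ}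
    (hp : p.Prime) (hG : ¬ p ∣ Fintype.card G) (σ : G →* RingAut M) (ρ : G → (R →+* R))
    (hρ : ∀ g h x, ρ (g * h) x = ρ g (ρ h x)) (Δ : Subgroup (RingAut M))
    (hcomm : ∀ a ∈ Δ, ∀ b ∈ Δ, a * b = b * a) (hexp : ∀ a ∈ Δ, a ^ p = 1)
    (hnorm : ∀ g, ∀ a ∈ Δ, σ g * a * (σ g)⁻¹ ∈ Δ) (ψ : M →+* R)
    (hψ : ∀ g, ∃ δ ∈ Δ, ∀ m, ρ g (ψ ((σ g)⁻¹ m)) = ψ (δ m)) :
    ∃ ε ∈ Δ, ∀ g m, ρ g (ψ (ε ((σ g)⁻¹ m))) = ψ (ε m) := by
  classical
  choose δ hδ hδψ using hψ
  have hinj : Function.Injective ψ := ψ.injective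
  have hcoc : ∀ g h, δ (g * h) = δ g * (σ g * δ h * (σ g)⁻¹) := by
    intro g h
    ext m
    apply hinj
    have h1 : ∀ x, (σ g)⁻¹ (σ g x) = x := fun x => by
      rw [← RingAut.mul_apply, inv_mul_cancel, RingAut.one_apply]
    rw [← hδψ, hρ, map_mul, mul_inv_rev, RingAut.mul_apply, hδψ h, RingAut.mul_apply,
      RingAut.mul_apply, RingAut.mul_apply, ← hδψ g, h1]
  let _ : CommGroup Δ :=
    { (inferInstance : Group Δ) with
      mul_comm := fun a b => Subtype.ext (hcomm a a.2 b b.2) }
  let d : G → Δ := fun g => ⟨δ g, hδ g⟩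
  let c : G → (Δ →* Δ) := fun g =>
    { toFun := fun a => ⟨σ g * a * (σ g)⁻¹, hnorm g a a.2⟩
      map_one' := by
        apply Subtype.ext
        show σ g * 1 * (σ g)⁻¹ = 1
        group
      map_mul' := by
        intro a b
        apply Subtype.ext
        show σ g * ((a : RingAut M) * b) * (σ g)⁻¹ = σ g * a * (σ g)⁻¹ * (σ g * b * (σ g)⁻¹)
        group }
  have hd : ∀ g h, d (g * h) = d g * c g (d h) := fun g h => Subtype.ext (hcoc g h)
  let P : Δ := ∏ h, d h
  have hP : ∀ g, P = d g ^ Fintype.card G * c g P := by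
    intro g
    have h1 : P = ∏ h, d (g * h) :=
      (Fintype.prod_equiv (Equiv.mulLeft g) _ _ fun h => rfl).symm
    have h2 : ∏ h, d (g * h) = d g ^ Fintype.card G * c g P := by
      rw [Finset.prod_congr rfl fun h _ => hd g h, Finset.prod_mul_distrib, Finset.prod_const,
        Finset.card_univ, ← map_prod (c g)]
    exact h1.trans h2
  obtain ⟨m, -, hm⟩ := Nat.exists_mul_mod_eq_one_of_coprime
    ((Nat.Prime.coprime_iff_not_dvd hp).2 hG).symm hp.one_lt
  have hexp' : ∀ a : Δ, a ^ (Fintype.card G * m) = a := by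
    intro a
    have h1 : a ^ p = 1 := Subtype.ext (hexp a a.2)
    rw [← Nat.div_add_mod (Fintype.card G * m) p, hm, pow_add, pow_mul, h1, one_pow, one_mul,
      pow_one]
  have hkey : ∀ g, P ^ m = d g * c g (P ^ m) := by
    intro g
    conv_lhs => rw [hP g]
    rw [mul_pow, ← pow_mul, hexp', map_pow]
  refine ⟨(P ^ m : Δ), (P ^ m).2, fun g x => ?_⟩
  have h2 := congrArg Subtype.val (hkey g)
  have h3 : ((P ^ m : Δ) : RingAut M) = δ g * (σ g * ((P ^ m : Δ) : RingAut M) * (σ g)⁻¹) := h2
  have h4 : ψ (((P ^ m : Δ) : RingAut M) x) =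
      ψ ((δ g * (σ g * ((P ^ m : Δ) : RingAut M) * (σ g)⁻¹)) x) := by rw [← h3]
  have h5 : ∀ x, (σ g)⁻¹ (σ g x) = x := fun x => by
    rw [← RingAut.mul_apply, inv_mul_cancel, RingAut.one_apply]
  rw [h4, RingAut.mul_apply, ← hδψ, RingAut.mul_apply, RingAut.mul_apply, h5]

/-- The action on the coefficients of Laurent series. -/
noncomputable def coeffMap {L : Type*} [Field L] (g : L →+* L) : LaurentSeries L →+* LaurentSeries L :=
  IsFractionRing.map (A := PowerSeries L) (B := PowerSeries L) (K := LaurentSeries L)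
    (L := LaurentSeries L) (j := PowerSeries.map g) (PowerSeries.map_injective g g.injective)

theorem coeffMap_algebraMap {L : Type*} [Field L] (g : L →+* L) (a : PowerSeries L) :
    coeffMap g (algebraMap (PowerSeries L) (LaurentSeries L) a) =
      algebraMap (PowerSeries L) (LaurentSeries L) (a.map g) := by
  unfold coeffMap IsFractionRing.map
  exact IsLocalization.map_eq _ a

theorem coeffMap_comp {L : Type*} [Field L] (g h : L →+* L) (x : LaurentSeries L) :
    coeffMap (g.comp h) x = coeffMap g (coeffMap h x) := by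
  obtain ⟨a, b, hb, rfl⟩ := IsFractionRing.div_surjective (A := PowerSeries L) x
  rw [map_div₀, map_div₀, map_div₀]
  simp only [coeffMap_algebraMap]
  rw [PowerSeries.map_comp]
  rfl

section
variable {k L K M ι : Type*} [Field k] [CharZero k] [Field L] [Field K] [Field M]
  [Algebra k L] [Algebra k K] [Algebra K M] [Algebra L M] [Algebra k M] [IsScalarTower k K M]
  [IsScalarTower k L M] [FiniteDimensional k L] [IsGalois k L]

/-- The automorphisms of `M` over `L(w)`. -/
def fixSub (L : Type*) {M : Type*} [Field L] [Field M] [Algebra L M] (w : M) :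
    Subgroup (RingAut M) where
  carrier := {δ | (∀ x : L, δ (algebraMap L M x) = algebraMap L M x) ∧ δ w = w}
  one_mem' := ⟨fun x => rfl, rfl⟩
  mul_mem' := by
    rintro a b ⟨ha, ha'⟩ ⟨hb, hb'⟩
    refine ⟨fun x => ?_, ?_⟩
    · rw [RingAut.mul_apply, hb, ha]
    · rw [RingAut.mul_apply, hb', ha']
  inv_mem' := by
    rintro a ⟨ha, ha'⟩
    have h1 : ∀ x, a⁻¹ (a x) = x := fun x => by
      rw [← RingAut.mul_apply, inv_mul_cancel, RingAut.one_apply]
    refine ⟨fun x => ?_, ?_⟩
    · have := h1 (algebraMap L M x)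
      rwa [ha] at this
    · have := h1 w
      rwa [ha'] at this

omit [CharZero k] in
/-- A rational place from an embedding in Laurent series that is invariant on `K`. -/
theorem exists_place_of_invariant {w : K} {y : k} (ψ : M →+* LaurentSeries L)
    (hL : ∀ c : L, ψ (algebraMap L M c) =
      algebraMap (PowerSeries L) (LaurentSeries L) (PowerSeries.C c))
    (hw : ψ (algebraMap K M w) = algebraMap (PowerSeries L) (LaurentSeries L)
      (PowerSeries.C (algebraMap k L y) + PowerSeries.X))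
    (hK : ∀ (g : L ≃ₐ[k] L) (x : K), coeffMap (g : L →+* L) (ψ (algebraMap K M x)) =
      ψ (algebraMap K M x)) :
    ∃ A : ValuationSubring K, IsRationalPlace k K A ∧ A.valuation (w - algebraMap k K y) < 1 := by
  have hAinj : Function.Injective (algebraMap (LaurentSeries L)
    (AlgebraicClosure (LaurentSeries L))) :=
    (algebraMap (LaurentSeries L) (AlgebraicClosure (LaurentSeries L))).injective
  refine exists_place_of_series_base (((algebraMap (LaurentSeries L)
    (AlgebraicClosure (LaurentSeries L))).comp ψ).comp (algebraMap K M)) ?_ ?_ ?_ ?_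
  · intro c
    show algebraMap (LaurentSeries L) _ (ψ (algebraMap K M (algebraMap k K c))) = _
    rw [← IsScalarTower.algebraMap_apply k K M, IsScalarTower.algebraMap_apply k L M, hL]
    rfl
  · intro x
    exact ⟨_, rfl⟩
  · intro x f hf
    have hf' : ψ (algebraMap K M x) = algebraMap (PowerSeries L) _ f := hAinj hf
    have h6 : ∀ g : L ≃ₐ[k] L, g (PowerSeries.constantCoeff f) = PowerSeries.constantCoeff f := by
      intro g
      have h5 := hK g x
      rw [hf', coeffMap_algebraMap] at h5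
      have h4 := IsFractionRing.injective (PowerSeries L) (LaurentSeries L) h5
      have h7 := congrArg (PowerSeries.coeff 0) h4
      rw [PowerSeries.coeff_map, PowerSeries.coeff_zero_eq_constantCoeff_apply] at h7
      exact h7
    obtain ⟨c, hc⟩ := (IsGalois.mem_range_algebraMap_iff_fixed (PowerSeries.constantCoeff f)).2 h6
    exact ⟨c, hc.symm⟩
  · show algebraMap (LaurentSeries L) _ (ψ (algebraMap K M (w - algebraMap k K y))) = _
    rw [map_sub, map_sub, ← IsScalarTower.algebraMap_apply k K M,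
      IsScalarTower.algebraMap_apply k L M, hL, hw, ← map_sub, add_sub_cancel_left]
    rfl

omit [CharZero k] [FiniteDimensional k L] [IsGalois k L] [Algebra k K] [Algebra k M]
  [IsScalarTower k K M] [IsScalarTower k L M] in
/-- The action of the Galois group on `M`. -/
theorem exists_sigma (hM : IntermediateField.adjoin K (Set.range (algebraMap L M)) = ⊤)
    (hσ : ∀ g : L ≃ₐ[k] L, ∃ σ : M ≃ₐ[K] M, ∀ x : L, σ (algebraMap L M x) = algebraMap L M (g x)) :
    ∃ σ : (L ≃ₐ[k] L) →* RingAut M, (∀ g (x : K), σ g (algebraMap K M x) = algebraMap K M x) ∧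
      ∀ g (x : L), σ g (algebraMap L M x) = algebraMap L M (g x) := by
  choose σ₀ hσ₀ using hσ
  have hσK : ∀ g (x : K), (σ₀ g).toRingEquiv (algebraMap K M x) = algebraMap K M x := fun g x =>
    (σ₀ g).commutes x
  have hσL : ∀ g (x : L), (σ₀ g).toRingEquiv (algebraMap L M x) = algebraMap L M (g x) := hσ₀
  refine ⟨MonoidHom.mk' (fun g => ((σ₀ g).toRingEquiv : RingAut M)) ?_, hσK, hσL⟩
  intro g g'
  ext m
  refine fix_of_fix_base hM (((σ₀ (g * g')).toRingEquiv : M ≃+* M) : M →+* M)
    (((σ₀ g).toRingEquiv : M →+* M).comp ((σ₀ g').toRingEquiv : M →+* M)) ?_ ?_ m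
  · intro x
    show (σ₀ (g * g')).toRingEquiv (algebraMap K M x) =
      (σ₀ g).toRingEquiv ((σ₀ g').toRingEquiv (algebraMap K M x))
    rw [hσK, hσK, hσK]
  · intro x
    show (σ₀ (g * g')).toRingEquiv (algebraMap L M x) =
      (σ₀ g).toRingEquiv ((σ₀ g').toRingEquiv (algebraMap L M x))
    rw [hσL, hσL, hσL]
    rfl

/-- **A rational place over a point with split fibre.** -/
theorem place_of_split {p : ℕ} (hp : p.Prime) {ζ : L} (hζ : IsPrimitiveRoot ζ p)
    (hpG : ¬ p ∣ Module.finrank k L)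
    (hM : IntermediateField.adjoin K (Set.range (algebraMap L M)) = ⊤)
    (hσ : ∀ g : L ≃ₐ[k] L, ∃ σ : M ≃ₐ[K] M, ∀ x : L, σ (algebraMap L M x) = algebraMap L M (g x))
    {w : K} (hw : Transcendental k w) {h : ι → Polynomial L} {z : ι → M}
    (hz : ∀ i, z i ^ p = Polynomial.aeval (algebraMap K M w) (h i))
    (hgen : IntermediateField.adjoin L (insert (algebraMap K M w) (Set.range z)) = ⊤)
    {y : k} (hy : ∀ i, ∃ e : L, e ≠ 0 ∧ (h i).eval (algebraMap k L y) = e ^ p) :
    ∃ A : ValuationSubring K, IsRationalPlace k K A ∧ A.valuation (w - algebraMap k K y) < 1 := by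
  classical
  have hcL : CharZero L := charZero_of_injective_algebraMap (algebraMap k L).injective
  have hpz : NeZero p := ⟨hp.ne_zero⟩
  set wM := algebraMap K M w with hwM
  have hwL : Transcendental L wM := by
    intro h1
    have h2 : IsAlgebraic k wM := h1.restrictScalars k
    exact hw ((isAlgebraic_algebraMap_iff (algebraMap K M).injective).1 h2)
  -- `M` is algebraic over `L(w)`
  have halg : Algebra.IsAlgebraic (IntermediateField.adjoin L {wM}) M := by
    let E := IntermediateField.adjoin L {wM}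
    refine ⟨fun m => ?_⟩
    have hm : m ∈ IntermediateField.adjoin L (insert wM (Set.range z)) := by
      rw [hgen]; trivial
    have hgenE : wM ∈ E := IntermediateField.mem_adjoin_simple_self L _
    have hE : ∀ x : E, IsAlgebraic E (x : M) := fun x => isAlgebraic_algebraMap x
    rw [← mem_algebraicClosure_iff (F := E)]
    induction hm using IntermediateField.adjoin_induction with
    | mem y hy =>
      rcases hy with rfl | ⟨i, rfl⟩
      · rw [mem_algebraicClosure_iff]
        exact hE ⟨_, hgenE⟩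
      · rw [mem_algebraicClosure_iff]
        have h1 : z i ^ p ∈ E := by
          rw [hz i, Polynomial.aeval_eq_sum_range]
          refine sum_mem fun j _ => ?_
          exact E.smul_mem (pow_mem hgenE _)
        exact (hE ⟨_, h1⟩).of_pow hp.pos
    | algebraMap c =>
      rw [mem_algebraicClosure_iff]
      exact hE (algebraMap L E c)
    | add a b _ _ ha hb => exact add_mem ha hb
    | inv a _ ha => exact inv_mem ha
    | mul a b _ _ ha hb => exact mul_mem ha hb
  obtain ⟨φ, hφL, hφw⟩ := exists_hom (L := L) (F := L) (Ω := M) hwL (algebraMap k L y)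
  have hφL' : ∀ c : L, φ (algebraMap L M c) = ser L (PowerSeries.C c) := hφL
  -- the values of polynomials
  let S₀ : Polynomial L → PowerSeries L := fun q =>
    q.eval₂ PowerSeries.C (PowerSeries.C (algebraMap k L y) + PowerSeries.X)
  have hφq : ∀ q : Polynomial L, φ (Polynomial.aeval wM q) = ser L (S₀ q) := by
    intro q
    rw [Polynomial.aeval_def, Polynomial.hom_eval₂, hφw]
    show _ = ser L (q.eval₂ _ _)
    rw [Polynomial.hom_eval₂]
    congr 1
    ext c
    exact hφL' c
  have hS₀ : ∀ q : Polynomial L, PowerSeries.constantCoeff (S₀ q) =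
      q.eval (algebraMap k L y) := by
    intro q
    show PowerSeries.constantCoeff (q.eval₂ _ _) = _
    rw [Polynomial.hom_eval₂, map_add, PowerSeries.constantCoeff_C, PowerSeries.constantCoeff_X,
      add_zero, Polynomial.eval₂_eq_eval_map]
    congr 1
    have h1 : (PowerSeries.constantCoeff (R := L)).comp (PowerSeries.C (R := L)) = RingHom.id L := by
      ext c
      exact PowerSeries.constantCoeff_C c
    rw [h1, Polynomial.map_id]
  have hφz : ∀ i, ∃ r : PowerSeries L, r ≠ 0 ∧ φ (z i) = ser L r := by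
    intro i
    obtain ⟨e, he, hy⟩ := hy i
    obtain ⟨r, hr⟩ := exists_root_series (F := L) hp.ne_zero he ((hS₀ (h i)).trans hy)
    have hr0 : r ≠ 0 := by
      rintro rfl
      rw [zero_pow hp.ne_zero] at hr
      have h1 := hS₀ (h i)
      rw [← hr, map_zero, hy] at h1
      exact pow_ne_zero _ he h1.symm
    obtain ⟨j, hj⟩ := root_of_pow_eq hζ (v := φ (z i)) (f := ser L r) (by
      rw [← map_pow, hz i, hφq, ← hr, map_pow]) (by
      intro h0
      exact hr0 (ser_injective L (by rw [h0, map_zero])))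
    refine ⟨PowerSeries.C ζ ^ j * r, ?_, by rw [hj, map_mul, map_pow]⟩
    refine mul_ne_zero (pow_ne_zero _ ?_) hr0
    intro h0
    have h1 : ζ = 0 := PowerSeries.C_injective (by rw [h0, map_zero])
    exact hζ.ne_zero hp.ne_zero h1
  have hrange : ∀ m : M, ∃ f : LaurentSeries L, φ m = algebraMap (LaurentSeries L) _ f := by
    intro m
    have hm : m ∈ IntermediateField.adjoin L (insert wM (Set.range z)) := by
      rw [hgen]; trivial
    induction hm using IntermediateField.adjoin_induction with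
    | mem y hy =>
      rcases hy with rfl | ⟨i, rfl⟩
      · exact ⟨_, hφw⟩
      · obtain ⟨r, -, hr⟩ := hφz i
        exact ⟨_, hr⟩
    | algebraMap c => exact ⟨_, hφL' c⟩
    | add a b _ _ ha hb =>
      obtain ⟨f, hf⟩ := ha
      obtain ⟨g, hg⟩ := hb
      exact ⟨f + g, by rw [map_add, map_add, hf, hg]⟩
    | inv a _ ha =>
      obtain ⟨f, hf⟩ := ha
      exact ⟨f⁻¹, by rw [map_inv₀, map_inv₀, hf]⟩
    | mul a b _ _ ha hb =>
      obtain ⟨f, hf⟩ := ha
      obtain ⟨g, hg⟩ := hb
      exact ⟨f * g, by rw [map_mul, map_mul, hf, hg]⟩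
  choose ψf hψf using hrange
  have hAinj : Function.Injective (algebraMap (LaurentSeries L)
    (AlgebraicClosure (LaurentSeries L))) :=
    (algebraMap (LaurentSeries L) (AlgebraicClosure (LaurentSeries L))).injective
  obtain ⟨ψ, hψ⟩ : ∃ ψ : M →+* LaurentSeries L, ∀ m, algebraMap (LaurentSeries L)
      (AlgebraicClosure (LaurentSeries L)) (ψ m) = φ m :=
    ⟨{ toFun := ψf
       map_one' := hAinj (by rw [← hψf, map_one, map_one])
       map_mul' := fun a b => hAinj (by rw [← hψf, map_mul, map_mul, hψf a, hψf b])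
       map_zero' := hAinj (by rw [← hψf, map_zero, map_zero])
       map_add' := fun a b => hAinj (by rw [← hψf, map_add, map_add, hψf a, hψf b]) },
      fun m => (hψf m).symm⟩
  have hψL : ∀ c : L, ψ (algebraMap L M c) = algebraMap (PowerSeries L) _ (PowerSeries.C c) :=
    fun c => hAinj (by rw [hψ, hφL']; rfl)
  have hψw : ψ wM = algebraMap (PowerSeries L) _
      (PowerSeries.C (algebraMap k L y) + PowerSeries.X) :=
    hAinj (by rw [hψ, hφw]; rfl)
  -- the action of the Galois group
  obtain ⟨σ, hσK, hσL⟩ := exists_sigma hM hσ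
  have hσK' : ∀ g (x : K), (σ g)⁻¹ (algebraMap K M x) = algebraMap K M x := by
    intro g x
    have h1 : (σ g)⁻¹ (σ g (algebraMap K M x)) = algebraMap K M x := by
      rw [← RingAut.mul_apply, inv_mul_cancel, RingAut.one_apply]
    rw [hσK] at h1
    exact h1
  have hσL' : ∀ g (x : L), (σ g)⁻¹ (algebraMap L M (g x)) = algebraMap L M x := by
    intro g x
    have h1 : (σ g)⁻¹ (σ g (algebraMap L M x)) = algebraMap L M x := by
      rw [← RingAut.mul_apply, inv_mul_cancel, RingAut.one_apply]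
    rw [hσL] at h1
    exact h1
  obtain ⟨ρ, hρ'⟩ : ∃ ρ : (L ≃ₐ[k] L) → (LaurentSeries L →+* LaurentSeries L),
    ∀ g, ρ g = coeffMap (g : L →+* L) := ⟨_, fun _ => rfl⟩
  have hρ : ∀ g g' x, ρ (g * g') x = ρ g (ρ g' x) := by
    intro g g' x
    have h1 : ((g * g' : L ≃ₐ[k] L) : L →+* L) = (g : L →+* L).comp (g' : L →+* L) := rfl
    rw [hρ', hρ', hρ', h1, coeffMap_comp]
  -- the automorphisms over `L(w)`
  obtain ⟨Δ, hΔ⟩ : ∃ Δ : Subgroup (RingAut M), Δ = fixSub L wM := ⟨_, rfl⟩
  have hΔ1 : ∀ δ ∈ Δ, ∀ x : L, δ (algebraMap L M x) = algebraMap L M x := by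
    rintro δ hδ
    rw [hΔ] at hδ
    exact hδ.1
  have hΔ2 : ∀ δ ∈ Δ, δ wM = wM := by
    rintro δ hδ
    rw [hΔ] at hδ
    exact hδ.2
  have hΔ3 : ∀ δ : RingAut M, (∀ x : L, δ (algebraMap L M x) = algebraMap L M x) → δ wM = wM →
      δ ∈ Δ := by
    intro δ h1 h2
    rw [hΔ]
    exact ⟨h1, h2⟩
  have hz0 : ∀ i, z i ≠ 0 := by
    intro i h0
    obtain ⟨r, hr, hr'⟩ := hφz i
    rw [h0, map_zero] at hr'
    exact hr (ser_injective L (by rw [← hr', map_zero]))
  have hζM : IsPrimitiveRoot (algebraMap L M ζ) p :=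
    hζ.map_of_injective (f := algebraMap L M) (algebraMap L M).injective
  have hΔaeval : ∀ δ ∈ Δ, ∀ q : Polynomial L, δ (Polynomial.aeval wM q) =
      Polynomial.aeval wM q := by
    intro δ hδ q
    have h1 := hΔ1 δ hδ
    have h2 := hΔ2 δ hδ
    have h3 := Polynomial.hom_eval₂ q (algebraMap L M) (δ : M →+* M) wM
    have h4 : (δ : M →+* M).comp (algebraMap L M) = algebraMap L M := by
      ext x
      exact h1 x
    rw [h4] at h3
    have h5 : (δ : M →+* M) wM = wM := h2
    rw [h5] at h3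
    exact h3
  have hΔz : ∀ δ ∈ Δ, ∀ i, ∃ j : ℕ, δ (z i) = algebraMap L M ζ ^ j * z i := by
    intro δ hδ i
    have h1 : (δ (z i) / z i) ^ p = 1 := by
      rw [div_pow, ← map_pow, hz i, hΔaeval δ hδ, div_self]
      rw [← hz i]
      exact pow_ne_zero _ (hz0 i)
    obtain ⟨j, -, hj⟩ := hζM.eq_pow_of_pow_eq_one h1
    refine ⟨j, ?_⟩
    rw [hj, div_mul_cancel₀ _ (hz0 i)]
  have hext : ∀ a ∈ Δ, ∀ b ∈ Δ, (∀ i, a (z i) = b (z i)) → a = b := by
    intro a ha₀ b hb₀ h1
    have ha := hΔ1 a ha₀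
    have ha' := hΔ2 a ha₀
    have hb := hΔ1 b hb₀
    have hb' := hΔ2 b hb₀
    have h2 := hom_ext_gen hgen (f := (a : M →+* M)) (g := (b : M →+* M))
      (fun x => (ha x).trans (hb x).symm) (ha'.trans hb'.symm) h1
    ext m
    exact congrArg (fun f : M →+* M => f m) h2
  have hζΔ : ∀ a ∈ Δ, ∀ j : ℕ, a (algebraMap L M ζ ^ j) = algebraMap L M ζ ^ j := by
    intro a ha j
    rw [map_pow, hΔ1 a ha]
  have hcomm : ∀ a ∈ Δ, ∀ b ∈ Δ, a * b = b * a := by
    intro a ha b hb
    refine hext _ (mul_mem ha hb) _ (mul_mem hb ha) fun i => ?_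
    obtain ⟨j, hj⟩ := hΔz a ha i
    obtain ⟨j', hj'⟩ := hΔz b hb i
    rw [RingAut.mul_apply, RingAut.mul_apply, hj, hj', map_mul, map_mul, hζΔ a ha, hζΔ b hb, hj,
      hj']
    ring
  have hexp : ∀ a ∈ Δ, a ^ p = 1 := by
    intro a ha
    refine hext _ (pow_mem ha p) _ (one_mem Δ) fun i => ?_
    obtain ⟨j, hj⟩ := hΔz a ha i
    have h1 : ∀ n : ℕ, (a ^ n) (z i) = (algebraMap L M ζ ^ j) ^ n * z i := by
      intro n
      induction n with
      | zero => rw [pow_zero, pow_zero, one_mul]; rfl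
      | succ n ih =>
        rw [pow_succ, RingAut.mul_apply, hj, map_mul, ih, hζΔ _ (pow_mem ha n)]
        ring
    rw [h1, ← pow_mul, mul_comm j p, pow_mul, hζM.pow_eq_one, one_pow, one_mul]
    rfl
  have hnorm : ∀ g, ∀ a ∈ Δ, σ g * a * (σ g)⁻¹ ∈ Δ := by
    intro g a ha₀
    refine hΔ3 _ (fun x => ?_) ?_
    · obtain ⟨x', rfl⟩ := g.surjective x
      rw [RingAut.mul_apply, RingAut.mul_apply, hσL', hΔ1 a ha₀]
      exact hσL g x'
    · have h1 : (σ g)⁻¹ wM = wM := hσK' g w
      have h2 : σ g wM = wM := hσK g w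
      rw [RingAut.mul_apply, RingAut.mul_apply, h1, hΔ2 a ha₀, h2]
  -- two embeddings over `L(w)` differ by an element of `Δ`
  have hdiff : ∀ ψ' : M →+* LaurentSeries L, (∀ c : L, ψ' (algebraMap L M c) = ψ (algebraMap L M c)) →
      ψ' wM = ψ wM → ∃ δ ∈ Δ, ∀ m, ψ' m = ψ (δ m) := by
    have hq : ∀ f₁ f₂ : M →+* LaurentSeries L,
        (∀ c : L, f₂ (algebraMap L M c) = f₁ (algebraMap L M c)) → f₂ wM = f₁ wM →
        ∀ m, ∃ m', f₂ m = f₁ m' := by
      intro f₁ f₂ h1 h2 m
      have hae : ∀ q : Polynomial L, f₂ (Polynomial.aeval wM q) = f₁ (Polynomial.aeval wM q) := by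
        intro q
        rw [Polynomial.aeval_def, Polynomial.hom_eval₂, Polynomial.hom_eval₂, h2]
        congr 1
        ext1 c
        exact h1 c
      have hm : m ∈ IntermediateField.adjoin L (insert wM (Set.range z)) := by
        rw [hgen]; trivial
      induction hm using IntermediateField.adjoin_induction with
      | mem y hy =>
        rcases hy with rfl | ⟨i, rfl⟩
        · exact ⟨_, h2⟩
        · have hz0' : f₁ (z i) ≠ 0 := (_root_.map_ne_zero f₁).2 (hz0 i)
          have h3 : (f₂ (z i) / f₁ (z i)) ^ p = 1 := by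
            rw [div_pow, ← map_pow, ← map_pow, hz i, hae, div_self]
            rw [← hz i, map_pow]
            exact pow_ne_zero _ hz0'
          obtain ⟨j, -, hj⟩ := (hζM.map_of_injective (f := f₁) f₁.injective).eq_pow_of_pow_eq_one h3
          refine ⟨algebraMap L M ζ ^ j * z i, ?_⟩
          rw [map_mul, map_pow, hj, div_mul_cancel₀ _ hz0']
      | algebraMap c => exact ⟨_, h1 c⟩
      | add a b _ _ ha hb =>
        obtain ⟨f, hf⟩ := ha
        obtain ⟨g, hg⟩ := hb
        exact ⟨f + g, by rw [map_add, map_add, hf, hg]⟩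
      | inv a _ ha =>
        obtain ⟨f, hf⟩ := ha
        exact ⟨f⁻¹, by rw [map_inv₀, map_inv₀, hf]⟩
      | mul a b _ _ ha hb =>
        obtain ⟨f, hf⟩ := ha
        obtain ⟨g, hg⟩ := hb
        exact ⟨f * g, by rw [map_mul, map_mul, hf, hg]⟩
    intro ψ' h1 h2
    choose d hd using hq ψ ψ' h1 h2
    choose d' hd' using hq ψ' ψ (fun c => (h1 c).symm) h2.symm
    have hi := ψ.injective
    have hi' := ψ'.injective
    obtain ⟨δ, hδ⟩ : ∃ δ : RingAut M, ∀ m, δ m = d m :=
      ⟨{ toFun := d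
         invFun := d'
         left_inv := fun m => hi' (by rw [← hd', ← hd])
         right_inv := fun m => hi (by rw [← hd, ← hd'])
         map_mul' := fun a b => hi (by rw [← hd, map_mul, map_mul, hd a, hd b])
         map_add' := fun a b => hi (by rw [← hd, map_add, map_add, hd a, hd b]) }, fun m => rfl⟩
    refine ⟨δ, hΔ3 δ (fun x => hi ?_) (hi ?_), fun m => by rw [hδ]; exact hd m⟩
    · rw [hδ, ← hd, h1]
    · rw [hδ, ← hd, h2]
  have hG : ¬ p ∣ Fintype.card (L ≃ₐ[k] L) := by
    rw [← Nat.card_eq_fintype_card, IsGalois.card_aut_eq_finrank]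
    exact hpG
  have hyfix : ∀ g : L ≃ₐ[k] L, (g : L →+* L) (algebraMap k L y) = algebraMap k L y := fun g =>
    g.commutes y
  have hd : ∀ g, ∃ δ ∈ Δ, ∀ m, ρ g (ψ ((σ g)⁻¹ m)) = ψ (δ m) := by
    intro g
    have h1 : ∀ c : L, ((ρ g).comp (ψ.comp (((σ g)⁻¹ : M ≃+* M) : M →+* M))) (algebraMap L M c) =
        ψ (algebraMap L M c) := by
      intro c
      obtain ⟨c', rfl⟩ := g.surjective c
      show ρ g (ψ ((σ g)⁻¹ (algebraMap L M (g c')))) = _
      rw [hσL', hψL, hψL, hρ', coeffMap_algebraMap, PowerSeries.map_C]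
      rfl
    have h2 : ((ρ g).comp (ψ.comp (((σ g)⁻¹ : M ≃+* M) : M →+* M))) wM = ψ wM := by
      show ρ g (ψ ((σ g)⁻¹ wM)) = _
      have h1 : (σ g)⁻¹ wM = wM := hσK' g w
      rw [h1, hψw, hρ', coeffMap_algebraMap, map_add, PowerSeries.map_C, PowerSeries.map_X,
        hyfix]
    obtain ⟨δ, hδ, h3⟩ := hdiff _ h1 h2
    exact ⟨δ, hδ, fun m => h3 m⟩
  obtain ⟨ε, hε, hinv⟩ := exists_invariant_hom hp hG σ ρ hρ Δ hcomm hexp hnorm ψ hd
  refine exists_place_of_invariant (ψ.comp (ε : M →+* M)) ?_ ?_ ?_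
  · intro c
    show ψ (ε (algebraMap L M c)) = _
    rw [hΔ1 ε hε, hψL]
  · show ψ (ε wM) = _
    rw [hΔ2 ε hε, hψw]
  · intro g x
    have h1 := hinv g (algebraMap K M x)
    rw [hσK', hρ'] at h1
    exact h1

end

end Pool.Agent.Lib.MP_c385f6_ag
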