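import Mathlib
import Pool.Agent.Lib.MP_c385f6_ag.AllP.FarVal
import Pool.Agent.Lib.MP_c385f6_ag.AllP.Split

set_option autoImplicit false

/-!
The point `y ∈ k` of the line belonging to a section, and the values of the polynomials whose
`p`-th roots are adjoined.
-/

namespace Pool.Agent.Lib.MP_c385f6_ag

open Polynomial Cpl

section
variable {k L : Type} {K M Ω ι : Type*} [Field k] [CharZero k] [Field L] [Field K] [Field M]
  [Field Ω]
  [Algebra k L] [Algebra k K] [Algebra k Ω] [Algebra L Ω] [Algebra K Ω] [Algebra K M]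
  [Algebra L M] [Algebra M Ω] [IsScalarTower k K Ω] [IsScalarTower k L Ω] [IsScalarTower K M Ω]
  [IsScalarTower L M Ω] [IsAlgClosure K Ω] [FiniteDimensional k L]

/-- The class of a linear polynomial. -/
theorem hasVal_linear {p : ℕ} {s : AbsGal k Ω →* PiOne k K Ω} {w : K} {t t₀ y : L}
    {Dt D₀ : L} {Yt Y₀ : maxUnramified k K Ω} (hDt : Dt ≠ 0) (hD₀ : D₀ ≠ 0)
    (hYt : ∀ γ : AbsGal L Ω, s (resAbs k L Ω γ) Yt = Yt)
    (hY₀ : ∀ γ : AbsGal L Ω, s (resAbs k L Ω γ) Y₀ = Y₀)
    (ht : algebraMap L Ω Dt * (Yt : Ω) ^ p =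
        (algebraMap K Ω w - algebraMap L Ω t) / (algebraMap K Ω w - algebraMap L Ω t₀))
    (h₀ : algebraMap L Ω D₀ * (Y₀ : Ω) ^ p = 1)
    (hval : Eqv p (Dt / D₀) ((y - t) / (y - t₀))) :
    HasVal p s w t₀ y (X - C t) := by
  refine ⟨Dt / D₀, Yt / Y₀, div_ne_zero hDt hD₀, fun γ => by rw [map_div₀, hYt, hY₀], ?_, ?_⟩
  · have e1 : ((Yt / Y₀ : maxUnramified k K Ω) : Ω) = (Yt : Ω) / (Y₀ : Ω) := rfl
    rw [e1, map_div₀, div_pow, div_mul_div_comm, ht, h₀, div_one, natDegree_X_sub_C, pow_one,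
      map_sub, aeval_X, aeval_C]
  · obtain ⟨e, he, h⟩ := hval
    refine ⟨e, he, ?_⟩
    rw [h, natDegree_X_sub_C, pow_one, eval_sub, eval_X, eval_C]

variable [IsGalois k L]

/-- **The point of the line belonging to a section.** -/
theorem exists_value (hGen : StGen) {p : ℕ} [hp : Fact p.Prime] {E : Type} [Field E] {S : LF p L E}
    (hSNR : ∀ x y, x ≠ 0 → y ≠ 0 → (S.h x y = 0 ↔ NR p x y))
    (hpow : ∀ x y : L, x ≠ 0 → NR p (x ^ p) y) {R : Finset L}
    (hR : ∀ x, x ≠ 0 → ∃ y ∈ R, ∃ z, z ≠ 0 ∧ x = y * z ^ p) {ζ : L} (hζ : IsPrimitiveRoot ζ p)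
    {T : Finset L} {m : ℤ} (hnet : S.Net (T : Set L) m)
    (hTst : ∀ g : L ≃ₐ[k] L, ∀ t ∈ T, g t ∈ T) (hcard : R.card * 2 < T.card)
    (hyT : ∀ y : k, ∀ t ∈ T, algebraMap k L y ≠ t) {f : k[X]} (hf : f ≠ 0)
    (hstep : ∀ R' : Set k, (∀ x ∈ R', f.eval x = 0) → ∀ D : L → L → L,
      S.Cmp ((T : Set L) ∪ algebraMap k L '' R') D →
      (∀ g : L ≃ₐ[k] L, ∀ s ∈ (T : Set L) ∪ algebraMap k L '' R',
        ∀ t ∈ (T : Set L) ∪ algebraMap k L '' R', Eqv p (D (g s) (g t)) (g (D s t))) →
      ∃ y : k, y ∉ R' ∧ ∀ s ∈ (T : Set L) ∪ algebraMap k L '' R',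
        ∀ t ∈ (T : Set L) ∪ algebraMap k L '' R',
        Eqv p (D s t) ((algebraMap k L y - s) / (algebraMap k L y - t)))
    (hfar : ∀ P : L[X], Irreducible P → P.Monic → P ∣ f.map (algebraMap k L) →
      (∀ y : k, P.eval (algebraMap k L y) ≠ 0) → FarPoly p k S m P)
    (hM : IntermediateField.adjoin K (Set.range (algebraMap L M)) = ⊤) {w : K}
    (hw : Transcendental k w) {h : ι → L[X]} {z : ι → M} (hh : ∀ i, h i ≠ 0)
    (hz : ∀ i, z i ^ p = aeval (algebraMap K M w) (h i)) (hdeg : ∀ i, p ∣ (h i).natDegree)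
    (hzeros : ∀ i, ∃ n : ℕ, h i ∣ (f.map (algebraMap k L) * ∏ t ∈ T, (X - C t)) ^ n)
    (hcov : ∀ t ∈ T, ∃ i, ¬ p ∣ (h i).rootMultiplicity t)
    {s : AbsGal k Ω →* PiOne k K Ω} (hs : IsSection k K Ω s) :
    ∃ y : k, (∀ i, ∃ q h' : L[X], q ≠ 0 ∧ h i = q ^ p * h' ∧
        ∃ e : L, e ≠ 0 ∧ h'.eval (algebraMap k L y) = e ^ p) ∧
      ∀ r ∈ T, ∀ t ∈ T, ∃ Z : maxUnramified k K Ω,
        (∀ γ : AbsGal L Ω, s (resAbs k L Ω γ) Z = Z) ∧
        algebraMap L Ω (algebraMap k L y - r) * (algebraMap K Ω w - algebraMap L Ω t) *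
          (Z : Ω) ^ p = algebraMap L Ω (algebraMap k L y - t) *
            (algebraMap K Ω w - algebraMap L Ω r) := by
  classical
  have hpp := hp.out
  have hcL : CharZero L := charZero_of_injective_algebraMap (algebraMap k L).injective
  have hT0 : T.Nonempty := by
    rw [← Finset.card_pos]
    omega
  obtain ⟨t₀, ht₀⟩ := hT0
  set wM := algebraMap K M w with hwM
  have hwL : Transcendental L wM := by
    intro h1
    have h2 : IsAlgebraic L (algebraMap K Ω w) := by
      rw [IsScalarTower.algebraMap_apply K M Ω]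
      exact h1.algebraMap
    have h3 : IsAlgebraic k (algebraMap K Ω w) := h2.restrictScalars k
    exact hw ((isAlgebraic_algebraMap_iff (algebraMap K Ω).injective).1 h3)
  have hsub : ∀ t : L, algebraMap K Ω w - algebraMap L Ω t ≠ 0 := fun t =>
    sub_const_ne_zero (k := k) hw t
  -- the ramified rational zeros
  let R' : Finset k := f.roots.toFinset.filter fun τ =>
    ∃ i, ¬ p ∣ (h i).rootMultiplicity (algebraMap k L τ)
  have hR'f : ∀ x ∈ (R' : Set k), f.eval x = 0 := by
    intro x hx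
    have h1 := (Finset.mem_filter.1 (Finset.mem_coe.1 hx)).1
    rw [Multiset.mem_toFinset, mem_roots hf] at h1
    exact h1
  let T' : Finset L := T ∪ R'.image (algebraMap k L)
  have hTT' : ∀ t ∈ T, t ∈ T' := fun t ht => Finset.mem_union_left _ ht
  have hT'set : ∀ t, t ∈ T' ↔ t ∈ (T : Set L) ∪ algebraMap k L '' (R' : Set k) := by
    intro t
    simp only [T', Finset.mem_union, Finset.mem_image, Set.mem_union, Finset.mem_coe,
      Set.mem_image]
  have hT'st : ∀ g : L ≃ₐ[k] L, ∀ t ∈ T', g t ∈ T' := by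
    intro g t ht
    rcases Finset.mem_union.1 ht with ht | ht
    · exact Finset.mem_union_left _ (hTst g t ht)
    · obtain ⟨x, hx, rfl⟩ := Finset.mem_image.1 ht
      rw [AlgEquiv.commutes]
      exact Finset.mem_union_right _ (Finset.mem_image_of_mem _ hx)
  have hcard' : R.card * 2 < T'.card :=
    hcard.trans_le (Finset.card_le_card Finset.subset_union_left)
  have hram : ∀ t ∈ T', RamAt p wM t := by
    intro t ht
    have h1 : ∃ i, ¬ p ∣ (h i).rootMultiplicity t := by
      rcases Finset.mem_union.1 ht with ht | ht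
      · exact hcov t ht
      · obtain ⟨x, hx, rfl⟩ := Finset.mem_image.1 ht
        exact (Finset.mem_filter.1 hx).2
    obtain ⟨i, hi⟩ := h1
    exact ramAt_of_poly hpp hwL (hh i) (hz i) hi
  obtain ⟨D, Y, hD, hY0, hYfix, hYeq, hrel⟩ := data_base (Ω := Ω) hpp hζ hM hw hram
    (hTT' t₀ ht₀) hs
  have hequiv := data_equiv hpp hM hT'st hw hs hD hY0 hYfix hYeq
  have hrel' := hrel (fun h2 => by
    have h3 := three_of_card hR hcard' hD
    rw [h2] at h3
    exact h3)
  -- the compatible system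
  have hCmp : S.Cmp ((T : Set L) ∪ algebraMap k L '' (R' : Set k)) (fun r t => D r / D t) := by
    refine ⟨?_, ?_, ?_⟩
    · intro r hr t ht
      exact div_ne_zero (hD r ((hT'set r).2 hr)) (hD t ((hT'set t).2 ht))
    · intro r hr t ht u hu
      refine ⟨1, one_ne_zero, ?_⟩
      have := hD t ((hT'set t).2 ht)
      have := hD u ((hT'set u).2 hu)
      rw [one_pow, mul_one]
      field_simp
    · intro r hr t ht u hu hrt htu hru
      have hr' := (hT'set r).2 hr
      have ht' := (hT'set t).2 ht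
      have hu' := (hT'set u).2 hu
      have h1 : t - u ≠ 0 := sub_ne_zero.2 htu
      have h2 : t - r ≠ 0 := sub_ne_zero.2 hrt.symm
      have h3 : r - u ≠ 0 := sub_ne_zero.2 hru
      have h4 : r - t ≠ 0 := sub_ne_zero.2 hrt
      have hα : D r / D u * ((t - u) / (t - r)) ≠ 0 :=
        mul_ne_zero (div_ne_zero (hD r hr') (hD u hu')) (div_ne_zero h1 h2)
      have hβ : D t / D u * ((r - u) / (r - t)) ≠ 0 :=
        mul_ne_zero (div_ne_zero (hD t ht') (hD u hu')) (div_ne_zero h3 h4)
      exact (hSNR _ _ hα hβ).2 (nr_of_symbol hpp hpow hα (hrel' r hr' t ht' u hu' hrt htu hru))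
  have hEq : ∀ g : L ≃ₐ[k] L, ∀ s ∈ (T : Set L) ∪ algebraMap k L '' (R' : Set k),
      ∀ t ∈ (T : Set L) ∪ algebraMap k L '' (R' : Set k),
      Eqv p (D (g s) / D (g t)) (g (D s / D t)) := by
    intro g r hr t ht
    obtain ⟨e, he, h⟩ := hequiv g r ((hT'set r).2 hr) t ((hT'set t).2 ht)
    exact ⟨e, he, h⟩
  obtain ⟨y, hyR, hy⟩ := hstep (R' : Set k) hR'f (fun r t => D r / D t) hCmp hEq
  have hyT' : ∀ t ∈ T', algebraMap k L y ≠ t := by
    intro t ht
    rcases Finset.mem_union.1 ht with ht | ht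
    · exact hyT y t ht
    · obtain ⟨x, hx, rfl⟩ := Finset.mem_image.1 ht
      intro h1
      apply hyR
      rw [(algebraMap k L).injective h1]
      exact Finset.mem_coe.2 hx
  have hval : ∀ r ∈ T', ∀ t ∈ T', Eqv p (D r / D t)
      ((algebraMap k L y - r) / (algebraMap k L y - t)) := fun r hr t ht =>
    hy r ((hT'set r).1 hr) t ((hT'set t).1 ht)
  have h₀ : algebraMap L Ω (D t₀) * (Y t₀ : Ω) ^ p = 1 := by
    rw [hYeq t₀ (hTT' t₀ ht₀), div_self (hsub t₀)]
  have hlin : ∀ t ∈ T', HasVal p s w t₀ (algebraMap k L y) (X - C t) := fun t ht =>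
    hasVal_linear (hD t ht) (hD t₀ (hTT' t₀ ht₀)) (hYfix t ht) (hYfix t₀ (hTT' t₀ ht₀))
      (hYeq t ht) h₀ (hval t ht t₀ (hTT' t₀ ht₀))
  refine ⟨y, ?_, ?_⟩
  · intro i
    obtain ⟨q, h', hq, heq, hfree⟩ := exists_pfree hpp.ne_zero (h i) (hh i)
    have hh' : h' ≠ 0 := by
      rintro rfl
      rw [mul_zero] at heq
      exact hh i heq
    refine ⟨q, h', hq, heq, ?_⟩
    have hqw : aeval wM q ≠ 0 := fun h1 => hwL ⟨q, hq, h1⟩
    have hz' : (z i / aeval wM q) ^ p = aeval wM h' := by
      rw [div_pow, hz i, heq, map_mul, map_pow, mul_div_cancel_left₀ _ (pow_ne_zero _ hqw)]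
    -- equality with a linear polynomial
    have hlinear : ∀ (P : L[X]) (t : L), Irreducible P → P.Monic → P.eval t = 0 → P = X - C t := by
      intro P t hP hPm hPt
      have h1 : (X - C t) ∣ P := dvd_iff_isRoot.2 hPt
      have h2 : Associated (X - C t) P := (irreducible_X_sub_C t).associated_of_dvd hP h1
      exact (eq_of_monic_of_associated (monic_X_sub_C t) hPm h2).symm
    have hfac : ∀ P ∈ UniqueFactorizationMonoid.normalizedFactors h',
        HasVal p s w t₀ (algebraMap k L y) P := by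
      intro P hP
      have hPirr := UniqueFactorizationMonoid.irreducible_of_normalized_factor P hP
      have hPm : P.Monic := by
        have h1 := UniqueFactorizationMonoid.normalize_normalized_factor P hP
        rw [← h1]
        exact monic_normalize hPirr.ne_zero
      have hPh' : P ∣ h' := UniqueFactorizationMonoid.dvd_of_mem_normalizedFactors hP
      have hPp : ¬ P ^ p ∣ h' := hfree P hPirr
      by_cases hPT : ∃ t ∈ T', P.eval t = 0
      · obtain ⟨t, ht, hPt⟩ := hPT
        rw [hlinear P t hPirr hPm hPt]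
        exact hlin t ht
      push Not at hPT
      have hPf : P ∣ f.map (algebraMap k L) := by
        obtain ⟨n, hn⟩ := hzeros i
        have h1 : P ∣ (f.map (algebraMap k L) * ∏ t ∈ T, (X - C t)) ^ n :=
          (hPh'.trans ⟨q ^ p, by rw [heq, mul_comm]⟩).trans hn
        rcases hPirr.prime.dvd_or_dvd (hPirr.prime.dvd_of_dvd_pow h1) with h2 | h2
        · exact h2
        · exfalso
          obtain ⟨t, ht, h3⟩ := (hPirr.prime.dvd_finset_prod_iff _).1 h2
          have h4 : P = X - C t := eq_of_monic_of_associated hPm (monic_X_sub_C t)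
            (hPirr.associated_of_dvd (irreducible_X_sub_C t) h3)
          apply hPT t (hTT' t ht)
          rw [h4, eval_sub, eval_X, eval_C, sub_self]
      have hPk : ∀ x : k, P.eval (algebraMap k L x) ≠ 0 := by
        intro x hx
        apply hPT (algebraMap k L x) _ hx
        refine Finset.mem_union_right _ (Finset.mem_image_of_mem _ (Finset.mem_filter.2 ⟨?_, i, ?_⟩))
        · rw [Multiset.mem_toFinset, mem_roots hf, IsRoot.def]
          obtain ⟨g, hg⟩ := hPf
          have h1 := congrArg (eval (algebraMap k L x)) hg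
          rw [eval_mul, hx, zero_mul, eval_map, eval₂_at_apply, map_eq_zero] at h1
          exact h1
        · rw [rootMultiplicity_pfree (hh i) hpp.ne_zero heq]
          have h1 := not_dvd_rootMultiplicity (F := L) hPirr hh' hPh' hPp
            (τ := algebraMap k L x) (by rw [coe_aeval_eq_eval]; exact hx)
          rwa [Algebra.algebraMap_self, map_id] at h1
      exact hasVal_far hGen hSNR hζ hM hnet hw
        (fun t ht => by
          obtain ⟨j, hj⟩ := hcov t ht
          exact ⟨h j, z j, hh j, hz j, hj⟩) ht₀ hs (fun t ht => hD t (hTT' t ht))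
        (fun t ht => hYfix t (hTT' t ht)) (fun t ht => hYeq t (hTT' t ht))
        (fun h2 => by
          have h3 := three_of_card hR hcard (fun t ht => hD t (hTT' t ht))
          rw [h2] at h3
          exact h3) (fun t ht => hyT y t ht)
        (fun r hr t ht => hval r (hTT' r hr) t (hTT' t ht)) (hfar P hPirr hPm hPf hPk)
        (fun t ht => hPT t (hTT' t ht)) (hPk y) ⟨h', _, hh', hz', hPh', hPp⟩
    have hval' : HasVal p s w t₀ (algebraMap k L y) h' := by
      rw [← leadingCoeff_mul_prod_normalizedFactors h']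
      exact hasVal_mul (hasVal_C (leadingCoeff_ne_zero.2 hh')) (hasVal_prod hfac)
    exact pow_of_hasVal hpp hM hw (hyT y t₀ ht₀) hs hval'
      ((natDegree_pfree (hh i) heq).1 (hdeg i)) hz'
  · intro r hr₀ t ht₀'
    have hr := hTT' r hr₀
    have ht := hTT' t ht₀'
    obtain ⟨e, he, h⟩ := hval r hr t ht
    let ce : maxUnramified k K Ω := constHom k K Ω (embL k L Ω e)
    refine ⟨ce * (Y r / Y t), ?_, ?_⟩
    · intro γ
      have h1 : s (resAbs k L Ω γ) ce = ce := by
        apply Subtype.ext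
        rw [hs.restrict _ (embL k L Ω e) _ rfl,
          resAbs_apply γ (c := embL k L Ω e) (d := algebraMap L _ e) rfl, AlgEquiv.commutes]
        rfl
      rw [map_mul, map_div₀, h1, hYfix r hr, hYfix t ht]
    · have e1 : ((ce * (Y r / Y t) : maxUnramified k K Ω) : Ω) =
          algebraMap L Ω e * ((Y r : Ω) / (Y t : Ω)) := rfl
      have hYt : (Y t : Ω) ≠ 0 := fun h => hY0 t ht (Subtype.ext h)
      have q1 := hYeq r hr
      have q2 := hYeq t ht
      have hDr : algebraMap L Ω (D r) ≠ 0 := (_root_.map_ne_zero _).2 (hD r hr)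
      have hDt : algebraMap L Ω (D t) ≠ 0 := (_root_.map_ne_zero _).2 (hD t ht)
      have q3 := congrArg (algebraMap L Ω) h
      rw [map_div₀, map_mul, map_div₀, map_pow] at q3
      have hyr : algebraMap L Ω (algebraMap k L y - r) ≠ 0 :=
        (_root_.map_ne_zero _).2 (sub_ne_zero.2 (hyT' r hr))
      have hyt : algebraMap L Ω (algebraMap k L y - t) ≠ 0 :=
        (_root_.map_ne_zero _).2 (sub_ne_zero.2 (hyT' t ht))
      have hwr := hsub r
      have hwt := hsub t
      have hw0 := hsub t₀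
      have r1 : (Y r : Ω) ^ p = (algebraMap K Ω w - algebraMap L Ω r) /
          (algebraMap K Ω w - algebraMap L Ω t₀) / algebraMap L Ω (D r) := by
        rw [← q1]
        field_simp
      have r2 : (Y t : Ω) ^ p = (algebraMap K Ω w - algebraMap L Ω t) /
          (algebraMap K Ω w - algebraMap L Ω t₀) / algebraMap L Ω (D t) := by
        rw [← q2]
        field_simp
      have r3 : algebraMap L Ω e ^ p = algebraMap L Ω (D r) / algebraMap L Ω (D t) *
          (algebraMap L Ω (algebraMap k L y - t) / algebraMap L Ω (algebraMap k L y - r)) := by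
        rw [q3]
        field_simp
      rw [e1, mul_pow, div_pow, r1, r2, r3]
      field_simp

end

end Pool.Agent.Lib.MP_c385f6_ag
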