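import Mathlib
import Pool.Agent.Lib.MP_c385f6_ag.AllP.Complete
import Pool.Agent.Lib.MP_c385f6_ag.AllP.Value
import Pool.Agent.Lib.MP_c385f6_ag.AllP.Sigma

set_option autoImplicit false

/-!
The rational place belonging to a section, for covers with additional branch points.
-/

namespace Pool.Agent.Lib.MP_c385f6_ag

open Polynomial Cpl

section
variable {k L : Type} {K M Ω ι : Type*} [Field k] [CharZero k] [Field L] [Field K] [Field M]
  [Field Ω]
  [Algebra k L] [Algebra k K] [Algebra k Ω] [Algebra L Ω] [Algebra K Ω] [Algebra K M]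
  [Algebra L M] [Algebra M Ω] [IsScalarTower k K Ω] [IsScalarTower k L Ω] [IsScalarTower K M Ω]
  [IsScalarTower L M Ω] [IsAlgClosure K Ω] [FiniteDimensional k L] [IsGalois k L]

/-- **The rational place belonging to a section** (with the compositum as a field `M`). -/
theorem place_of_complete (hGen : StGen) {p : ℕ} [hp : Fact p.Prime] {E : Type} [Field E]
    {S : LF p L E} (hSNR : ∀ x y, x ≠ 0 → y ≠ 0 → (S.h x y = 0 ↔ NR p x y))
    (hpow : ∀ x y : L, x ≠ 0 → NR p (x ^ p) y) {R : Finset L}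
    (hR : ∀ x, x ≠ 0 → ∃ y ∈ R, ∃ z, z ≠ 0 ∧ x = y * z ^ p) {ζ : L} (hζ : IsPrimitiveRoot ζ p)
    (hpG : ¬ p ∣ Module.finrank k L)
    {T : Finset L} {m : ℤ} (hcard : R.card * 2 < T.card) {f : k[X]} (hf : f ≠ 0)
    (hC : Complete p k S f T m)
    (hM : IntermediateField.adjoin K (Set.range (algebraMap L M)) = ⊤) {w : K}
    (hw : Transcendental k w) {h : ι → L[X]} {z : ι → M} (hh : ∀ i, h i ≠ 0)
    (hz : ∀ i, z i ^ p = aeval (algebraMap K M w) (h i)) (hdeg : ∀ i, p ∣ (h i).natDegree)
    (hzeros : ∀ i, ∃ n : ℕ, h i ∣ (f.map (algebraMap k L) * ∏ t ∈ T, (X - C t)) ^ n)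
    (hcov : ∀ t ∈ T, ∃ i, ¬ p ∣ (h i).rootMultiplicity t)
    (hgen : IntermediateField.adjoin L (insert (algebraMap K M w) (Set.range z)) = ⊤)
    {s : AbsGal k Ω →* PiOne k K Ω} (hs : IsSection k K Ω s) :
    ∃ y : k, (∃ B : ValuationSubring K, IsRationalPlace k K B ∧
        B.valuation (w - algebraMap k K y) < 1) ∧
      ∀ r ∈ T, ∀ t ∈ T, ∃ Z : maxUnramified k K Ω,
        (∀ γ : AbsGal L Ω, s (resAbs k L Ω γ) Z = Z) ∧
        algebraMap L Ω (algebraMap k L y - r) * (algebraMap K Ω w - algebraMap L Ω t) *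
          (Z : Ω) ^ p = algebraMap L Ω (algebraMap k L y - t) *
            (algebraMap K Ω w - algebraMap L Ω r) := by
  obtain ⟨y, hy, hZ⟩ := exists_value hGen hSNR hpow hR hζ hC.net hC.stable hcard hC.ne hf hC.step
    hC.far hM hw hh hz hdeg hzeros hcov hs
  refine ⟨y, ?_, hZ⟩
  choose q h' hq heq e he hey using hy
  have hwL : Transcendental L (algebraMap K M w) := by
    intro h1
    have h3 : IsAlgebraic L (algebraMap K Ω w) := by
      rw [IsScalarTower.algebraMap_apply K M Ω]
      exact h1.algebraMap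
    have h4 : IsAlgebraic k (algebraMap K Ω w) := h3.restrictScalars k
    exact hw ((isAlgebraic_algebraMap_iff (algebraMap K Ω).injective).1 h4)
  have hqw : ∀ i, aeval (algebraMap K M w) (q i) ≠ 0 := fun i h1 => hwL ⟨q i, hq i, h1⟩
  have hz' : ∀ i, (z i / aeval (algebraMap K M w) (q i)) ^ p = aeval (algebraMap K M w) (h' i) := by
    intro i
    rw [div_pow, hz i, heq i, map_mul, map_pow, mul_div_cancel_left₀ _ (pow_ne_zero _ (hqw i))]
  have hgen' : IntermediateField.adjoin L (insert (algebraMap K M w)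
      (Set.range fun i => z i / aeval (algebraMap K M w) (q i))) = ⊤ := by
    rw [eq_top_iff, ← hgen, IntermediateField.adjoin_le_iff]
    have hwm : algebraMap K M w ∈ IntermediateField.adjoin L (insert (algebraMap K M w)
        (Set.range fun i => z i / aeval (algebraMap K M w) (q i))) :=
      IntermediateField.subset_adjoin _ _ (Set.mem_insert _ _)
    rintro x (rfl | ⟨i, rfl⟩)
    · exact hwm
    · have h1 : z i = z i / aeval (algebraMap K M w) (q i) * aeval (algebraMap K M w) (q i) :=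
        (div_mul_cancel₀ _ (hqw i)).symm
      rw [SetLike.mem_coe, h1]
      refine mul_mem (IntermediateField.subset_adjoin _ _ (Set.mem_insert_of_mem _ ⟨i, rfl⟩)) ?_
      have h2 : aeval (algebraMap K M w) (q i) ∈ Algebra.adjoin L {algebraMap K M w} :=
        aeval_mem_adjoin_singleton L _
      exact (IntermediateField.algebra_adjoin_le_adjoin L _)
        (Algebra.adjoin_mono (by
          rw [Set.singleton_subset_iff]
          exact Set.mem_insert _ _) h2)
  let iM : Algebra k M := ((algebraMap K M).comp (algebraMap k K)).toAlgebra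
  have iT1 : IsScalarTower k K M := IsScalarTower.of_algebraMap_eq fun x => rfl
  have iT2 : IsScalarTower k L M := IsScalarTower.of_algebraMap_eq fun x => by
    apply (algebraMap M Ω).injective
    rw [← IsScalarTower.algebraMap_apply L M Ω, ← IsScalarTower.algebraMap_apply k L Ω]
    show algebraMap M Ω (algebraMap K M (algebraMap k K x)) = _
    rw [← IsScalarTower.algebraMap_apply K M Ω, ← IsScalarTower.algebraMap_apply k K Ω]
  exact place_of_split hp.out hζ hpG hM (fun g => exists_sigma_of_section hM hs g) hw hz'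
    hgen' fun i => ⟨e i, he i, hey i⟩

end

section
variable {k L : Type} {K Ω ι : Type*} [Field k] [CharZero k] [Field L] [Field K] [Field Ω]
  [Algebra k L] [Algebra k K] [Algebra k Ω] [Algebra L Ω] [Algebra K Ω] [IsScalarTower k K Ω]
  [IsScalarTower k L Ω] [IsAlgClosure K Ω] [FiniteDimensional k L] [IsGalois k L]

/-- **The rational place belonging to a section** (inside `Ω`). -/
theorem place_of_cover (hGen : StGen) {p : ℕ} [hp : Fact p.Prime] {E : Type} [Field E]
    {S : LF p L E} (hSNR : ∀ x y, x ≠ 0 → y ≠ 0 → (S.h x y = 0 ↔ NR p x y))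
    (hpow : ∀ x y : L, x ≠ 0 → NR p (x ^ p) y) {R : Finset L}
    (hR : ∀ x, x ≠ 0 → ∃ y ∈ R, ∃ z, z ≠ 0 ∧ x = y * z ^ p) {ζ : L} (hζ : IsPrimitiveRoot ζ p)
    (hpG : ¬ p ∣ Module.finrank k L)
    {T : Finset L} {m : ℤ} (hcard : R.card * 2 < T.card) {f : k[X]} (hf : f ≠ 0)
    (hC : Complete p k S f T m) {w : K}
    (hw : Transcendental k w) {h : ι → L[X]} {z : ι → Ω} (hh : ∀ i, h i ≠ 0)
    (hz : ∀ i, z i ^ p = aeval (algebraMap K Ω w) (h i)) (hdeg : ∀ i, p ∣ (h i).natDegree)
    (hzeros : ∀ i, ∃ n : ℕ, h i ∣ (f.map (algebraMap k L) * ∏ t ∈ T, (X - C t)) ^ n)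
    (hcov : ∀ t ∈ T, ∃ i, ¬ p ∣ (h i).rootMultiplicity t)
    (hgen : (IntermediateField.adjoin K (Set.range (algebraMap L Ω)) : Set Ω) =
      (IntermediateField.adjoin L (insert (algebraMap K Ω w) (Set.range z)) : Set Ω))
    {s : AbsGal k Ω →* PiOne k K Ω} (hs : IsSection k K Ω s) :
    ∃ y : k, (∃ B : ValuationSubring K, IsRationalPlace k K B ∧
        B.valuation (w - algebraMap k K y) < 1) ∧
      ∀ r ∈ T, ∀ t ∈ T, ∃ Z : maxUnramified k K Ω,
        algebraMap L Ω (algebraMap k L y - r) * (algebraMap K Ω w - algebraMap L Ω t) *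
          (Z : Ω) ^ p = algebraMap L Ω (algebraMap k L y - t) *
            (algebraMap K Ω w - algebraMap L Ω r) ∧
        ∀ g : AbsGal k Ω, (∀ (x : L) (b : algebraicClosure k Ω),
          (b : Ω) = algebraMap L Ω x → g b = b) → s g Z = Z := by
  let M := IntermediateField.adjoin K (Set.range (algebraMap L Ω))
  have hLM : ∀ x : L, algebraMap L Ω x ∈ M := fun x =>
    IntermediateField.subset_adjoin _ _ ⟨x, rfl⟩
  let _ : Algebra L M := ((algebraMap L Ω).codRestrict M hLM).toAlgebra
  have _ : IsScalarTower L M Ω := IsScalarTower.of_algebraMap_eq fun x => rfl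
  have hM : IntermediateField.adjoin K (Set.range (algebraMap L M)) = ⊤ := by
    apply IntermediateField.lift_injective
    rw [IntermediateField.lift_adjoin, IntermediateField.lift_top]
    congr 1
    ext x
    constructor
    · rintro ⟨_, ⟨x, rfl⟩, rfl⟩
      exact ⟨x, rfl⟩
    · rintro ⟨x, rfl⟩
      exact ⟨algebraMap L M x, ⟨x, rfl⟩, rfl⟩
  have hzM : ∀ i, z i ∈ M := by
    intro i
    have h1 : z i ∈ (IntermediateField.adjoin L (insert (algebraMap K Ω w) (Set.range z)) :
        Set Ω) := IntermediateField.subset_adjoin _ _ (Set.mem_insert_of_mem _ ⟨i, rfl⟩)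
    rw [← hgen] at h1
    exact h1
  obtain ⟨z', hz'⟩ : ∃ z' : ι → M, ∀ i, (z' i : Ω) = z i := ⟨fun i => ⟨z i, hzM i⟩, fun i => rfl⟩
  have hzp : ∀ i, z' i ^ p = aeval (algebraMap K M w) (h i) := by
    intro i
    apply Subtype.ext
    show algebraMap M Ω (z' i ^ p) = algebraMap M Ω (aeval (algebraMap K M w) (h i))
    rw [map_pow, ← aeval_algebraMap_apply, ← IsScalarTower.algebraMap_apply K M Ω, ← hz i, ← hz' i]
    rfl
  have hgen' : IntermediateField.adjoin L (insert (algebraMap K M w) (Set.range z')) = ⊤ := by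
    rw [eq_top_iff]
    intro x _
    have h1 : (x : Ω) ∈ (IntermediateField.adjoin K (Set.range (algebraMap L Ω)) : Set Ω) := x.2
    rw [hgen] at h1
    have h2 : (insert (algebraMap K Ω w) (Set.range z)) =
        (IsScalarTower.toAlgHom L M Ω) '' (insert (algebraMap K M w) (Set.range z')) := by
      rw [Set.image_insert_eq, ← Set.range_comp]
      congr 1
      congr 1
      ext i
      exact (hz' i).symm
    rw [h2, ← IntermediateField.adjoin_map] at h1
    obtain ⟨x', hx', hxx⟩ := h1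
    have h3 : x' = x := Subtype.ext hxx
    rw [← h3]
    exact hx'
  obtain ⟨y, hy, hZ⟩ := place_of_complete hGen hSNR hpow hR hζ hpG hcard hf hC hM hw hh hzp hdeg
    hzeros hcov hgen' hs
  refine ⟨y, hy, fun r hr t ht => ?_⟩
  obtain ⟨Z, hZ1, hZ2⟩ := hZ r hr t ht
  refine ⟨Z, hZ2, fun g hg => ?_⟩
  obtain ⟨γ, rfl⟩ := exists_resAbs (L := L) (h := g) (fun x => hg x _ rfl)
  exact hZ1 γ

end

end Pool.Agent.Lib.MP_c385f6_ag
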